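import Pool.Agent.Lib.MP_c37a72_al.CO.Spec
import Pool.Agent.Lib.MP_c37a72_al.CEN

/-!
# CEX: ideals of a spanning subring of `End_F(V)` contain nonzero scalars
-/

set_option autoImplicit false

open scoped TensorProduct
open Coalgebra HopfAlgebra

namespace Pool.Agent.Lib.MP_c37a72_al.CO

universe u v w

open Module Pool.Agent.Lib.MP_c37a72_al

namespace CEXM

/-! ### the ring `End_F(V)` -/

section Simple

variable {F V : Type v} [Field F] [AddCommGroup V] [Module F V] [Module.Finite F V]

/-- a nonzero two-sided ideal of `End_F(V)` is everything -/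
theorem simple (W : Submodule F (Module.End F V)) (hl : ∀ a g : Module.End F V, g ∈ W → a * g ∈ W)
    (hr : ∀ a g : Module.End F V, g ∈ W → g * a ∈ W) (g : Module.End F V) (hg : g ∈ W)
    (hg0 : g ≠ 0) : W = ⊤ := by
  obtain ⟨v, hv⟩ : ∃ v, g v ≠ 0 := by
    by_contra h
    push Not at h
    exact hg0 (LinearMap.ext h)
  obtain ⟨φ, hφ⟩ := Module.Projective.exists_dual_ne_zero F hv
  set b := finBasis F V with hb
  have h1 : ∀ i, (φ (g v))⁻¹ • ((φ.smulRight (b i)) * (g * ((b.coord i).smulRight v))) ∈ W :=
    fun i => W.smul_mem _ (hl _ _ (hr _ _ hg))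
  have h2 : (1 : Module.End F V) = ∑ i, (φ (g v))⁻¹ •
      ((φ.smulRight (b i)) * (g * ((b.coord i).smulRight v))) := by
    ext w
    simp only [Module.End.one_apply, LinearMap.sum_apply, LinearMap.smul_apply,
      Module.End.mul_apply, LinearMap.smulRight_apply, map_smul]
    conv_lhs => rw [← b.sum_repr w]
    apply Finset.sum_congr rfl
    intro i _
    rw [Basis.coord_apply, smul_comm ((φ (g v))⁻¹) (b.repr w i), smul_smul ((φ (g v))⁻¹),
      inv_mul_cancel₀ hφ, one_smul]
  have h3 : (1 : Module.End F V) ∈ W := by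
    rw [h2]
    exact W.sum_mem fun i _ => h1 i
  rw [eq_top_iff]
  intro a _
  have := hl a 1 h3
  rwa [mul_one] at this

/-- independent left factors -/
theorem indep (S : Set (Module.End F V)) (hS : Submodule.span F S = ⊤) (n : ℕ)
    (x g : Fin n → Module.End F V) (hx : LinearIndependent F x)
    (h : ∀ y ∈ S, ∑ j, x j * y * g j = 0) : ∀ j, g j = 0 := by
  have h1 : ∀ y : Module.End F V, ∑ j, x j * y * g j = 0 := by
    intro y
    have hy : y ∈ Submodule.span F S := by rw [hS]; trivial
    induction hy using Submodule.span_induction with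
    | mem z hz => exact h z hz
    | zero => simp
    | add a b _ _ ha hb =>
      have : ∀ j, x j * (a + b) * g j = x j * a * g j + x j * b * g j := by
        intro j
        rw [mul_add, add_mul]
      rw [Finset.sum_congr rfl (fun j _ => this j), Finset.sum_add_distrib, ha, hb, add_zero]
    | smul c a _ ha =>
      have : ∀ j, x j * (c • a) * g j = c • (x j * a * g j) := by
        intro j
        rw [mul_smul_comm, smul_mul_assoc]
      rw [Finset.sum_congr rfl (fun j _ => this j), ← Finset.smul_sum, ha, smul_zero]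
  intro j
  ext w
  rw [LinearMap.zero_apply, ← forall_dual_apply_eq_zero_iff F]
  intro φ
  have h2 : ∑ i, φ (g i w) • x i = 0 := by
    ext v
    have h3 := congrArg (fun f : Module.End F V => f w) (h1 (φ.smulRight v))
    simp only [LinearMap.sum_apply, Module.End.mul_apply, LinearMap.smulRight_apply, map_smul,
      LinearMap.zero_apply] at h3
    rw [LinearMap.sum_apply, LinearMap.zero_apply]
    exact h3
  exact Fintype.linearIndependent_iff.1 hx _ h2 j

/-- a spanning set contains a basis -/
theorem exists_basis {E : Type v} [AddCommGroup E] [Module F E] [Module.Finite F E] (T : Set E)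
    (hT : Submodule.span F T = ⊤) : ∃ e : Basis (Fin (finrank F E)) F E, ∀ j, e j ∈ T := by
  obtain ⟨b, hbT, hspan, hli⟩ := exists_linearIndependent F T
  have h1 : ⊤ ≤ Submodule.span F (Set.range ((↑) : b → E)) := by
    rw [Subtype.range_coe, hspan, hT]
  set B := Basis.mk hli h1 with hB
  set e := B.reindex (B.indexEquiv (finBasis F E)) with he
  refine ⟨e, fun j => ?_⟩
  rw [he, Basis.reindex_apply, hB, Basis.mk_apply]
  exact hbT (Subtype.coe_prop _)

/-- the Capelli sum as an alternating map -/
noncomputable def alt (n : ℕ) (y : Fin n → Module.End F V) :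
    (Module.End F V) [⋀^Fin n]→ₗ[F] (Module.End F V) :=
  MultilinearMap.alternatization
    ((MultilinearMap.mkPiAlgebraFin F n (Module.End F V)).compLinearMap
      (fun i => LinearMap.mulRight F (y i)))

omit [Module.Finite F V] in
theorem alt_apply (n : ℕ) (y x : Fin n → Module.End F V) :
    alt n y x = capelli n x y := by
  unfold alt capelli
  rw [MultilinearMap.alternatization_apply]
  apply Finset.sum_congr rfl
  intro σ _
  rw [MultilinearMap.domDomCongr_apply, MultilinearMap.compLinearMap_apply,
    MultilinearMap.mkPiAlgebraFin_apply]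
  rfl

theorem capelli_det (φ : Module.End F V →ₗ[F] Module.End F V)
    (x y : Fin (finrank F (Module.End F V)) → Module.End F V) :
    capelli _ (fun i => φ (x i)) y = LinearMap.det φ • capelli _ x y := by
  have e := Module.finBasis F (Module.End F V)
  rw [← alt_apply, ← alt_apply, CAPM.alt_eq e _ (fun i => φ (x i)), CAPM.alt_eq e _ x, smul_smul]
  congr 1
  exact Basis.det_comp e φ x

/-- Capelli sums of independent elements do not vanish -/
theorem capelli_ne [Nontrivial V] {H : Type v} (ρ : H → Module.End F V)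
    (hS : Submodule.span F (Set.range ρ) = ⊤) (n : ℕ) (x : Fin n → Module.End F V)
    (hx : LinearIndependent F x) : ∃ y : Fin n → H, capelli n x (fun j => ρ (y j)) ≠ 0 := by
  induction n with
  | zero =>
    refine ⟨Fin.elim0, ?_⟩
    unfold capelli
    simp
  | succ n ih =>
    by_contra hcon
    push Not at hcon
    have hx' : LinearIndependent F (fun i : Fin n => x i.succ) :=
      hx.comp Fin.succ (Fin.succ_injective n)
    obtain ⟨y, hne⟩ := ih (fun i => x i.succ) hx'
    have h0 := indep (Set.range ρ) hS (n + 1) x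
      (fun p => (((if p = 0 then (1 : ℤˣ) else -1 : ℤˣ) : ℤ) •
        capelli n (fun i => x (Equiv.swap 0 p i.succ)) (fun j => ρ (y j)))) hx (by
        rintro _ ⟨y0, rfl⟩
        rw [← CAPM.expand]
        have h1 := hcon (Fin.cons y0 y)
        have h2 : (fun j => ρ ((Fin.cons y0 y : Fin (n + 1) → H) j)) =
            (Fin.cons (ρ y0) (fun j => ρ (y j)) : Fin (n + 1) → Module.End F V) := by
          funext j
          refine Fin.cases ?_ (fun i => ?_) j
          · rw [Fin.cons_zero, Fin.cons_zero]
          · rw [Fin.cons_succ, Fin.cons_succ]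
        rw [h2] at h1
        exact h1)
    have h1 := h0 0
    simp only [if_true, Units.val_one, one_smul, Equiv.swap_self, Equiv.refl_apply] at h1
    exact hne h1

theorem coeff_zero_ne {w : Module.End F V} (hw : IsUnit w) :
    (LinearMap.mulLeft F w).charpoly.coeff 0 ≠ 0 := by
  intro h0
  have h1 := LinearMap.det_eq_sign_charpoly_coeff (LinearMap.mulLeft F w)
  rw [h0, mul_zero] at h1
  obtain ⟨u, rfl⟩ := hw
  have h2 : LinearMap.mulLeft F (u : Module.End F V) ∘ₗ
      LinearMap.mulLeft F ((u⁻¹ : (Module.End F V)ˣ) : Module.End F V) = LinearMap.id := by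
    apply LinearMap.ext
    intro q
    rw [LinearMap.comp_apply, LinearMap.mulLeft_apply, LinearMap.mulLeft_apply, ← mul_assoc,
      Units.mul_inv, one_mul, LinearMap.id_apply]
  have h3 := congrArg LinearMap.det h2
  rw [LinearMap.det_comp, h1, zero_mul, LinearMap.det_id] at h3
  exact zero_ne_one h3

theorem cayley (w : Module.End F V) :
    ∑ i ∈ Finset.range (finrank F (Module.End F V) + 1),
      (LinearMap.mulLeft F w).charpoly.coeff i • w ^ i = 0 := by
  have h1 := LinearMap.aeval_self_charpoly (LinearMap.mulLeft F w)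
  set χ := (LinearMap.mulLeft F w).charpoly with hχ
  have hdeg : χ.natDegree = finrank F (Module.End F V) := LinearMap.charpoly_natDegree _
  have h2 : LinearMap.mulLeft F w = Algebra.lmul F (Module.End F V) w := rfl
  rw [h2, Polynomial.aeval_algHom_apply] at h1
  have h3 : Polynomial.aeval w χ * 1 = 0 :=
    congrArg (fun f : Module.End F V →ₗ[F] Module.End F V => f 1) h1
  rw [mul_one, Polynomial.aeval_eq_sum_range, hdeg] at h3
  exact h3

/-- an invertible element in a `k`-subspace which spans `End_F(V)` -/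
theorem exists_unit {k : Type u} [Field k] [Infinite k] [Algebra k F] [Module k V]
    [IsScalarTower k F V] (G : Submodule k (Module.End F V))
    (hG : Submodule.span F (G : Set (Module.End F V)) = ⊤) : ∃ w ∈ G, IsUnit w := by
  classical
  set b := finBasis F V with hb
  set N := finrank F (Module.End F V) with hN
  obtain ⟨e, he⟩ := exists_basis (G : Set (Module.End F V)) hG
  set M : Fin N → Matrix (Fin (finrank F V)) (Fin (finrank F V)) F := fun i =>
    LinearMap.toMatrix b b (e i) with hM
  set P : Matrix (Fin (finrank F V)) (Fin (finrank F V)) (MvPolynomial (Fin N) F) :=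
    ∑ i, (MvPolynomial.X i : MvPolynomial (Fin N) F) • (M i).map MvPolynomial.C with hP
  have hev : ∀ ξ : Fin N → F, MvPolynomial.eval ξ P.det =
      LinearMap.det (∑ i, ξ i • (e i : V →ₗ[F] V)) := by
    intro ξ
    rw [← LinearMap.det_toMatrix b, RingHom.map_det]
    congr 1
    rw [hP, map_sum]
    ext p q
    simp only [RingHom.mapMatrix_apply, Matrix.map_apply, Matrix.sum_apply, Matrix.smul_apply,
      smul_eq_mul, map_sum, map_mul, MvPolynomial.eval_X, MvPolynomial.eval_C, hM, map_smul]
  have hne : P.det ≠ 0 := by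
    intro h0
    have h1 := hev (fun i => e.repr (1 : Module.End F V) i)
    have h2 : ∑ i, e.repr (1 : Module.End F V) i • (e i : V →ₗ[F] V) = LinearMap.id :=
      e.sum_repr (1 : Module.End F V)
    rw [h0, map_zero, h2, LinearMap.det_id] at h1
    exact zero_ne_one h1
  obtain ⟨ξ, hξ⟩ : ∃ ξ : Fin N → k, MvPolynomial.eval (fun i => algebraMap k F (ξ i)) P.det ≠ 0 := by
    by_contra hcon
    push Not at hcon
    apply hne
    apply MvPolynomial.funext_set (fun _ : Fin N => Set.range (algebraMap k F))
      (fun _ => Set.infinite_range_of_injective (algebraMap k F).injective)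
    intro x hx
    rw [map_zero]
    choose ξ hξ using fun i => hx i (Set.mem_univ i)
    have : x = fun i => algebraMap k F (ξ i) := funext fun i => (hξ i).symm
    rw [this]
    exact hcon ξ
  refine ⟨∑ i, ξ i • e i, G.sum_mem fun i _ => G.smul_mem _ (he i), ?_⟩
  have h3 : (∑ i, ξ i • e i : Module.End F V) = ∑ i, algebraMap k F (ξ i) • (e i : V →ₗ[F] V) := by
    apply Finset.sum_congr rfl
    intro i _
    ext v
    rw [LinearMap.smul_apply, LinearMap.smul_apply, algebraMap_smul]
  rw [h3, LinearMap.isUnit_iff_isUnit_det]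
  rw [hev] at hξ
  exact IsUnit.mk0 _ hξ

end Simple

/-! ### the ideal -/

section Ideal

variable {k : Type u} {H F V : Type v} [Field k] [Infinite k] [Field F] [Algebra k F] [Ring H]
    [Algebra k H] [AddCommGroup V] [Module F V] [Module k V] [IsScalarTower k F V]
    [Module.Finite F V] (ρ : H →ₐ[k] Module.End F V) (J : Ideal H)

omit [Infinite k] [Module.Finite F V] in
/-- Capelli sums are compatible with homomorphisms -/
theorem capelli_map (n : ℕ) (x y : Fin n → H) :
    ρ (capelli n x y) = capelli n (fun j => ρ (x j)) (fun j => ρ (y j)) := by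
  unfold capelli
  rw [map_sum]
  apply Finset.sum_congr rfl
  intro σ _
  rw [map_zsmul, map_list_prod, List.map_ofFn]
  congr 3
  funext i
  rw [Function.comp_apply, map_mul]

/-- Capelli sums of elements of an ideal -/
theorem capelli_mem (hJ : J.IsTwoSided) (n : ℕ) (x y : Fin (n + 1) → H) (hx : ∀ j, x j ∈ J) :
    capelli (n + 1) x y ∈ J := by
  unfold capelli
  apply J.sum_mem
  intro σ _
  rw [zsmul_eq_mul]
  apply J.mul_mem_left
  rw [List.ofFn_succ, List.prod_cons]
  exact hJ.mul_mem_of_left _ (hJ.mul_mem_of_left _ (hx _))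

/-- the span of the elements `u c(x;y) v` -/
noncomputable def GG (n : ℕ) : Submodule k (Module.End F V) :=
  Submodule.span k {z | ∃ u v : H, ∃ x y : Fin n → H, (∀ j, x j ∈ J) ∧
    z = ρ u * capelli n (fun j => ρ (x j)) (fun j => ρ (y j)) * ρ v}

omit [Infinite k] [Module.Finite F V] in
theorem GG_le (hJ : J.IsTwoSided) (n : ℕ) {g : Module.End F V} (hg : g ∈ GG ρ J (n + 1)) :
    ∃ z ∈ J, ρ z = g := by
  unfold GG at hg
  induction hg using Submodule.span_induction with
  | mem z hz =>
    obtain ⟨u, v, x, y, hx, rfl⟩ := hz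
    refine ⟨u * capelli (n + 1) x y * v, ?_, ?_⟩
    · exact hJ.mul_mem_of_left _ (J.mul_mem_left _ (capelli_mem J hJ n x y hx))
    · rw [map_mul, map_mul, capelli_map]
  | zero => exact ⟨0, J.zero_mem, map_zero _⟩
  | add a b _ _ ha hb =>
    obtain ⟨z, hz, rfl⟩ := ha
    obtain ⟨z', hz', rfl⟩ := hb
    exact ⟨z + z', J.add_mem hz hz', map_add _ _ _⟩
  | smul c a _ ha =>
    obtain ⟨z, hz, rfl⟩ := ha
    refine ⟨c • z, ?_, map_smul _ _ _⟩
    rw [Algebra.smul_def]
    exact J.mul_mem_left _ hz

variable {ρ J}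

omit [Infinite k] [Module.Finite F V] in
theorem GG_gen {n : ℕ} {x y : Fin n → H} (u v : H) (hx : ∀ j, x j ∈ J) :
    ρ u * capelli n (fun j => ρ (x j)) (fun j => ρ (y j)) * ρ v ∈ GG ρ J n :=
  Submodule.subset_span ⟨u, v, x, y, hx, rfl⟩

omit [Infinite k] [Module.Finite F V] in
theorem GG_mul_left {n : ℕ} {g : Module.End F V} (h : H) (hg : g ∈ GG ρ J n) :
    ρ h * g ∈ GG ρ J n := by
  unfold GG at hg
  induction hg using Submodule.span_induction with
  | mem z hz =>
    obtain ⟨u, v, x, y, hx, rfl⟩ := hz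
    rw [← mul_assoc, ← mul_assoc, ← map_mul]
    exact GG_gen _ _ hx
  | zero => rw [mul_zero]; exact Submodule.zero_mem _
  | add a b _ _ ha hb => rw [mul_add]; exact Submodule.add_mem _ ha hb
  | smul c a _ ha => rw [mul_smul_comm]; exact Submodule.smul_mem _ _ ha

omit [Infinite k] [Module.Finite F V] in
theorem GG_mul_right {n : ℕ} {g : Module.End F V} (h : H) (hg : g ∈ GG ρ J n) :
    g * ρ h ∈ GG ρ J n := by
  unfold GG at hg
  induction hg using Submodule.span_induction with
  | mem z hz =>
    obtain ⟨u, v, x, y, hx, rfl⟩ := hz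
    rw [mul_assoc, ← map_mul]
    exact GG_gen _ _ hx
  | zero => rw [zero_mul]; exact Submodule.zero_mem _
  | add a b _ _ ha hb => rw [add_mul]; exact Submodule.add_mem _ ha hb
  | smul c a _ ha => rw [smul_mul_assoc]; exact Submodule.smul_mem _ _ ha

/-- the coefficients of the characteristic polynomials act on `GG` -/
theorem GG_coeff (a : H) {g : Module.End F V}
    (hg : g ∈ GG ρ J (finrank F (Module.End F V))) :
    ∀ i ∈ Finset.range (finrank F (Module.End F V) + 1),
      (LinearMap.mulLeft F (ρ a)).charpoly.coeff i • g ∈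
        GG ρ J (finrank F (Module.End F V)) := by
  set χ := (LinearMap.mulLeft F (ρ a)).charpoly with hχ
  have hdeg : χ.natDegree = finrank F (Module.End F V) := LinearMap.charpoly_natDegree _
  apply CENM.coeff_mem
  intro t
  have hsm : ∀ (s : k) (q : Module.End F V), algebraMap k F s • q = s • q := by
    intro s q
    ext v
    rw [LinearMap.smul_apply, LinearMap.smul_apply, algebraMap_smul]
  have hsum : ∑ i ∈ Finset.range (finrank F (Module.End F V) + 1), t ^ i • χ.coeff i • g =
      χ.eval (algebraMap k F t) • g := by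
    rw [Polynomial.eval_eq_sum_range, hdeg, Finset.sum_smul]
    apply Finset.sum_congr rfl
    intro i _
    rw [mul_comm, mul_smul, ← map_pow, hsm]
  rw [hsum, hχ, CENM.eval_charpoly]
  set φ : Module.End F V →ₗ[F] Module.End F V :=
    algebraMap k F t • LinearMap.id - LinearMap.mulLeft F (ρ a) with hφ
  have hφx : ∀ q : H, φ (ρ q) = ρ (t • q - a * q) := by
    intro q
    rw [hφ, LinearMap.sub_apply, LinearMap.smul_apply, LinearMap.id_apply, hsm,
      LinearMap.mulLeft_apply, map_sub, map_smul, map_mul]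
  have hJx : ∀ q ∈ J, t • q - a * q ∈ J := by
    intro q hq
    apply J.sub_mem _ (J.mul_mem_left _ hq)
    rw [Algebra.smul_def]
    exact J.mul_mem_left _ hq
  clear hsum
  unfold GG at hg
  induction hg using Submodule.span_induction with
  | mem z hz =>
    obtain ⟨u, v, x, y, hx, rfl⟩ := hz
    rw [← smul_mul_assoc, ← mul_smul_comm, ← capelli_det φ]
    simp only [hφx]
    exact GG_gen _ _ (fun j => hJx _ (hx j))
  | zero => rw [smul_zero]; exact Submodule.zero_mem _
  | add a b _ _ ha hb => rw [smul_add]; exact Submodule.add_mem _ ha hb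
  | smul c b _ hb =>
    rw [← hsm c b, smul_comm, hsm]
    exact Submodule.smul_mem _ _ hb

omit [Infinite k] in
/-- the `F`-span of a set which is stable under `ρ(H)` is a two-sided ideal -/
theorem span_ideal (hS : Submodule.span F (Set.range ρ) = ⊤) (T : Set (Module.End F V))
    (hl : ∀ (h : H), ∀ g ∈ T, ρ h * g ∈ T) (hr : ∀ (h : H), ∀ g ∈ T, g * ρ h ∈ T)
    (g : Module.End F V) (hg : g ∈ T) (hg0 : g ≠ 0) : Submodule.span F T = ⊤ := by
  apply simple (Submodule.span F T) _ _ g (Submodule.subset_span hg) hg0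
  · intro a b hb
    have ha : a ∈ Submodule.span F (Set.range ρ) := by rw [hS]; trivial
    have h1 := Submodule.mul_mem_mul ha hb
    rw [Submodule.span_mul_span] at h1
    refine Submodule.span_mono ?_ h1
    rintro _ ⟨_, ⟨h, rfl⟩, c, hc, rfl⟩
    exact hl h c hc
  · intro a b hb
    have ha : a ∈ Submodule.span F (Set.range ρ) := by rw [hS]; trivial
    have h1 := Submodule.mul_mem_mul hb ha
    rw [Submodule.span_mul_span] at h1
    refine Submodule.span_mono ?_ h1
    rintro _ ⟨c, hc, _, ⟨h, rfl⟩, rfl⟩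
    exact hr h c hc

end Ideal

end CEXM

open CEXM in
theorem specCEX : SpecCEX.{u, v} := by
  intro k H F V _ _ _ _ _ _ _ _ _ _ _ _ ρ hS J hJ hne
  obtain ⟨x₀, hx₀, hx₀'⟩ := hne
  -- the ideal `ρ(J)` spans
  have hT : Submodule.span F (ρ '' (J : Set H)) = ⊤ := by
    refine span_ideal hS _ ?_ ?_ (ρ x₀) ⟨x₀, hx₀, rfl⟩ hx₀'
    · rintro h _ ⟨x, hx, rfl⟩
      exact ⟨h * x, J.mul_mem_left _ hx, map_mul _ _ _⟩
    · rintro h _ ⟨x, hx, rfl⟩
      exact ⟨x * h, hJ.mul_mem_of_left _ hx, map_mul _ _ _⟩
  obtain ⟨e, he⟩ := exists_basis _ hT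
  choose x hx hxe using he
  obtain ⟨y, hy⟩ := capelli_ne ρ hS _ e e.linearIndependent
  have hpos : 0 < finrank F (Module.End F V) := finrank_pos
  obtain ⟨N, hN⟩ : ∃ N, finrank F (Module.End F V) = N + 1 := ⟨_, (Nat.succ_pred hpos.ne').symm⟩
  have hle : ∀ g ∈ GG ρ J (finrank F (Module.End F V)), ∃ z ∈ J, ρ z = g := by
    intro g hg
    rw [hN] at hg
    exact GG_le ρ J hJ N hg
  set G := GG ρ J (finrank F (Module.End F V)) with hG
  have hc : capelli _ e (fun j => ρ (y j)) ∈ G := by
    have h1 := GG_gen (ρ := ρ) (J := J) (x := x) (y := y) 1 1 hx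
    rw [map_one, one_mul, mul_one] at h1
    have h2 : (fun j => ρ (x j)) = e := funext hxe
    rw [h2] at h1
    exact h1
  have hGs : Submodule.span F (G : Set (Module.End F V)) = ⊤ :=
    span_ideal hS _ (fun h g hg => GG_mul_left h hg) (fun h g hg => GG_mul_right h hg) _ hc hy
  obtain ⟨w, hwG, hwu⟩ := exists_unit G hGs
  obtain ⟨a, haJ, ha⟩ := hle w hwG
  have hch := cayley w
  set χ := (LinearMap.mulLeft F w).charpoly with hχ
  rw [Finset.sum_range_succ'] at hch
  -- the sum lies in `ρ(J)`
  have hterm : ∀ i ∈ Finset.range (finrank F (Module.End F V)),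
      ∃ z ∈ J, ρ z = χ.coeff (i + 1) • w ^ (i + 1) := by
    intro i hi
    have h1 := GG_coeff a hwG (i + 1) (by
      rw [Finset.mem_range] at hi ⊢
      omega)
    rw [ha] at h1
    obtain ⟨z, hz, hz'⟩ := hle _ h1
    refine ⟨z * a ^ i, hJ.mul_mem_of_left _ hz, ?_⟩
    rw [map_mul, map_pow, ha, hz', smul_mul_assoc, pow_succ']
  have hsum : ∃ z ∈ J, ρ z = ∑ i ∈ Finset.range (finrank F (Module.End F V)),
      χ.coeff (i + 1) • w ^ (i + 1) := by
    choose! z hz hz' using hterm
    refine ⟨∑ i ∈ Finset.range (finrank F (Module.End F V)), z i,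
      J.sum_mem fun i hi => hz i hi, ?_⟩
    rw [map_sum]
    exact Finset.sum_congr rfl fun i hi => hz' i hi
  obtain ⟨z, hz, hz'⟩ := hsum
  refine ⟨z, hz, -χ.coeff 0, neg_ne_zero.2 (coeff_zero_ne hwu), ?_⟩
  rw [hz', neg_smul, eq_neg_iff_add_eq_zero]
  rw [pow_zero] at hch
  exact hch

end Pool.Agent.Lib.MP_c37a72_al.CO
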