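import Pool.Agent.Lib.MP_c37a72_al.CO.Spec

/-!
# MP_c37a72_al, block CO, module CHI: the commutant has a character
-/

set_option autoImplicit false

open scoped TensorProduct
open Coalgebra HopfAlgebra
open Pool.Agent.Lib.MP_c37a72_al.EG

namespace Pool.Agent.Lib.MP_c37a72_al.CO

universe u v w

namespace CHIM

section Defs

variable (k : Type u) (Z : Type v) {H Q : Type v} [Field k] [Ring H] [HopfAlgebra k H]
  [Field Z] [Algebra k Z] [DivisionRing Q] [Algebra k Q] [Algebra Z Q] [IsScalarTower k Z Q]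
  (ι : H →ₐ[k] Q)

/-- the elements of `Q ⊗ Q` which commute with `Rcom` -/
noncomputable def GG : Subalgebra k (Q ⊗[k] Q) :=
  Subalgebra.centralizer k (Rcom k Z ι : Set (Q ⊗[k] Q))

theorem mem_GG {w : Q ⊗[k] Q}
    (hw : w ∈ ({w : Q ⊗[k] Q | ∃ x ∈ Ol k Z ι, w = x ⊗ₜ[k] 1} ∪
      {w : Q ⊗[k] Q | ∃ y ∈ Or k Z ι, w = 1 ⊗ₜ[k] y} ∪ Set.range (dd k ι))) : w ∈ GG k Z ι := by
  rw [GG, Subalgebra.mem_centralizer_iff]
  intro r hr
  have := (Subalgebra.mem_centralizer_iff k).1 (show r ∈ Rcom k Z ι from hr) w hw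
  exact this.symm

variable {k Z ι}

theorem ol_mem {x : Q} (hx : x ∈ Ol k Z ι) : x ⊗ₜ[k] (1 : Q) ∈ GG k Z ι :=
  mem_GG k Z ι (Or.inl (Or.inl ⟨x, hx, rfl⟩))

theorem or_mem {x : Q} (hx : x ∈ EG.Or k Z ι) : (1 : Q) ⊗ₜ[k] x ∈ GG k Z ι :=
  mem_GG k Z ι (Or.inl (Or.inr ⟨x, hx, rfl⟩))

theorem dd_mem (h : H) : dd k ι h ∈ GG k Z ι :=
  mem_GG k Z ι (Or.inr ⟨h, rfl⟩)

variable {F : Type v} [Field F] [Algebra Z F] (τ : Q ⊗[k] Q →+* Module.End F (F ⊗[Z] Q))

/-- the `F`-span of `τ(GG)` -/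
noncomputable def SS : Submodule F (Module.End F (F ⊗[Z] Q)) :=
  Submodule.span F (τ '' (GG k Z ι : Set (Q ⊗[k] Q)))

theorem SS_mul {x y : Module.End F (F ⊗[Z] Q)} (hx : x ∈ SS (ι := ι) τ) (hy : y ∈ SS (ι := ι) τ) :
    x * y ∈ SS (ι := ι) τ := by
  have h1 := Submodule.mul_mem_mul hx hy
  rw [SS, Submodule.span_mul_span] at h1
  refine Submodule.span_mono ?_ h1
  rintro _ ⟨_, ⟨a, ha, rfl⟩, _, ⟨b, hb, rfl⟩, rfl⟩
  exact ⟨a * b, (GG k Z ι).mul_mem ha hb, map_mul _ _ _⟩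

variable {sQ : Q →ₗ[k] Q} {sZ : Z ≃ₐ[k] Z} (hs : IsSQ k Z ι sQ sZ)
  (hτ : ∀ (a b q : Q) (f : F), τ (a ⊗ₜ[k] b) (f ⊗ₜ[Z] q) = f ⊗ₜ[Z] (a * q * sQ b))

include hs in
theorem sQ_one : sQ 1 = 1 := by
  have := hs.zz 1
  rwa [map_one sZ, map_one (algebraMap Z Q)] at this

include hs hτ in
theorem tau_dd (h : H) : τ (dd k ι h) = (adlQ k Z ι h).baseChange F := by
  have key : ∀ w : H ⊗[k] H, τ (Algebra.TensorProduct.map ι ι w) =
      (lrm k Z (TensorProduct.map ι.toLinearMap (ι.toLinearMap ∘ₗ antipode k) w)).baseChange F := by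
    intro w
    induction w with
    | zero => simp
    | add a b ha hb => rw [map_add, map_add, ha, hb, map_add, map_add, LinearMap.baseChange_add]
    | tmul x y =>
      refine TensorProduct.AlgebraTensorModule.ext fun f q => ?_
      rw [Algebra.TensorProduct.map_tmul, hτ, hs.ext, TensorProduct.map_tmul,
        LinearMap.baseChange_tmul, lrm_tmul]
      rfl
  exact key _

include hs hτ in
theorem mulLeft_mem {u : F ⊗[Z] Q} (hu : u ∈ (Subalgebra.toSubmodule (Ol k Z ι)).baseChange F) :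
    LinearMap.mulLeft F u ∈ SS (ι := ι) τ := by
  obtain ⟨t, rfl⟩ := (show u ∈ LinearMap.range _ from hu)
  clear hu
  induction t with
  | zero =>
    have : LinearMap.mulLeft F (0 : F ⊗[Z] Q) = 0 := by ext x; simp
    rw [map_zero, this]
    exact zero_mem _
  | add a b ha hb =>
    have : ∀ x y : F ⊗[Z] Q, LinearMap.mulLeft F (x + y) =
      LinearMap.mulLeft F x + LinearMap.mulLeft F y := fun x y =>
        LinearMap.ext fun z => add_mul x y z
    rw [map_add, this]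
    exact add_mem ha hb
  | tmul f x =>
    have : LinearMap.mulLeft F (f ⊗ₜ[Z] (x : Q)) = f • τ ((x : Q) ⊗ₜ[k] (1 : Q)) := by
      refine TensorProduct.AlgebraTensorModule.ext fun g q => ?_
      rw [LinearMap.mulLeft_apply, Algebra.TensorProduct.tmul_mul_tmul, LinearMap.smul_apply, hτ,
        sQ_one hs, mul_one, TensorProduct.smul_tmul', smul_eq_mul]
    rw [LinearMap.baseChange_tmul]
    change LinearMap.mulLeft F (f ⊗ₜ[Z] (x : Q)) ∈ _
    rw [this]
    exact Submodule.smul_mem _ _ (Submodule.subset_span ⟨_, ol_mem x.2, rfl⟩)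

include hs hτ in
theorem mulRight_mem (hOr : ∀ q : Q, sQ q ∈ Ol k Z ι ↔ q ∈ EG.Or k Z ι) {u : F ⊗[Z] Q}
    (hu : u ∈ (Subalgebra.toSubmodule (Ol k Z ι)).baseChange F) :
    LinearMap.mulRight F u ∈ SS (ι := ι) τ := by
  obtain ⟨t, rfl⟩ := (show u ∈ LinearMap.range _ from hu)
  clear hu
  induction t with
  | zero =>
    have : LinearMap.mulRight F (0 : F ⊗[Z] Q) = 0 := by ext x; simp
    rw [map_zero, this]
    exact zero_mem _
  | add a b ha hb =>
    have : ∀ x y : F ⊗[Z] Q, LinearMap.mulRight F (x + y) =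
      LinearMap.mulRight F x + LinearMap.mulRight F y := fun x y =>
        LinearMap.ext fun z => mul_add z x y
    rw [map_add, this]
    exact add_mem ha hb
  | tmul f x =>
    obtain ⟨q, hq⟩ := hs.bij.2 (x : Q)
    have : LinearMap.mulRight F (f ⊗ₜ[Z] (x : Q)) = f • τ ((1 : Q) ⊗ₜ[k] q) := by
      refine TensorProduct.AlgebraTensorModule.ext fun g p => ?_
      rw [LinearMap.mulRight_apply, Algebra.TensorProduct.tmul_mul_tmul, LinearMap.smul_apply, hτ,
        hq, one_mul, TensorProduct.smul_tmul', smul_eq_mul, mul_comm]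
    rw [LinearMap.baseChange_tmul]
    change LinearMap.mulRight F (f ⊗ₜ[Z] (x : Q)) ∈ _
    rw [this]
    exact Submodule.smul_mem _ _ (Submodule.subset_span
      ⟨_, or_mem ((hOr q).1 (by rw [hq]; exact x.2)), rfl⟩)

section Rho

variable (ι) [Algebra k F] [IsScalarTower k Z F] (hADA : SpecADA.{u, v})

/-- the action of `H` on `F ⊗ Q` -/
noncomputable def rho :
    H →ₐ[k] Module.End F (F ⊗[Z] Q) :=
  AlgHom.ofLinearMap
    { toFun := fun h => (adlQ k Z ι h).baseChange F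
      map_add' := fun a b => by rw [map_add, LinearMap.baseChange_add]
      map_smul' := fun c h => by
        refine TensorProduct.AlgebraTensorModule.ext fun f q => ?_
        rw [LinearMap.baseChange_tmul, map_smul, RingHom.id_apply, LinearMap.smul_apply,
          LinearMap.smul_apply, LinearMap.baseChange_tmul, TensorProduct.smul_tmul',
          ← algebraMap_smul Z c (adlQ k Z ι h q), ← TensorProduct.smul_tmul,
          algebraMap_smul] }
    (by
      change (adlQ k Z ι 1).baseChange F = 1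
      rw [(hADA k H Z Q ι).1.1]
      exact LinearMap.baseChange_id)
    (fun a b => by
      change (adlQ k Z ι (a * b)).baseChange F =
        (adlQ k Z ι a).baseChange F * (adlQ k Z ι b).baseChange F
      rw [((hADA k H Z Q ι).2.1 a b).1]
      exact LinearMap.baseChange_mul _ _)

theorem rho_apply (h : H) (x : F ⊗[Z] Q) :
    rho ι hADA h x = (adlQ k Z ι h).baseChange F x := rfl

end Rho

/-- `z ⊗ z' ↦ z sZ(z')` -/
noncomputable def pi (sZ : Z ≃ₐ[k] Z) : Z ⊗[k] Z →ₐ[k] Z :=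
  Algebra.TensorProduct.lift (AlgHom.id k Z) sZ.toAlgHom (fun _ _ => Commute.all _ _)

theorem pi_tmul (z z' : Z) : pi sZ (z ⊗ₜ[k] z') = z * sZ z' := by
  simp [pi]

end Defs

end CHIM

open CHIM in
theorem specCHI (hCLO : SpecCLO.{v}) (hTAU : SpecTAU.{u, v}) (hNCG : SpecNCG.{u, v})
    (hRNO : SpecRNO.{u, v}) (hLFT : SpecLFT.{u, v}) (hIDE : SpecIDE.{v}) (hBAS : SpecBAS.{u, v})
    (hSEV : SpecSEV.{v}) (hADS : SpecADS.{u, v}) (hADA : SpecADA.{u, v}) (hOLF : SpecOLF.{u, v}) :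
    SpecCHI.{u, v} := by
  classical
  intro k H Z Q _ _ _ _ _ _ _ _ _ _ _ _ ι sQ sZ hQ hS hs
  have : Module.Finite Z Q := hQ.fin
  have : CharZero Z := charZero_of_injective_algebraMap (algebraMap k Z).injective
  have hnz : NoZeroDivisors (Z ⊗[k] Z) := noZeroDivisors_tensor k Z Z
  have hdom : IsDomain (Z ⊗[k] Z) := NoZeroDivisors.to_isDomain _
  have hpis : Function.Surjective (pi (k := k) sZ).toRingHom := fun z => ⟨z ⊗ₜ[k] 1, by
    change pi sZ (z ⊗ₜ[k] 1) = z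
    rw [pi_tmul, map_one, mul_one]⟩
  obtain ⟨Ω, F, _, _, _, _, κ, hΩ, hF, hDΩ, hκs, hκ⟩ :=
    hCLO (Z ⊗[k] Z) Z (pi (k := k) sZ).toRingHom hpis
  let _ : Algebra k F := ((algebraMap Z F).comp (algebraMap k Z)).toAlgebra
  have : IsScalarTower k Z F := IsScalarTower.of_algebraMap_eq fun _ => rfl
  obtain ⟨τ, hτ1, hτ2, hτ3⟩ := hTAU k H Z Q ι sQ sZ hQ hs F
  let ρ : H →ₐ[k] Module.End F (F ⊗[Z] Q) := rho ι hADA
  obtain ⟨n, f, h, hf1, hf2⟩ := hNCG k H F (F ⊗[Z] Q) ρ (hRNO k H hS)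
  have hLF : ∀ x : F ⊗[Z] Q, LFd k ρ x ↔ x ∈ (Subalgebra.toSubmodule (Ol k Z ι)).baseChange F :=
    fun x => hLFT k H Z Q ι hQ F x
  obtain ⟨-, -, hOinv, -⟩ := hOLF k H Z Q ι hQ
  obtain ⟨e, he, he0, hee, hec⟩ := hIDE Z F Q (Ol k Z ι) inferInstance hOinv
  obtain ⟨-, -, -, hOr, -, -⟩ := hADS k H Z Q ι sQ sZ hQ hS hs
  let h0 : Module.End F (F ⊗[Z] Q) := ∑ i, f i • ρ (h i)
  let b : Module.End F (F ⊗[Z] Q) := LinearMap.mulRight F e * (LinearMap.mulLeft F e * h0)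
  have hb : ∀ x, b x = e * h0 x * e := fun x => rfl
  have hh0 : ∀ x, h0 x = ∑ i, f i • ρ (h i) x := fun x => by
    simp only [h0, LinearMap.sum_apply, LinearMap.smul_apply]
  have hbx : ∀ x, ∃ c : F, b x = c • e := by
    intro x
    rw [hb]
    apply hec
    rw [← hLF, hh0]
    exact hf2 x
  obtain ⟨g, hg⟩ := LinearMap.exists_leftInverse_of_injective (LinearMap.toSpanSingleton F _ e)
    (LinearMap.ker_toSpanSingleton F he0)
  have hg1 : g e = 1 := by
    have := LinearMap.congr_fun hg 1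
    simpa using this
  let β : (F ⊗[Z] Q) →ₗ[F] F := g ∘ₗ b
  have hβ : ∀ x, b x = β x • e := by
    intro x
    obtain ⟨c, hc⟩ := hbx x
    change b x = g (b x) • e
    rw [hc, map_smul, hg1, smul_eq_mul, mul_one]
  have hbe : b e = e := by
    rw [hb, hh0, hf1 e ((hLF e).2 he), hee, hee]
  have hβe : β e = 1 := by
    change g (b e) = 1
    rw [hbe, hg1]
  have hbS : b ∈ SS (ι := ι) τ := by
    refine SS_mul τ (mulRight_mem τ hs hτ1 hOr he) (SS_mul τ (mulLeft_mem τ hs hτ1 he) ?_)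
    refine sum_mem fun i _ => Submodule.smul_mem _ _ (Submodule.subset_span ⟨dd k ι (h i),
      dd_mem _, ?_⟩)
    exact tau_dd τ hs hτ1 (h i)
  obtain ⟨nn, c, m, hcm⟩ := Submodule.mem_span_set'.1 hbS
  have hm : ∀ ν, ∃ a ∈ GG k Z ι, τ a = m ν := fun ν => (m ν).2
  choose a ha hτa using hm
  choose w hw using fun ν => hκs (c ν)
  obtain ⟨hB1, hB2, hB3, -⟩ := hBAS k Z Q _ (Module.finBasis Z Q)
  let alg : Algebra (Z ⊗[k] Z) (Q ⊗[k] Q) := (zz k Z Q).toRingHom.toAlgebra' hB3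
  have hsmul : ∀ (d : Z ⊗[k] Z) (y : Q ⊗[k] Q), d • y = zz k Z Q d * y := fun d y => rfl
  let s := Module.finBasis Z Q
  let u0 : Fin (Module.finrank Z Q) × Fin (Module.finrank Z Q) → Q ⊗[k] Q :=
    fun p => s p.1 ⊗ₜ[k] s p.2
  have hli : LinearIndependent (Z ⊗[k] Z) u0 := by
    rw [Fintype.linearIndependent_iff]
    intro r hr
    exact hB2 r hr
  have hsp : ⊤ ≤ Submodule.span (Z ⊗[k] Z) (Set.range u0) := by
    intro y _
    obtain ⟨r, rfl⟩ := hB1 y
    refine sum_mem fun p _ => ?_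
    exact Submodule.smul_mem _ (r p) (Submodule.subset_span ⟨p, rfl⟩)
  let u : Module.Basis (Fin (Module.finrank Z Q) × Fin (Module.finrank Z Q)) (Z ⊗[k] Z) (Q ⊗[k] Q) :=
    Module.Basis.mk hli hsp
  have hu : ∀ p, u p = s p.1 ⊗ₜ[k] s p.2 := fun p => Module.Basis.mk_apply hli hsp p
  have hτd : ∀ (d : Z ⊗[k] Z) (y : Q ⊗[k] Q),
      τ (d • y) = κ (algebraMap (Z ⊗[k] Z) ↥(integralClosure (Z ⊗[k] Z) Ω) d) • τ y := by
    intro d y
    rw [hκ, hsmul]
    induction d with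
    | zero => rw [map_zero, zero_mul, map_zero, map_zero, map_zero, zero_smul]
    | add p q hp hq => rw [map_add, add_mul, map_add, hp, hq, map_add, map_add, add_smul]
    | tmul z z' =>
      rw [hτ2]
      congr 2
  obtain ⟨χ0⟩ := hSEV (Z ⊗[k] Z) Ω F (Q ⊗[k] Q) (F ⊗[Z] Q) κ _ u τ hDΩ hτd
    (by
      have := hτ3 _ s
      simpa only [hu] using this) nn a w e β hβe (fun x => by
        rw [← hβ x, ← hcm]
        simp only [hw, hτa, LinearMap.sum_apply, LinearMap.smul_apply])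
  let algΩ : Algebra k Ω := ((algebraMap (Z ⊗[k] Z) Ω).comp (algebraMap k (Z ⊗[k] Z))).toAlgebra
  let i : Z ⊗[k] Z →ₐ[k] Ω := { algebraMap (Z ⊗[k] Z) Ω with commutes' := fun _ => rfl }
  have hmem : ∀ r ∈ Rcom k Z ι, r ∈ Subalgebra.centralizer (Z ⊗[k] Z) (Set.range a) := by
    intro r hr
    rw [Subalgebra.mem_centralizer_iff]
    rintro _ ⟨ν, rfl⟩
    exact ((Subalgebra.mem_centralizer_iff k).1 (ha ν) r hr).symm
  have hχz : ∀ (d : Z ⊗[k] Z) (hd : zz k Z Q d ∈ Subalgebra.centralizer (Z ⊗[k] Z) (Set.range a)),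
      χ0 ⟨zz k Z Q d, hd⟩ = i d := by
    intro d hd
    exact χ0.commutes d
  let χ : ↥(Rcom k Z ι) →ₐ[k] Ω :=
    { toFun := fun r => χ0 ⟨r, hmem r r.2⟩
      map_one' := χ0.map_one
      map_mul' := fun x y => χ0.map_mul ⟨x, hmem x x.2⟩ ⟨y, hmem y y.2⟩
      map_zero' := χ0.map_zero
      map_add' := fun x y => χ0.map_add ⟨x, hmem x x.2⟩ ⟨y, hmem y y.2⟩
      commutes' := fun c => by
        have h1 : algebraMap k (Q ⊗[k] Q) c = zz k Z Q (algebraMap k _ c) :=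
          ((zz k Z Q).commutes c).symm
        have h2 := hχz (algebraMap k _ c) (by
          rw [← h1]
          exact hmem _ (algebraMap_mem (Rcom k Z ι) c))
        rw [i.commutes] at h2
        rw [← h2]
        congr 1
        exact Subtype.ext h1 }
  exact ⟨Ω, inferInstance, algΩ, i, χ, hDΩ, fun r hr => hχz r _⟩

end Pool.Agent.Lib.MP_c37a72_al.CO
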