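import Pool.Agent.Lib.MP_c37a72_al.CO.Spec
import Pool.Agent.Lib.MP_c37a72_al.EG.ADA

/-!
# DES: Galois descent for `O'' ⊗ O'`
-/

set_option autoImplicit false

open scoped TensorProduct
open Coalgebra HopfAlgebra
open Pool.Agent.Lib.MP_c37a72_al.EG

namespace Pool.Agent.Lib.MP_c37a72_al.CO

universe u v w

namespace DESM

section

variable {k : Type u} (Z : Type v) {H Q : Type v} [Field k] [Ring H] [HopfAlgebra k H]
  [Field Z] [Algebra k Z] [DivisionRing Q] [Algebra k Q] [Algebra Z Q] [IsScalarTower k Z Q]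
  (ι : H →ₐ[k] Q)

/-- `h ↦ a ◁ h` -/
noncomputable def AR (a : Q) : H →ₗ[k] Q := ((adrQ k Z ι).flip a).restrictScalars k

/-- `h ↦ S(h) ▷ b` -/
noncomputable def AL (b : Q) : H →ₗ[k] Q :=
  ((adlQ k Z ι).flip b).restrictScalars k ∘ₗ antipode k

theorem AR_apply (a : Q) (h : H) : AR Z ι a h = adrQ k Z ι h a := rfl

theorem AL_apply (b : Q) (h : H) : AL Z ι b h = adlQ k Z ι (antipode k h) b := rfl

/-- `h ↦ S(h) b` -/
noncomputable def SM (b : Q) : H →ₗ[k] Q :=
  LinearMap.mulRight k b ∘ₗ ι.toLinearMap ∘ₗ antipode k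

theorem SM_apply (b : Q) (h : H) : SM ι b h = ι (antipode k h) * b := rfl

/-- `p ⊗ q ↦ (a ◁ q) ⊗ (S(p) ▷ b)` -/
noncomputable def F (a b : Q) : H ⊗[k] H →ₗ[k] Q ⊗[k] Q :=
  (TensorProduct.comm k Q Q).toLinearMap ∘ₗ TensorProduct.map (AL Z ι b) (AR Z ι a)

theorem F_tmul (a b : Q) (p q : H) : F Z ι a b (p ⊗ₜ[k] q) = AR Z ι a q ⊗ₜ[k] AL Z ι b p := by
  simp [F]

/-- `p ⊗ q ↦ (S(q) ▷ b) S(p)` -/
noncomputable def V (b : Q) : H ⊗[k] H →ₗ[k] Q :=
  LinearMap.mul' k Q ∘ₗ (TensorProduct.comm k Q Q).toLinearMap ∘ₗ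
    TensorProduct.map (ι.toLinearMap ∘ₗ antipode k) (AL Z ι b)

theorem V_tmul (b : Q) (p q : H) :
    V Z ι b (p ⊗ₜ[k] q) = AL Z ι b q * ι (antipode k p) := by
  simp [V]

/-- `p ⊗ q ↦ (a ◁ p) S(q)` -/
noncomputable def U (a : Q) : H ⊗[k] H →ₗ[k] Q :=
  LinearMap.mul' k Q ∘ₗ TensorProduct.map (AR Z ι a) (ι.toLinearMap ∘ₗ antipode k)

theorem U_tmul (a : Q) (p q : H) :
    U Z ι a (p ⊗ₜ[k] q) = AR Z ι a p * ι (antipode k q) := by
  simp [U]

/-- `p ⊗ q ↦ (a ◁ q) ⊗ S(p) b` -/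
noncomputable def G (a b : Q) : H ⊗[k] H →ₗ[k] Q ⊗[k] Q :=
  (TensorProduct.comm k Q Q).toLinearMap ∘ₗ TensorProduct.map (SM ι b) (AR Z ι a)

theorem G_tmul (a b : Q) (p q : H) : G Z ι a b (p ⊗ₜ[k] q) = AR Z ι a q ⊗ₜ[k] SM ι b p := by
  simp [G]

theorem han (hHAN : SpecHAN.{u, v}) (h : H) {n : ℕ} {x y : Fin n → H}
    (e : comul (R := k) h = ∑ i, x i ⊗ₜ[k] y i) :
    comul (R := k) (antipode k h) = ∑ i, antipode k (y i) ⊗ₜ[k] antipode k (x i) := by
  rw [hHAN k H h, e, map_sum, map_sum]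
  exact Finset.sum_congr rfl fun i _ => by simp

theorem V_comul (hADB : SpecADB.{u, v}) (hHAN : SpecHAN.{u, v}) (b : Q) :
    V Z ι b ∘ₗ comul (R := k) = SM ι b := by
  apply LinearMap.ext
  intro h
  obtain ⟨n, x, y, e⟩ := ADAM.exists_repr k h
  rw [LinearMap.comp_apply, e, map_sum, SM_apply,
    (hADB k H Z Q ι (antipode k h) n _ _ (han hHAN h e) b).1]
  exact Finset.sum_congr rfl fun i _ => by rw [V_tmul, AL_apply]

theorem U_comul (hADB : SpecADB.{u, v}) (a : Q) :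
    U Z ι a ∘ₗ comul (R := k) = SM ι a := by
  apply LinearMap.ext
  intro h
  obtain ⟨n, x, y, e⟩ := ADAM.exists_repr k h
  rw [LinearMap.comp_apply, e, map_sum, SM_apply, (hADB k H Z Q ι h n _ _ e a).2.2.2.1]
  exact Finset.sum_congr rfl fun i _ => by rw [U_tmul, AR_apply]

/-- `p ⊗ (q ⊗ r) ↦ (a ◁ r) ⊗ (S(q) ▷ b) S(p)` -/
noncomputable def GA (a b : Q) : H ⊗[k] (H ⊗[k] H) →ₗ[k] Q ⊗[k] Q :=
  (TensorProduct.comm k Q Q).toLinearMap ∘ₗ TensorProduct.map (V Z ι b) (AR Z ι a) ∘ₗ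
    (TensorProduct.assoc k H H H).symm.toLinearMap

theorem GA_tmul (a b : Q) (p : H) (u : H ⊗[k] H) :
    GA Z ι a b (p ⊗ₜ[k] u) = F Z ι a b u * ((1 : Q) ⊗ₜ[k] ι (antipode k p)) := by
  induction u with
  | zero => simp
  | tmul q r => simp [GA, F_tmul, V_tmul, Algebra.TensorProduct.tmul_mul_tmul]
  | add u v hu hv => rw [TensorProduct.tmul_add, map_add, map_add, add_mul, hu, hv]

theorem GA_lTensor (hADB : SpecADB.{u, v}) (hHAN : SpecHAN.{u, v}) (a b : Q) (g : H) :
    GA Z ι a b ((comul (R := k) (A := H)).lTensor H (comul (R := k) g)) =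
      G Z ι a b (comul (R := k) g) := by
  rw [← Coalgebra.coassoc_apply]
  unfold GA G
  simp only [LinearMap.comp_apply, LinearEquiv.coe_coe, LinearEquiv.symm_apply_apply]
  rw [← V_comul Z ι hADB hHAN b]
  congr 1
  rw [← LinearMap.comp_apply, LinearMap.rTensor, ← TensorProduct.map_comp, LinearMap.comp_id]

/-- step A -/
theorem stepA (hADB : SpecADB.{u, v}) (hHAN : SpecHAN.{u, v}) {J : Type} [Fintype J]
    (a b : J → Q) (hF : ∀ g : H, ∑ j, F Z ι (a j) (b j) (comul (R := k) g) =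
      counit (R := k) g • ∑ j, a j ⊗ₜ[k] b j) (g : H) :
    ∑ j, G Z ι (a j) (b j) (comul (R := k) g) =
      (∑ j, a j ⊗ₜ[k] b j) * ((1 : Q) ⊗ₜ[k] ι (antipode k g)) := by
  obtain ⟨n, x, y, e⟩ := ADAM.exists_repr k g
  have h1 : g = ∑ i, counit (R := k) (y i) • x i := by
    have h2 := Coalgebra.lTensor_counit_comul (R := k) g
    rw [e, map_sum] at h2
    simp only [LinearMap.lTensor_tmul] at h2
    have h3 := congrArg (TensorProduct.rid k H) h2
    rw [map_sum] at h3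
    simp only [TensorProduct.rid_tmul, one_smul] at h3
    exact h3.symm
  have h4 : ∑ j, G Z ι (a j) (b j) (comul (R := k) g) =
      ∑ i, (∑ j, F Z ι (a j) (b j) (comul (R := k) (y i))) *
        ((1 : Q) ⊗ₜ[k] ι (antipode k (x i))) := by
    simp only [Finset.sum_mul]
    rw [Finset.sum_comm]
    refine Finset.sum_congr rfl fun j _ => ?_
    rw [← GA_lTensor Z ι hADB hHAN, e, map_sum, map_sum]
    refine Finset.sum_congr rfl fun i _ => ?_
    rw [LinearMap.lTensor_tmul, GA_tmul]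
  rw [h4]
  simp only [hF]
  conv_rhs => rw [h1]
  rw [map_sum, map_sum, TensorProduct.tmul_sum, Finset.mul_sum]
  refine Finset.sum_congr rfl fun i _ => ?_
  rw [map_smul, map_smul, TensorProduct.tmul_smul, mul_smul_comm, smul_mul_assoc]

/-- `(p ⊗ q) ⊗ s ↦ (a ◁ q) S(s) ⊗ S(p) b` -/
noncomputable def GB (a b : Q) : (H ⊗[k] H) ⊗[k] H →ₗ[k] Q ⊗[k] Q :=
  (TensorProduct.comm k Q Q).toLinearMap ∘ₗ TensorProduct.map (SM ι b) (U Z ι a) ∘ₗ
    (TensorProduct.assoc k H H H).toLinearMap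

theorem GB_tmul (a b : Q) (s : H) (u : H ⊗[k] H) :
    GB Z ι a b (u ⊗ₜ[k] s) = G Z ι a b u * (ι (antipode k s) ⊗ₜ[k] (1 : Q)) := by
  induction u with
  | zero => simp
  | tmul q r => simp [GB, G_tmul, U_tmul, Algebra.TensorProduct.tmul_mul_tmul]
  | add u v hu hv => rw [TensorProduct.add_tmul, map_add, map_add, add_mul, hu, hv]

theorem dd_antipode (hHAN : SpecHAN.{u, v}) (g : H) {n : ℕ} {x y : Fin n → H}
    (e : comul (R := k) g = ∑ i, x i ⊗ₜ[k] y i) :
    dd k ι (antipode k g) = ∑ i, ι (antipode k (y i)) ⊗ₜ[k] ι (antipode k (x i)) := by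
  rw [show dd k ι (antipode k g) = TensorProduct.map ι.toLinearMap ι.toLinearMap
    (comul (R := k) (antipode k g)) from rfl, han hHAN g e, map_sum]
  exact Finset.sum_congr rfl fun i _ => by simp

theorem GB_rTensor (hADB : SpecADB.{u, v}) (hHAN : SpecHAN.{u, v}) (a b : Q) (g : H) :
    GB Z ι a b ((comul (R := k) (A := H)).rTensor H (comul (R := k) g)) =
      dd k ι (antipode k g) * (a ⊗ₜ[k] b) := by
  unfold GB
  simp only [LinearMap.comp_apply, LinearEquiv.coe_coe]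
  rw [Coalgebra.coassoc_apply]
  have h1 : TensorProduct.map (SM ι b) (U Z ι a)
      ((comul (R := k) (A := H)).lTensor H (comul (R := k) g)) =
      TensorProduct.map (SM ι b) (SM ι a) (comul (R := k) g) := by
    rw [← U_comul Z ι hADB a]
    rw [← LinearMap.comp_apply, LinearMap.lTensor, ← TensorProduct.map_comp, LinearMap.comp_id]
  rw [h1]
  obtain ⟨n, x, y, e⟩ := ADAM.exists_repr k g
  rw [dd_antipode ι hHAN g e, e, map_sum, map_sum, Finset.sum_mul]
  refine Finset.sum_congr rfl fun i _ => ?_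
  rw [TensorProduct.map_tmul, TensorProduct.comm_tmul, Algebra.TensorProduct.tmul_mul_tmul]
  rfl

/-- step B -/
theorem stepB (hADB : SpecADB.{u, v}) (hHAN : SpecHAN.{u, v}) {J : Type} [Fintype J]
    (a b : J → Q) (hF : ∀ g : H, ∑ j, F Z ι (a j) (b j) (comul (R := k) g) =
      counit (R := k) g • ∑ j, a j ⊗ₜ[k] b j) (g : H) :
    dd k ι (antipode k g) * (∑ j, a j ⊗ₜ[k] b j) =
      (∑ j, a j ⊗ₜ[k] b j) * dd k ι (antipode k g) := by
  obtain ⟨n, x, y, e⟩ := ADAM.exists_repr k g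
  rw [Finset.mul_sum]
  have h1 : ∑ j, dd k ι (antipode k g) * (a j ⊗ₜ[k] b j) =
      ∑ i, (∑ j, G Z ι (a j) (b j) (comul (R := k) (x i))) *
        (ι (antipode k (y i)) ⊗ₜ[k] (1 : Q)) := by
    simp only [Finset.sum_mul]
    rw [Finset.sum_comm]
    refine Finset.sum_congr rfl fun j _ => ?_
    rw [← GB_rTensor Z ι hADB hHAN, e, map_sum, map_sum]
    refine Finset.sum_congr rfl fun i _ => ?_
    rw [LinearMap.rTensor_tmul, GB_tmul]
  rw [h1, dd_antipode ι hHAN g e, Finset.mul_sum]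
  refine Finset.sum_congr rfl fun i _ => ?_
  rw [stepA Z ι hADB hHAN a b hF, mul_assoc, Algebra.TensorProduct.tmul_mul_tmul, one_mul, mul_one]

theorem xik (hXIK : SpecXIK.{u, v}) (hQ : IsCQ k H Z Q ι)
    (hS : Function.Bijective (antipode k (A := H))) {J : Type} [Fintype J] (h : J → H) (p : J → Q)
    (hp : ∀ j, p j ∈ Opp k Z ι)
    (hx : ∀ x ∈ Opp k Z ι, ∑ j, adrQ k Z ι (h j) x * p j = 0) (c : Q) (hc : c ∈ Opp k Z ι) :
    ∑ j, p j ⊗ₜ[k] adrQ k Z ι (h j) c = 0 := by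
  have h1 := hXIK k H Z Q ι hQ hS (Fintype.card J) (fun i => h ((Fintype.equivFin J).symm i))
    (fun i => p ((Fintype.equivFin J).symm i)) (fun i => hp _) (fun x hx' => by
      refine Eq.trans ?_ (hx x hx')
      exact Equiv.sum_comp (Fintype.equivFin J).symm fun j => adrQ k Z ι (h j) x * p j) c hc
  refine Eq.trans ?_ h1
  exact (Equiv.sum_comp (Fintype.equivFin J).symm fun j => p j ⊗ₜ[k] adrQ k Z ι (h j) c).symm

theorem opp_comm {x b : Q} (hx : x ∈ Ol k Z ι) (hb : b ∈ Opp k Z ι) : x * b = b * x :=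
  (Subalgebra.mem_centralizer_iff Z).1 hb x hx

theorem op_comm {x b : Q} (hx : x ∈ Or k Z ι) (hb : b ∈ Op k Z ι) : x * b = b * x :=
  (Subalgebra.mem_centralizer_iff Z).1 hb x hx

end

end DESM

/-- **DES**. -/
theorem specDES (hXIK : SpecXIK.{u, v}) (hDNS : SpecDNS.{u, v}) (hADA : SpecADA.{u, v})
    (hADB : SpecADB.{u, v}) (hADS : SpecADS.{u, v}) (hOPP : SpecOPP.{u, v})
    (hHAN : SpecHAN.{u, v}) : SpecDES.{u, v} := by
  classical
  intro k H Z Q _ _ _ _ _ _ _ _ _ ι sQ sZ hQ hS hsQ m o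
  obtain ⟨hst, -, -⟩ := hOPP k H Z Q ι hQ
  obtain ⟨hA1, hA2, hA3, hA4⟩ := hADA k H Z Q ι
  obtain ⟨hs1, -, -, -, -, hs6⟩ := hADS k H Z Q ι sQ sZ hQ hS hsQ
  have hs5 : ∀ q ∈ Opp k Z ι, sQ q ∈ Op k Z ι := fun q hq =>
    ((hADS k H Z Q ι sQ sZ hQ hS hsQ).2.2.2.2.1 q).2 hq
  have hdns := fun i => hDNS k H Z Q ι hQ ((o.coord i).smulRight (1 : ↥(Opp k Z ι)))
  choose n h b hb using hdns
  -- the coordinate formula
  have hco : ∀ (i : Fin m) (x : ↥(Opp k Z ι)),
      ∑ j, adrQ k Z ι (h i j) (x : Q) * (b i j : Q) = algebraMap Z Q (o.repr x i) := by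
    intro i x
    rw [← hb i x, LinearMap.smulRight_apply, Module.Basis.coord_apply, Algebra.algebraMap_eq_smul_one]
    rfl
  refine ⟨fun i c => ∑ j, (b i j : Q) ⊗ₜ[k] sQ (adrQ k Z ι (h i j) (c : Q)), ?_, ?_⟩
  · -- membership in the commutant
    intro i c
    have hFF : ∀ g : H, ∑ j, DESM.F Z ι (b i j : Q) (sQ (adrQ k Z ι (h i j) (c : Q)))
        (comul (R := k) g) = counit (R := k) g •
          ∑ j, (b i j : Q) ⊗ₜ[k] sQ (adrQ k Z ι (h i j) (c : Q)) := by
      intro g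
      obtain ⟨N, x, y, e⟩ := ADAM.exists_repr k g
      have h1 := DESM.xik Z ι hXIK hQ hS (J := (Fin (n i) × Fin N) ⊕ Fin (n i))
        (Sum.elim (fun t => h i t.1 * x t.2) (fun j => h i j))
        (Sum.elim (fun t => adrQ k Z ι (y t.2) (b i t.1 : Q))
          (fun j => (-(counit (R := k) g)) • (b i j : Q)))
        (by
          rintro (t | j)
          · exact hst _ _ (b i t.1).2
          · exact (Opp k Z ι).smul_mem (b i j).2 (algebraMap k Z (-(counit (R := k) g))) |> fun hh => by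
              rw [algebraMap_smul] at hh
              exact hh)
        (by
          intro q hq
          rw [Fintype.sum_sum_type, Fintype.sum_prod_type]
          simp only [Sum.elim_inl, Sum.elim_inr]
          have h2 : ∑ j, ∑ l, adrQ k Z ι (h i j * x l) q * adrQ k Z ι (y l) (b i j : Q) =
              adrQ k Z ι g (∑ j, adrQ k Z ι (h i j) q * (b i j : Q)) := by
            rw [map_sum]
            refine Finset.sum_congr rfl fun j _ => ?_
            rw [(hA3 g N x y e _ _).2]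
            refine Finset.sum_congr rfl fun l _ => ?_
            rw [(hA2 (h i j) (x l)).2]
            rfl
          rw [h2, hco i ⟨q, hq⟩, Algebra.algebraMap_eq_smul_one, map_smul, (hA4 g).2]
          have h3 : ∑ j, adrQ k Z ι (h i j) q * (-(counit (R := k) g)) • (b i j : Q) =
              -(counit (R := k) g • (∑ j, adrQ k Z ι (h i j) q * (b i j : Q))) := by
            rw [Finset.smul_sum, ← Finset.sum_neg_distrib]
            refine Finset.sum_congr rfl fun j _ => ?_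
            rw [neg_smul, mul_neg, mul_smul_comm]
          rw [h3, hco i ⟨q, hq⟩, Algebra.algebraMap_eq_smul_one, Algebra.algebraMap_eq_smul_one,
            smul_comm (counit (R := k) g), add_neg_cancel])
        (c : Q) c.2
      rw [Fintype.sum_sum_type, Fintype.sum_prod_type] at h1
      simp only [Sum.elim_inl, Sum.elim_inr] at h1
      have h4 := congrArg (sQ.lTensor Q) h1
      rw [map_zero, map_add, map_sum, map_sum] at h4
      simp only [map_sum, LinearMap.lTensor_tmul] at h4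
      have h5 : ∀ j, DESM.F Z ι (b i j : Q) (sQ (adrQ k Z ι (h i j) (c : Q))) (comul (R := k) g) =
          ∑ l, adrQ k Z ι (y l) (b i j : Q) ⊗ₜ[k] sQ (adrQ k Z ι (h i j * x l) (c : Q)) := by
        intro j
        rw [e, map_sum]
        refine Finset.sum_congr rfl fun l _ => ?_
        rw [DESM.F_tmul, DESM.AR_apply, DESM.AL_apply, ← hs1, (hA2 (h i j) (x l)).2]
        rfl
      simp only [h5]
      rw [eq_neg_of_add_eq_zero_left h4, Finset.smul_sum, ← Finset.sum_neg_distrib]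
      refine Finset.sum_congr rfl fun j _ => ?_
      rw [neg_smul, TensorProduct.neg_tmul, neg_neg, TensorProduct.smul_tmul']
    rw [Rcom, Subalgebra.mem_centralizer_iff]
    rintro w ((⟨x, hx, rfl⟩ | ⟨y, hy, rfl⟩) | ⟨t, rfl⟩)
    · rw [Finset.mul_sum, Finset.sum_mul]
      refine Finset.sum_congr rfl fun j _ => ?_
      rw [Algebra.TensorProduct.tmul_mul_tmul, Algebra.TensorProduct.tmul_mul_tmul, one_mul,
        mul_one, DESM.opp_comm Z ι hx (b i j).2]
    · rw [Finset.mul_sum, Finset.sum_mul]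
      refine Finset.sum_congr rfl fun j _ => ?_
      rw [Algebra.TensorProduct.tmul_mul_tmul, Algebra.TensorProduct.tmul_mul_tmul, one_mul,
        mul_one, DESM.op_comm Z ι hy (hs5 _ (hst _ _ c.2))]
    · obtain ⟨g, rfl⟩ := hS.2 t
      exact DESM.stepB Z ι hADB hHAN _ _ hFF g
  · -- the second claim
    intro g c
    have h1 := DESM.xik Z ι hXIK hQ hS (J := (Σ i : Fin m, Fin (n i)) ⊕ Unit)
      (Sum.elim (fun t => h t.1 t.2) (fun _ => g))
      (Sum.elim (fun t => (b t.1 t.2 : Q) * adrQ k Z ι g (o t.1 : Q)) (fun _ => -1))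
      (by
        rintro (t | j)
        · exact (Opp k Z ι).mul_mem (b t.1 t.2).2 (hst _ _ (o t.1).2)
        · exact (Opp k Z ι).neg_mem (Opp k Z ι).one_mem)
      (by
        intro q hq
        rw [Fintype.sum_sum_type, Fintype.sum_sigma]
        simp only [Sum.elim_inl, Sum.elim_inr, Finset.univ_unique, Finset.sum_singleton]
        have h2 : ∑ i, ∑ j, adrQ k Z ι (h i j) q * ((b i j : Q) * adrQ k Z ι g (o i : Q)) =
            adrQ k Z ι g q := by
          have h3 : ∀ i, ∑ j, adrQ k Z ι (h i j) q * ((b i j : Q) * adrQ k Z ι g (o i : Q)) =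
              o.repr ⟨q, hq⟩ i • adrQ k Z ι g (o i : Q) := by
            intro i
            simp only [← mul_assoc]
            rw [← Finset.sum_mul, hco i ⟨q, hq⟩, Algebra.smul_def]
          simp only [h3, ← map_smul]
          rw [← map_sum]
          congr 1
          have h4 := congrArg (Opp k Z ι).val (o.sum_repr ⟨q, hq⟩)
          rw [map_sum] at h4
          exact h4
        rw [h2, mul_neg, mul_one, add_neg_cancel]) (c : Q) c.2
    rw [Fintype.sum_sum_type, Fintype.sum_sigma] at h1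
    simp only [Sum.elim_inl, Sum.elim_inr, Finset.univ_unique, Finset.sum_singleton] at h1
    have h4 := congrArg (sQ.lTensor Q) h1
    rw [map_zero, map_add, map_sum, LinearMap.lTensor_tmul, TensorProduct.neg_tmul,
      ← sub_eq_add_neg, sub_eq_zero] at h4
    rw [← h4]
    refine Finset.sum_congr rfl fun i _ => ?_
    rw [map_sum, Finset.sum_mul]
    refine Finset.sum_congr rfl fun j _ => ?_
    rw [Algebra.TensorProduct.tmul_mul_tmul, mul_one, LinearMap.lTensor_tmul]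

end Pool.Agent.Lib.MP_c37a72_al.CO
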