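import Pool.Agent.Lib.MP_c37a72_al.CO.Spec
import Pool.Agent.Lib.MP_c37a72_al.EG.ADA

/-!
# DIM: the operators `x ↦ x ◁ h` on `O''` form a space of dimension at most `[O'' : Z]`
-/

set_option autoImplicit false

open scoped TensorProduct
open Coalgebra HopfAlgebra
open Pool.Agent.Lib.MP_c37a72_al.EG

namespace Pool.Agent.Lib.MP_c37a72_al.CO

universe u v w

namespace DIMM

section LA

/-- generators over a division subring -/
theorem gens {Z Q : Type v} [Field Z] [DivisionRing Q] [Algebra Z Q] [Module.Finite Z Q]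
    (K : Subalgebra Z Q) (hK : ∀ x ∈ K, x⁻¹ ∈ K) (N : ℕ)
    (hN : Module.finrank Z Q ≤ Module.finrank Z ↥K * N) (s : Set Q) :
    ∃ (n : ℕ) (g : Fin n → Q), n ≤ N ∧ (∀ i, g i ∈ s) ∧
      ∀ x ∈ s, ∃ c : Fin n → Q, (∀ i, c i ∈ K) ∧ x = ∑ i, c i * g i := by
  classical
  let _ : DivisionRing ↥K := DivisionRing.ofIsUnitOrEqZero (R := ↥K) (by
    intro a
    rcases eq_or_ne a 0 with h | h
    · exact Or.inr h
    · left
      have ha : (a : Q) ≠ 0 := fun e => h (Subtype.ext e)
      refine ⟨⟨a, ⟨(a : Q)⁻¹, hK _ a.2⟩, ?_, ?_⟩, rfl⟩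
      · exact Subtype.ext (mul_inv_cancel₀ ha)
      · exact Subtype.ext (inv_mul_cancel₀ ha))
  have hfQ : Module.Finite ↥K Q := Module.Finite.of_restrictScalars_finite Z ↥K Q
  have hfK : Module.Finite Z ↥K :=
    Module.Finite.of_injective K.val.toLinearMap Subtype.val_injective
  have hrk : Module.finrank ↥K Q ≤ N := by
    have h1 := Module.finrank_mul_finrank Z ↥K Q
    have h2 : 0 < Module.finrank Z ↥K := Module.finrank_pos
    exact Nat.le_of_mul_le_mul_left (h1.trans_le hN) h2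
  obtain ⟨b, hbs, hspan, hli⟩ := exists_linearIndependent ↥K s
  have hbf : b.Finite := hli.setFinite
  have : Fintype ↥b := hbf.fintype
  have hcard : Fintype.card ↥b ≤ N := (hli.fintype_card_le_finrank).trans hrk
  refine ⟨Fintype.card ↥b, fun i => ((Fintype.equivFin ↥b).symm i : Q), hcard,
    fun i => hbs ((Fintype.equivFin ↥b).symm i).2, ?_⟩
  intro x hx
  have hx1 : x ∈ Submodule.span ↥K (Set.range fun i => ((Fintype.equivFin ↥b).symm i : Q)) := by
    have h1 : Set.range (fun i => ((Fintype.equivFin ↥b).symm i : Q)) = b := by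
      ext y
      constructor
      · rintro ⟨i, rfl⟩
        exact ((Fintype.equivFin ↥b).symm i).2
      · intro hy
        exact ⟨Fintype.equivFin ↥b ⟨y, hy⟩, by simp⟩
    rw [h1, hspan]
    exact Submodule.subset_span hx
  obtain ⟨c, hc⟩ := (Submodule.mem_span_range_iff_exists_fun ↥K).1 hx1
  exact ⟨fun i => (c i : Q), fun i => (c i).2, hc.symm⟩

/-- dual functionals of an independent family -/
theorem dual {k : Type u} {V : Type v} [Field k] [AddCommGroup V] [Module k V] {N : ℕ}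
    (v : Fin N → V) (hv : LinearIndependent k v) :
    ∃ φ : Fin N → (V →ₗ[k] k), ∀ i j, φ i (v j) = if i = j then 1 else 0 := by
  classical
  have hv' : LinearMap.ker (Finsupp.linearCombination k v) = ⊥ :=
    LinearMap.ker_eq_bot.2 hv
  obtain ⟨g, hg⟩ := LinearMap.exists_leftInverse_of_injective (Finsupp.linearCombination k v) hv'
  refine ⟨fun i => Finsupp.lapply i ∘ₗ g, fun i j => ?_⟩
  have h1 : g (v j) = Finsupp.single j 1 := by
    have h2 := LinearMap.congr_fun hg (Finsupp.single j 1)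
    simpa using h2
  rw [LinearMap.comp_apply, h1, Finsupp.lapply_apply, Finsupp.single_apply]
  by_cases h : j = i
  · rw [if_pos h, if_pos h.symm]
  · rw [if_neg h, if_neg (Ne.symm h)]

/-- `n` vectors which span `Q^N` -/
theorem card_le {Q : Type v} [DivisionRing Q] {n N : ℕ} (w : Fin n → (Fin N → Q))
    (hw : ∀ l : Fin N, (fun i => if i = l then (1 : Q) else 0) ∈ Submodule.span Q (Set.range w)) :
    N ≤ n := by
  classical
  have htop : Submodule.span Q (Set.range w) = ⊤ := by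
    rw [eq_top_iff]
    intro x _
    have h1 : x = ∑ l, x l • (fun i => if i = l then (1 : Q) else 0) := by
      ext i
      rw [Finset.sum_apply, Finset.sum_eq_single i]
      · simp
      · intro j _ hj
        simp [Ne.symm hj]
      · intro h; exact absurd (Finset.mem_univ i) h
    rw [h1]
    exact Submodule.sum_mem _ fun l _ => Submodule.smul_mem _ _ (hw l)
  have h2 := finrank_range_le_card (R := Q) w
  rw [Set.finrank, htop, finrank_top, Module.finrank_fin_fun, Fintype.card_fin] at h2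
  exact h2

end LA

section Hopf

variable {k : Type u} {H : Type v} [Field k] [Ring H] [HopfAlgebra k H]

/-- `h ↦ h₁ φ(h₂)` -/
noncomputable def ft (φ : H →ₗ[k] k) : H →ₗ[k] H :=
  (TensorProduct.rid k H).toLinearMap ∘ₗ φ.lTensor H ∘ₗ comul

theorem ft_eq (φ : H →ₗ[k] k) {n : ℕ} {h : H} {x y : Fin n → H}
    (e : comul (R := k) h = ∑ i, x i ⊗ₜ[k] y i) : ft φ h = ∑ i, φ (y i) • x i := by
  simp [ft, e]

/-- `ft φ (b h) = b ft φ h` -/
theorem ft_mul (φ : H →ₗ[k] k) (b h : H) {n : ℕ} {x y : Fin n → H}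
    (e : comul (R := k) b = ∑ i, x i ⊗ₜ[k] y i)
    (hφ : ∀ i g, φ (y i * g) = counit (R := k) (y i) * φ g) : ft φ (b * h) = b * ft φ h := by
  obtain ⟨m, p, q, e'⟩ := ADAM.exists_repr k h
  have h1 : b = ∑ i, counit (R := k) (y i) • x i := by
    have h2 := Coalgebra.lTensor_counit_comul (R := k) b
    rw [e, map_sum] at h2
    simp only [LinearMap.lTensor_tmul] at h2
    have h3 := congrArg (TensorProduct.rid k H) h2
    rw [map_sum] at h3
    simp only [TensorProduct.rid_tmul, one_smul] at h3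
    exact h3.symm
  have h4 : comul (R := k) (b * h) = ∑ i, ∑ j, (x i * p j) ⊗ₜ[k] (y i * q j) := by
    rw [Bialgebra.comul_mul, e, e', Finset.sum_mul_sum]
    refine Finset.sum_congr rfl fun i _ => Finset.sum_congr rfl fun j _ => ?_
    rw [Algebra.TensorProduct.tmul_mul_tmul]
  have h5 : ft φ (b * h) = ∑ i, ∑ j, φ (y i * q j) • (x i * p j) := by
    simp [ft, h4]
  rw [h5, ft_eq φ e', Finset.mul_sum]
  conv_rhs => rw [h1]
  simp only [Finset.sum_mul]
  rw [Finset.sum_comm]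
  refine Finset.sum_congr rfl fun j _ => Finset.sum_congr rfl fun i _ => ?_
  rw [hφ, mul_smul_comm, smul_mul_assoc, smul_smul, mul_comm]

/-- `∑ S(h₁) ft φ h₂ = φ(h)` -/
theorem ft_antipode (φ : H →ₗ[k] k) {n : ℕ} {h : H} {x y : Fin n → H}
    (e : comul (R := k) h = ∑ i, x i ⊗ₜ[k] y i) :
    ∑ i, antipode k (x i) * ft φ (y i) = φ h • (1 : H) := by
  -- the map `p ⊗ (q ⊗ r) ↦ S(p) q φ(r)`
  let L : H ⊗[k] (H ⊗[k] H) →ₗ[k] H :=
    (TensorProduct.rid k H).toLinearMap ∘ₗ
      TensorProduct.map (LinearMap.mul' k H ∘ₗ (antipode k).rTensor H) φ ∘ₗ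
        (TensorProduct.assoc k H H H).symm.toLinearMap
  have h1 : ∀ (p : H) (u : H ⊗[k] H), L (p ⊗ₜ[k] u) =
      antipode k p * (TensorProduct.rid k H (φ.lTensor H u)) := by
    intro p u
    induction u with
    | zero => simp
    | tmul q r => simp [L]
    | add u v hu hv =>
      rw [TensorProduct.tmul_add, map_add, hu, hv, map_add, map_add, mul_add]
  have h2 : L ((comul (R := k) (A := H)).lTensor H (comul (R := k) h)) =
      ∑ i, antipode k (x i) * ft φ (y i) := by
    rw [e, map_sum, map_sum]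
    refine Finset.sum_congr rfl fun i _ => ?_
    rw [LinearMap.lTensor_tmul, h1]
    rfl
  rw [← h2, ← Coalgebra.coassoc_apply]
  have h3 : ∀ u : H ⊗[k] H, L (TensorProduct.assoc k H H H
      ((comul (R := k) (A := H)).rTensor H u)) =
      φ (TensorProduct.lid k H ((counit (R := k) (A := H)).rTensor H u)) • (1 : H) := by
    intro u
    induction u with
    | zero => simp
    | tmul p q =>
      simp only [L, LinearMap.comp_apply, LinearEquiv.coe_coe, LinearMap.rTensor_tmul,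
        LinearEquiv.symm_apply_apply, TensorProduct.map_tmul]
      rw [mul_antipode_rTensor_comul_apply, TensorProduct.rid_tmul, TensorProduct.lid_tmul,
        map_smul, Algebra.algebraMap_eq_smul_one, smul_smul, smul_eq_mul, mul_comm]
    | add u v hu hv => simp only [map_add, hu, hv, add_smul]
  rw [h3, Coalgebra.rTensor_counit_comul, TensorProduct.lid_tmul, one_smul]

end Hopf

section Main

variable {k : Type u} {Z : Type v} {H Q : Type v} [Field k] [Ring H] [HopfAlgebra k H]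
  [Field Z] [Algebra k Z] [DivisionRing Q] [Algebra k Q] [Algebra Z Q] [IsScalarTower k Z Q]
  {ι : H →ₐ[k] Q}

theorem cent_im (hQ : IsCQ k H Z Q ι) {z : H} (hz : Cent z) (q : Q) : q * ι z = ι z * q := by
  obtain ⟨c, h, hc0, hc, hch⟩ := hQ.frac q
  have hιc : ι c ≠ 0 := fun e => hc0 (hQ.inj (by rw [e, map_zero]))
  apply mul_left_cancel₀ hιc
  rw [← mul_assoc, hch, ← map_mul, hz h, map_mul, ← hch, ← mul_assoc, ← mul_assoc, ← map_mul,
    ← map_mul, hz c]

theorem cent_mem (hQ : IsCQ k H Z Q ι) {z : H} (hz : Cent z) : ι z ∈ Ol k Z ι := by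
  obtain ⟨t, ht⟩ := hQ.cent (ι z) (cent_im hQ hz)
  rw [← ht]
  exact (Ol k Z ι).algebraMap_mem t

/-- common central denominators -/
theorem comm_den (hQ : IsCQ k H Z Q ι) {n : ℕ} (q : Fin n → Q) :
    ∃ d : H, d ≠ 0 ∧ Cent d ∧ ∀ j, ∃ v : H, ι d * q j = ι v := by
  classical
  have hne : ∀ x : H, x ≠ 0 → ι x ≠ 0 := fun x hx e => hx (hQ.inj (by rw [e, map_zero]))
  suffices h : ∀ s : Finset (Fin n), ∃ d : H, d ≠ 0 ∧ Cent d ∧ ∀ j ∈ s, ∃ v : H, ι d * q j = ι v by
    obtain ⟨d, hd, hdc, h'⟩ := h Finset.univ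
    exact ⟨d, hd, hdc, fun j => h' j (Finset.mem_univ j)⟩
  intro s
  induction s using Finset.induction_on with
  | empty =>
    refine ⟨1, ?_, fun x => by rw [mul_one, one_mul], by simp⟩
    intro e
    have h1 : ι 1 = 0 := by rw [e, map_zero]
    rw [map_one] at h1
    exact one_ne_zero h1
  | insert a s _ ih =>
    obtain ⟨d, hd, hdc, h⟩ := ih
    obtain ⟨c, x, hc, hcc, hx⟩ := hQ.frac (q a)
    refine ⟨d * c, ?_, ?_, ?_⟩
    · intro e
      have h1 : ι d * ι c = 0 := by rw [← map_mul, e, map_zero]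
      rcases mul_eq_zero.1 h1 with h2 | h2
      · exact hne d hd h2
      · exact hne c hc h2
    · intro y
      rw [← mul_assoc, hdc y, mul_assoc, hcc y, ← mul_assoc]
    · intro j hj
      rw [Finset.mem_insert] at hj
      rcases hj with rfl | hj
      · exact ⟨d * x, by rw [map_mul, map_mul, mul_assoc, hx]⟩
      · obtain ⟨v, hv⟩ := h j hj
        refine ⟨c * v, ?_⟩
        rw [hcc d, map_mul, map_mul, mul_assoc, hv]

/-- `p ⊗ q ↦ ι(q) y ι(S⁻¹ p)` -/
noncomputable def LL (ι : H →ₐ[k] Q) (T : H →ₗ[k] H) (y : Q) : H ⊗[k] H →ₗ[k] Q :=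
  LinearMap.mul' k Q ∘ₗ (TensorProduct.comm k Q Q).toLinearMap ∘ₗ
    TensorProduct.map (ι.toLinearMap ∘ₗ T) (LinearMap.mulRight k y ∘ₗ ι.toLinearMap)

theorem LL_tmul (T : H →ₗ[k] H) (y : Q) (p q : H) :
    LL ι T y (p ⊗ₜ[k] q) = ι q * y * ι (T p) := by
  simp [LL]

theorem LL_comul (hHAN : SpecHAN.{u, v}) (T : H →ₗ[k] H) (hT : ∀ x, T (antipode k x) = x)
    (y : Q) (b : H) :
    LL ι T y (comul (R := k) (antipode k b)) = adrQ k Z ι b y := by
  obtain ⟨n, x, z, e⟩ := ADAM.exists_repr k b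
  rw [hHAN k H b, e, adrQ_eq k Z ι e, map_sum, map_sum, map_sum]
  refine Finset.sum_congr rfl fun i _ => ?_
  rw [TensorProduct.map_tmul, TensorProduct.comm_tmul, LL_tmul, hT]

/-- `J = B⁺ H` -/
def JJ (k : Type u) (Z : Type v) {H Q : Type v} [Field k] [Ring H] [HopfAlgebra k H]
    [Field Z] [Algebra k Z] [DivisionRing Q] [Algebra k Q] [Algebra Z Q] [IsScalarTower k Z Q]
    (ι : H →ₐ[k] Q) : Submodule k H :=
  Submodule.span k {t | ∃ b g : H, ι b ∈ Ol k Z ι ∧ counit (R := k) b = 0 ∧ t = b * g}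

theorem kill (hADA : SpecADA.{u, v}) (hLCO : SpecLCO.{u, v}) (hHAN : SpecHAN.{u, v})
    (hOPP : SpecOPP.{u, v}) (hQ : IsCQ k H Z Q ι) (hS : Function.Bijective (antipode k (A := H)))
    (h : H) (hh : antipode k h ∈ JJ k Z ι) (x : Q) (hx : x ∈ Opp k Z ι) :
    adrQ k Z ι h x = 0 := by
  let S' := LinearEquiv.ofBijective (antipode k (A := H)) hS
  have hS1 : ∀ t, antipode k (S'.symm t) = t := fun t => S'.apply_symm_apply t
  have hS2 : ∀ t, S'.symm (antipode k t) = t := fun t => S'.symm_apply_apply t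
  obtain ⟨-, hmul, -, hone⟩ := hADA k H Z Q ι
  have hst := (hOPP k H Z Q ι hQ).1
  -- trivial action of `B⁺`
  have hb : ∀ b : H, ι b ∈ Ol k Z ι → counit (R := k) b = 0 → ∀ y ∈ Opp k Z ι,
      adrQ k Z ι (S'.symm b) y = 0 := by
    intro b hb0 hb1 y hy
    obtain ⟨n, X, Y, e, hY⟩ := hLCO k H Z Q ι hQ b hb0
    have h1 : ∀ y : Q, adrQ k Z ι (S'.symm b) y = ∑ i, ι (Y i) * y * ι (S'.symm (X i)) := by
      intro y
      rw [← LL_comul hHAN S'.symm.toLinearMap hS2 y (S'.symm b), hS1, e, map_sum]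
      exact Finset.sum_congr rfl fun i _ => LL_tmul _ _ _ _
    have h2 := h1 1
    rw [(hone _).2, ← counit_antipode, hS1, hb1, map_zero] at h2
    rw [h1 y]
    have h3 : ∑ i, ι (Y i) * y * ι (S'.symm (X i)) = y * ∑ i, ι (Y i) * 1 * ι (S'.symm (X i)) := by
      rw [Finset.mul_sum]
      refine Finset.sum_congr rfl fun i _ => ?_
      have h4 : ι (Y i) * y = y * ι (Y i) := (Subalgebra.mem_centralizer_iff Z).1 hy _ (hY i)
      rw [h4, mul_one, mul_assoc]
    rw [h3, ← h2, mul_zero]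
  have hJ : ∀ t ∈ JJ k Z ι, adrQ k Z ι (S'.symm t) x = 0 := by
    intro t ht
    refine Submodule.span_induction ?_ ?_ ?_ ?_ ht
    · rintro _ ⟨b, g, hb0, hb1, rfl⟩
      have h1 : S'.symm (b * g) = S'.symm g * S'.symm b := by
        apply hS.1
        rw [hS1, antipode_mul_antidistrib, hS1, hS1]
      rw [h1, (hmul _ _).2, Module.End.mul_apply]
      exact hb b hb0 hb1 _ (hst _ _ hx)
    · rw [map_zero, map_zero]; rfl
    · intro a b _ _ ha hb'
      rw [map_add, map_add, LinearMap.add_apply, ha, hb', add_zero]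
    · intro c a _ ha
      rw [map_smul, map_smul, LinearMap.smul_apply, ha, smul_zero]
  have := hJ _ hh
  rwa [hS2] at this

/-- a functional which kills `J` -/
theorem phi_mul (hLCO : SpecLCO.{u, v}) (hQ : IsCQ k H Z Q ι)
    (φ : H →ₗ[k] k) (hφ : ∀ t ∈ JJ k Z ι, φ t = 0) (b h : H) (hb : ι b ∈ Ol k Z ι) :
    ft φ (b * h) = b * ft φ h := by
  obtain ⟨n, X, Y, e, hY⟩ := hLCO k H Z Q ι hQ b hb
  refine ft_mul φ b h e fun i g => ?_
  have h1 : φ ((Y i - algebraMap k H (counit (R := k) (Y i))) * g) = 0 := by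
    refine hφ _ (Submodule.subset_span ⟨_, g, ?_, ?_, rfl⟩)
    · rw [map_sub, AlgHom.commutes]
      refine (Ol k Z ι).sub_mem (hY i) ?_
      rw [IsScalarTower.algebraMap_apply k Z Q]
      exact (Ol k Z ι).algebraMap_mem _
    · rw [map_sub, Bialgebra.counit_algebraMap, sub_self]
  rw [sub_mul, map_sub, sub_eq_zero] at h1
  rw [h1, ← Algebra.smul_def, map_smul, smul_eq_mul]

end Main

end DIMM

/-- **DIM**. -/
theorem specDIM (hLCO : SpecLCO.{u, v}) (hDCT : SpecDCT.{v}) (hHAN : SpecHAN.{u, v})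
    (hADA : SpecADA.{u, v}) (hOPP : SpecOPP.{u, v}) (hOLF : SpecOLF.{u, v}) :
    SpecDIM.{u, v} := by
  classical
  intro k H Z Q _ _ _ _ _ _ _ _ _ ι hQ hS h
  have hfQ : Module.Finite Z Q := hQ.fin
  obtain ⟨-, -, hinv, -⟩ := hOLF k H Z Q ι hQ
  -- reduce to a dependence modulo `J`
  by_cases hdep : LinearIndependent k
      (fun i => (DIMM.JJ k Z ι).mkQ (antipode k (h i)))
  swap
  · rw [Fintype.not_linearIndependent_iff] at hdep
    obtain ⟨c, hc, hc0⟩ := hdep
    refine ⟨c, hc0, fun x hx => ?_⟩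
    have h1 : antipode k (∑ i, c i • h i) ∈ DIMM.JJ k Z ι := by
      rw [← Submodule.Quotient.mk_eq_zero, ← hc, map_sum]
      rw [← Submodule.mkQ_apply, map_sum]
      exact Finset.sum_congr rfl fun i _ => by rw [map_smul, map_smul]
    have h2 := DIMM.kill hADA hLCO hHAN hOPP hQ hS _ h1 x hx
    rw [map_sum, LinearMap.sum_apply] at h2
    refine Eq.trans ?_ h2
    exact Finset.sum_congr rfl fun i _ => by rw [map_smul, LinearMap.smul_apply]
  exfalso
  obtain ⟨φ', hφ'⟩ := DIMM.dual _ hdep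
  let φ := fun i => φ' i ∘ₗ (DIMM.JJ k Z ι).mkQ
  have hφ0 : ∀ i, ∀ t ∈ DIMM.JJ k Z ι, φ i t = 0 := by
    intro i t ht
    change φ' i ((DIMM.JJ k Z ι).mkQ t) = 0
    rw [Submodule.mkQ_apply, (Submodule.Quotient.mk_eq_zero _).2 ht, map_zero]
  have hφ1 : ∀ i j, φ i (antipode k (h j)) = if i = j then 1 else 0 := hφ'
  have hN := hDCT Z Q (Ol k Z ι) hfQ hinv
  obtain ⟨n, g, hn, hg, hexp⟩ := DIMM.gens (Ol k Z ι) hinv _ hN (Set.range ι)
  choose g' hg' using hg
  let w : H → (Fin (Module.finrank Z ↥(Opp k Z ι) + 1) → Q) := fun t i => ι (DIMM.ft (φ i) t)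
  have hspan : ∀ t : H, w t ∈ Submodule.span Q (Set.range fun a => w (g' a)) := by
    intro t
    obtain ⟨c, hc, hct⟩ := hexp (ι t) ⟨t, rfl⟩
    obtain ⟨d, hd0, hdc, hd⟩ := DIMM.comm_den hQ c
    choose v hv using hd
    have hdm := DIMM.cent_mem (Z := Z) hQ hdc
    have hιd : ι d ≠ 0 := fun e => hd0 (hQ.inj (by rw [e, map_zero]))
    have h1 : d * t = ∑ a, v a * g' a := by
      apply hQ.inj
      rw [map_mul, hct, Finset.mul_sum, map_sum]
      refine Finset.sum_congr rfl fun a _ => ?_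
      rw [map_mul, ← hv, hg', mul_assoc]
    have h2 : ι d • w t = ∑ a, ι (v a) • w (g' a) := by
      ext i
      rw [Pi.smul_apply, Finset.sum_apply, smul_eq_mul]
      change ι d * ι (DIMM.ft (φ i) t) = _
      rw [← map_mul, ← DIMM.phi_mul hLCO hQ (φ i) (hφ0 i) d t hdm, h1, map_sum, map_sum]
      refine Finset.sum_congr rfl fun a _ => ?_
      rw [Pi.smul_apply, smul_eq_mul]
      change _ = ι (v a) * ι (DIMM.ft (φ i) (g' a))
      rw [← map_mul, DIMM.phi_mul hLCO hQ (φ i) (hφ0 i) (v a) (g' a)]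
      rw [← hv]
      exact (Ol k Z ι).mul_mem hdm (hc a)
    have h3 : w t = (ι d)⁻¹ • ∑ a, ι (v a) • w (g' a) := by
      rw [← h2, smul_smul, inv_mul_cancel₀ hιd, one_smul]
    rw [h3]
    exact Submodule.smul_mem _ _ (Submodule.sum_mem _ fun a _ =>
      Submodule.smul_mem _ _ (Submodule.subset_span ⟨a, rfl⟩))
  have hle := DIMM.card_le (fun a => w (g' a)) (fun l => by
    obtain ⟨N, x, y, e⟩ := ADAM.exists_repr k (antipode k (h l))
    have h1 : (fun i => if i = l then (1 : Q) else 0) = ∑ j, ι (antipode k (x j)) • w (y j) := by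
      ext i
      rw [Finset.sum_apply]
      have h2 := congrArg ι (DIMM.ft_antipode (φ i) e)
      rw [map_sum, hφ1, map_smul, map_one] at h2
      have h3 : (if i = l then (1 : Q) else 0) = (if i = l then (1 : k) else 0) • (1 : Q) := by
        split_ifs <;> simp
      rw [h3, ← h2]
      refine Finset.sum_congr rfl fun j _ => ?_
      rw [map_mul]
      rfl
    rw [h1]
    exact Submodule.sum_mem _ fun j _ => Submodule.smul_mem _ _ (hspan (y j)))
  have hn' : n ≤ Module.finrank Z ↥(Opp k Z ι) := hn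
  omega

end Pool.Agent.Lib.MP_c37a72_al.CO
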