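import Pool.Agent.Lib.MP_c37a72_al.CO.Spec

/-!
# MP_c37a72_al, block CO: module GCL
-/

set_option autoImplicit false

open scoped TensorProduct
open Coalgebra HopfAlgebra
open Pool.Agent.Lib.MP_c37a72_al.EG

namespace Pool.Agent.Lib.MP_c37a72_al.CO

universe u v w

namespace GCLM

/-- a Galois extension which contains `P0` -/
theorem exists_gal (Z P0 : Type v) [Field Z] [Field P0] [Algebra Z P0] [Module.Finite Z P0]
    [CharZero Z] : ∃ (P : Type v) (_ : Field P) (_ : Algebra Z P) (_ : P0 →ₐ[Z] P),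
      IsGalois Z P ∧ Module.Finite Z P := by
  let P := ↥(IntermediateField.normalClosure Z P0 (AlgebraicClosure P0))
  have h1 : Algebra.IsAlgebraic Z (AlgebraicClosure P0) := Algebra.IsAlgebraic.trans Z P0 _
  have hnorm : Normal Z P := inferInstance
  have hfin : Module.Finite Z P := inferInstance
  have hg : IsGalois Z P := { }
  exact ⟨P, inferInstance, inferInstance, IsScalarTower.toAlgHom Z P0 P, hg, hfin⟩

end GCLM

open GCLM in
theorem specGCL : SpecGCL.{u, v, w} := by
  intro k H Z Q _ _ _ _ _ _ _ _ _ _ ι AA P0 _ _ _ _ _ _ ρ ψ hc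
  have := hc.finP
  have : CharZero Z := charZero_of_injective_algebraMap (algebraMap k Z).injective
  obtain ⟨P, _, _, j0, hgal, hfin⟩ := exists_gal Z P0
  let algk : Algebra k P := ((algebraMap Z P).comp (algebraMap k Z)).toAlgebra
  have tow : IsScalarTower k Z P := IsScalarTower.of_algebraMap_eq (fun _ => rfl)
  let j : P0 →ₐ[k] P := j0.restrictScalars k
  let ψ' : ↥(Opp k Z ι) →ₐ[k] AA ⊗[k] P :=
    (Algebra.TensorProduct.map (AlgHom.id k AA) j).comp ψ
  refine ⟨P, inferInstance, algk, inferInstance, tow, ψ', hgal, ?_⟩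
  refine ⟨hc.finA, hfin, hc.rone, hc.rmul, hc.ralg, ?_, ?_, hc.dim⟩
  · intro z
    change Algebra.TensorProduct.map (AlgHom.id k AA) j (ψ _) = _
    rw [hc.psiZ z, Algebra.TensorProduct.map_tmul]
    change (1 : AA) ⊗ₜ[k] j0 (algebraMap Z P0 z) = _
    rw [AlgHom.commutes]
  · intro h x y hxy
    change Algebra.TensorProduct.map (AlgHom.id k AA) j (ψ y) =
      TensorProduct.map (ρ h) LinearMap.id (Algebra.TensorProduct.map (AlgHom.id k AA) j (ψ x))
    rw [hc.psiH h x y hxy]
    induction ψ x using TensorProduct.induction_on with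
    | zero => simp
    | tmul a p => simp
    | add a b ha hb => simp only [map_add, ha, hb]

end Pool.Agent.Lib.MP_c37a72_al.CO
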