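import Pool.Agent.Lib.MP_c37a72_al.CO.Spec

/-!
# MP_c37a72_al, block CO: module IDE
-/

set_option autoImplicit false
set_option linter.unusedSectionVars false

open scoped TensorProduct
open Polynomial

namespace Pool.Agent.Lib.MP_c37a72_al.CO

universe u v w

namespace IDEM

/-! ### primitive elements -/

theorem prim (Z L : Type v) [Field Z] [CharZero Z] [CommRing L] [IsDomain L] [Algebra Z L]
    [Module.Finite Z L] : ∃ α : L, Algebra.adjoin Z {α} = ⊤ := by
  let _ : Field L := fieldOfFiniteDimensional Z L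
  obtain ⟨α, hα⟩ := Field.exists_primitive_element Z L
  refine ⟨α, ?_⟩
  have h := IntermediateField.adjoin_simple_toSubalgebra_of_isAlgebraic
    (Algebra.IsAlgebraic.isAlgebraic (R := Z) α)
  rw [← h, hα]
  rfl

theorem prim' (Z L : Type v) [Field Z] [CharZero Z] [Ring L] [IsDomain L] [Algebra Z L]
    [Module.Finite Z L] (hc : ∀ a b : L, a * b = b * a) : ∃ α : L, Algebra.adjoin Z {α} = ⊤ := by
  let _ : CommRing L := { ‹Ring L› with mul_comm := hc }
  exact prim Z L

section S1

variable {Z Q : Type v} [Field Z] [CharZero Z] [DivisionRing Q] [Algebra Z Q] [Module.Finite Z Q]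

theorem primQ (K : Subalgebra Z Q) {t u : Q} (ht : t ∈ K) (hu : u ∈ K) (h : u * t = t * u) :
    ∃ α ∈ K, t ∈ Algebra.adjoin Z {α} ∧ u ∈ Algebra.adjoin Z {α} := by
  have hcomm : ∀ a ∈ ({t, u} : Set Q), ∀ b ∈ ({t, u} : Set Q), a * b = b * a := by
    intro a ha b hb
    rcases ha with rfl | ha <;> rcases hb with rfl | hb
    · rfl
    · rw [Set.mem_singleton_iff] at hb; subst hb; exact h.symm
    · rw [Set.mem_singleton_iff] at ha; subst ha; exact h
    · rw [Set.mem_singleton_iff] at ha hb; subst ha hb; rfl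
  obtain ⟨α, hα⟩ := prim' Z ↥(Algebra.adjoin Z ({t, u} : Set Q))
    (Algebra.isMulCommutative_adjoin Z hcomm).is_comm.comm
  have hL : Algebra.adjoin Z {(α : Q)} = Algebra.adjoin Z ({t, u} : Set Q) := by
    have h1 := congrArg (Subalgebra.map (Algebra.adjoin Z ({t, u} : Set Q)).val) hα
    rw [AlgHom.map_adjoin, Set.image_singleton, Algebra.map_top, Subalgebra.range_val] at h1
    exact h1
  refine ⟨(α : Q), ?_, ?_, ?_⟩
  · have : Algebra.adjoin Z ({t, u} : Set Q) ≤ K := by
      rw [Algebra.adjoin_le_iff]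
      rintro x (rfl | hx)
      · exact ht
      · rw [Set.mem_singleton_iff] at hx; subst hx; exact hu
    exact this α.2
  · rw [hL]; exact Algebra.subset_adjoin (Set.mem_insert _ _)
  · rw [hL]; exact Algebra.subset_adjoin (Set.mem_insert_of_mem _ rfl)

theorem exists_t (K : Subalgebra Z Q) :
    ∃ t ∈ K, ∀ u ∈ K, u * t = t * u → u ∈ Algebra.adjoin Z {t} := by
  let s : Set ℕ := {n | ∃ t ∈ K, n = Module.finrank Z ↥(Algebra.adjoin Z {t})}
  have hb : BddAbove s := by
    refine ⟨Module.finrank Z Q, ?_⟩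
    rintro n ⟨t, -, rfl⟩
    exact Submodule.finrank_le (Subalgebra.toSubmodule (Algebra.adjoin Z {t}))
  have hne : s.Nonempty := ⟨_, 0, K.zero_mem, rfl⟩
  obtain ⟨t, ht, hn⟩ := Nat.sSup_mem hne hb
  refine ⟨t, ht, fun u hu h => ?_⟩
  obtain ⟨α, hα, h1, h2⟩ := primQ K ht hu h
  have hle : Algebra.adjoin Z {t} ≤ Algebra.adjoin Z {α} := by
    rw [Algebra.adjoin_le_iff]
    rintro x hx
    rw [Set.mem_singleton_iff] at hx
    subst hx
    exact h1
  have h3 : Module.finrank Z ↥(Algebra.adjoin Z {α}) ≤ Module.finrank Z ↥(Algebra.adjoin Z {t}) := by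
    rw [← hn]
    exact le_csSup hb ⟨α, hα, rfl⟩
  rw [Subalgebra.eq_of_le_of_finrank_le hle h3]
  exact h2

end S1

section S2

variable {Z F Q : Type v} [Field Z] [Field F] [Algebra Z F] [DivisionRing Q] [Algebra Z Q]

/-- coordinates -/
noncomputable def cf (φ : F →ₗ[Z] Z) : F ⊗[Z] Q →ₗ[Z] Q :=
  (TensorProduct.lid Z Q).toLinearMap ∘ₗ φ.rTensor Q

@[simp] theorem cf_tmul (φ : F →ₗ[Z] Z) (f : F) (q : Q) : cf φ (f ⊗ₜ[Z] q) = φ f • q := by
  simp [cf]

theorem cf_mul_right (φ : F →ₗ[Z] Z) (x : F ⊗[Z] Q) (t : Q) :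
    cf φ (x * (1 ⊗ₜ[Z] t)) = cf φ x * t := by
  induction x using TensorProduct.induction_on with
  | zero => simp
  | tmul f q => simp
  | add x y hx hy => rw [add_mul, map_add, hx, hy, map_add, add_mul]

theorem cf_mul_left (φ : F →ₗ[Z] Z) (x : F ⊗[Z] Q) (t : Q) :
    cf φ ((1 ⊗ₜ[Z] t) * x) = t * cf φ x := by
  induction x using TensorProduct.induction_on with
  | zero => simp
  | tmul f q => simp
  | add x y hx hy => rw [mul_add, map_add, hx, hy, map_add, mul_add]

theorem cf_mem (K : Subalgebra Z Q) (φ : F →ₗ[Z] Z) (x : F ⊗[Z] Q)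
    (hx : x ∈ (Subalgebra.toSubmodule K).baseChange F) : cf φ x ∈ K := by
  obtain ⟨y, rfl⟩ := hx
  induction y using TensorProduct.induction_on with
  | zero => simp
  | tmul f q =>
    rw [LinearMap.baseChange_tmul, cf_tmul]
    exact K.smul_mem q.2 _
  | add x y hx hy => rw [map_add, map_add]; exact add_mem hx hy

theorem mul_mem (K : Subalgebra Z Q) (x y : F ⊗[Z] Q)
    (hx : x ∈ (Subalgebra.toSubmodule K).baseChange F)
    (hy : y ∈ (Subalgebra.toSubmodule K).baseChange F) :
    x * y ∈ (Subalgebra.toSubmodule K).baseChange F := by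
  obtain ⟨x, rfl⟩ := hx
  obtain ⟨y, rfl⟩ := hy
  induction x using TensorProduct.induction_on with
  | zero => simp
  | tmul f q =>
    induction y using TensorProduct.induction_on with
    | zero => simp
    | tmul f' q' =>
      rw [LinearMap.baseChange_tmul, LinearMap.baseChange_tmul,
        Algebra.TensorProduct.tmul_mul_tmul]
      exact Submodule.tmul_mem_baseChange_of_mem _ (K.mul_mem q.2 q'.2)
    | add x y hx hy => rw [map_add, mul_add]; exact add_mem hx hy
  | add x y hx hy => rw [map_add, add_mul]; exact add_mem hx hy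

theorem aeval_tmul (t : Q) (p : Z[X]) :
    (1 : F) ⊗ₜ[Z] (aeval t p) = aeval ((1 : F) ⊗ₜ[Z] t) (p.map (algebraMap Z F)) := by
  rw [aeval_map_algebraMap]
  exact (aeval_algHom_apply (Algebra.TensorProduct.includeRight : Q →ₐ[Z] F ⊗[Z] Q) t p).symm

/-- elements of `F ⊗ K` which commute with `1 ⊗ t` -/
theorem mem_adjoin (K : Subalgebra Z Q) (t : Q)
    (ht : ∀ u ∈ K, u * t = t * u → u ∈ Algebra.adjoin Z {t}) (x : F ⊗[Z] Q)
    (hx : x ∈ (Subalgebra.toSubmodule K).baseChange F)
    (hc : x * ((1 : F) ⊗ₜ[Z] t) = ((1 : F) ⊗ₜ[Z] t) * x) :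
    ∃ p : F[X], x = aeval ((1 : F) ⊗ₜ[Z] t) p := by
  classical
  let b := Module.Basis.ofVectorSpace Z F
  have h1 : ∀ a, ∃ p : Z[X], TensorProduct.equivFinsuppOfBasisLeft b x a = aeval t p := by
    intro a
    have e : TensorProduct.equivFinsuppOfBasisLeft b x a = cf (b.coord a) x := by
      rw [TensorProduct.equivFinsuppOfBasisLeft_apply]; rfl
    have h2 : cf (b.coord a) x ∈ Algebra.adjoin Z {t} := by
      refine ht _ (cf_mem K _ x hx) ?_
      rw [← cf_mul_right, hc, cf_mul_left]
    rw [Algebra.adjoin_singleton_eq_range_aeval] at h2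
    obtain ⟨p, hp⟩ := h2
    exact ⟨p, by rw [e, ← hp]; rfl⟩
  choose p hp using h1
  have h3 : x = (TensorProduct.equivFinsuppOfBasisLeft b).symm
      (TensorProduct.equivFinsuppOfBasisLeft b x) := (LinearEquiv.symm_apply_apply _ _).symm
  rw [TensorProduct.equivFinsuppOfBasisLeft_symm_apply] at h3
  refine ⟨∑ a ∈ (TensorProduct.equivFinsuppOfBasisLeft b x).support,
    C (b a) * (p a).map (algebraMap Z F), ?_⟩
  rw [map_sum]
  conv_lhs => rw [h3]
  unfold Finsupp.sum
  refine Finset.sum_congr rfl fun a _ => ?_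
  rw [map_mul, aeval_C, ← aeval_tmul, hp, Algebra.TensorProduct.algebraMap_apply,
    Algebra.TensorProduct.tmul_mul_tmul, Algebra.algebraMap_self_apply, mul_one, one_mul]

/-- polynomials of small degree do not vanish at `1 ⊗ t` -/
theorem aeval_ne (t : Q) (p : F[X]) (hp : p ≠ 0) (hn : p.natDegree < (minpoly Z t).natDegree) :
    aeval ((1 : F) ⊗ₜ[Z] t) p ≠ 0 := by
  intro h0
  have hl : p.leadingCoeff ≠ 0 := by rwa [Ne, leadingCoeff_eq_zero]
  let b := Module.Basis.ofVectorSpace Z F
  have h1 : ∃ a, b.coord a p.leadingCoeff ≠ 0 := by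
    by_contra h
    push Not at h
    apply hl
    apply b.repr.injective
    ext a
    rw [map_zero]
    exact h a
  obtain ⟨a, ha⟩ := h1
  let q : Z[X] := ∑ i ∈ Finset.range (p.natDegree + 1), monomial i (b.coord a (p.coeff i))
  have h2 : aeval t q = cf (b.coord a) (aeval ((1 : F) ⊗ₜ[Z] t) p) := by
    rw [aeval_eq_sum_range (p := p), map_sum, map_sum]
    refine Finset.sum_congr rfl fun i _ => ?_
    rw [aeval_monomial, Algebra.TensorProduct.tmul_pow, one_pow, TensorProduct.smul_tmul',
      cf_tmul, smul_eq_mul, mul_one, ← Algebra.smul_def]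
  rw [h0, map_zero] at h2
  have h3 : q.coeff p.natDegree = b.coord a p.leadingCoeff := by
    simp only [q, finsetSum_coeff, coeff_monomial]
    rw [Finset.sum_ite_eq' (Finset.range (p.natDegree + 1)) p.natDegree
      (fun i => b.coord a (p.coeff i)), if_pos (Finset.self_mem_range_succ _)]
    rfl
  have h4 : q ≠ 0 := by
    intro h
    rw [h, coeff_zero] at h3
    exact ha h3.symm
  have h5 := natDegree_le_natDegree (minpoly.degree_le_of_ne_zero Z t h4 h2)
  have h6 : q.natDegree ≤ p.natDegree := by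
    refine natDegree_sum_le_of_forall_le _ _ fun i hi => ?_
    rw [Finset.mem_range] at hi
    exact (natDegree_monomial_le _).trans (by omega)
  omega

end S2

end IDEM

theorem specIDE : SpecIDE.{v} := by
  classical
  intro Z F Q _ _ _ _ _ _ _ K hfin _
  obtain ⟨t, htK, ht⟩ := IDEM.exists_t K
  have hint : IsIntegral Z t := Algebra.IsIntegral.isIntegral t
  let μ : Z[X] := minpoly Z t
  let μF : F[X] := μ.map (algebraMap Z F)
  have hsep : μF.Separable := ((minpoly.irreducible hint).separable).map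
  have hmon : μF.Monic := (minpoly.monic hint).map _
  have hdeg : μF.natDegree = μ.natDegree := natDegree_map _
  have hpos : 0 < μ.natDegree := minpoly.natDegree_pos hint
  obtain ⟨r, hr⟩ := IsAlgClosed.exists_root μF (by
    rw [degree_eq_natDegree hmon.ne_zero, hdeg]
    exact_mod_cast hpos.ne')
  obtain ⟨q, hq⟩ := dvd_iff_isRoot.2 hr
  have hqr : q.eval r ≠ 0 := by
    intro h0
    have h1 : μF.derivative.eval r = 0 := by
      rw [hq, derivative_mul, eval_add, eval_mul, eval_mul, h0]
      simp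
    obtain ⟨a, b, hab⟩ := hsep
    have h2 := congrArg (eval r) hab
    rw [eval_add, eval_mul, eval_mul, h1, show μF.eval r = 0 from hr, mul_zero, mul_zero,
      add_zero, eval_one] at h2
    exact zero_ne_one h2
  let T : F ⊗[Z] Q := (1 : F) ⊗ₜ[Z] t
  let p0 : F[X] := C (q.eval r)⁻¹ * q
  let e : F ⊗[Z] Q := aeval T p0
  have hp0r : p0.eval r = 1 := by
    simp only [p0, eval_mul, eval_C]
    exact inv_mul_cancel₀ hqr
  have hμT : aeval T μF = 0 := by
    rw [← IDEM.aeval_tmul, minpoly.aeval, TensorProduct.tmul_zero]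
  -- `p(T) e = p(r) e`
  have hpe : ∀ p : F[X], aeval T p * e = p.eval r • e := by
    intro p
    have h1 : aeval T (X - C r) * e = 0 := by
      have : aeval T (X - C r) * e = aeval T (C (q.eval r)⁻¹ * μF) := by
        rw [← map_mul]
        congr 1
        simp only [p0]
        rw [hq]
        ring
      rw [this, map_mul, hμT, mul_zero]
    obtain ⟨p', hp'⟩ := X_sub_C_dvd_sub_C_eval (a := r) (p := p)
    have h2 : p = p' * (X - C r) + C (p.eval r) := by
      rw [mul_comm, ← hp']; ring
    have h3 : aeval T p = aeval T p' * aeval T (X - C r) + algebraMap F _ (p.eval r) := by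
      conv_lhs => rw [h2]
      rw [map_add, map_mul, aeval_C]
    rw [h3, add_mul, mul_assoc, h1, mul_zero, zero_add, ← Algebra.smul_def]
  have hpe' : ∀ p : F[X], e * aeval T p = p.eval r • e := by
    intro p
    rw [← hpe, ← map_mul, ← map_mul, mul_comm]
  have hTe : ∀ x : F ⊗[Z] Q, x ∈ Algebra.adjoin Z {T} → x ∈ (Subalgebra.toSubmodule K).baseChange F := by
    intro x hx
    induction hx using Algebra.adjoin_induction with
    | mem x hx =>
      rw [Set.mem_singleton_iff] at hx
      subst hx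
      exact Submodule.tmul_mem_baseChange_of_mem _ htK
    | algebraMap z =>
      rw [Algebra.TensorProduct.algebraMap_apply]
      exact Submodule.tmul_mem_baseChange_of_mem _ K.one_mem
    | add x y _ _ hx hy => exact add_mem hx hy
    | mul x y _ _ hx hy => exact IDEM.mul_mem K x y hx hy
  have hpT : ∀ p : F[X], aeval T p ∈ (Subalgebra.toSubmodule K).baseChange F := by
    intro p
    rw [aeval_eq_sum_range]
    refine sum_mem fun i _ => Submodule.smul_mem _ _ ?_
    exact hTe _ (pow_mem (Algebra.subset_adjoin (Set.mem_singleton _)) i)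
  refine ⟨e, hpT p0, ?_, ?_, ?_⟩
  · refine IDEM.aeval_ne t p0 ?_ ?_
    · intro h
      rw [h, eval_zero] at hp0r
      exact zero_ne_one hp0r
    · have hq0 : q ≠ 0 := by
        rintro rfl
        exact hqr eval_zero
      have h1 : μF.natDegree = 1 + q.natDegree := by
        rw [hq, natDegree_mul (X_sub_C_ne_zero r) hq0, natDegree_X_sub_C]
      have h2 : p0.natDegree ≤ q.natDegree := natDegree_C_mul_le _ _
      show p0.natDegree < μ.natDegree
      omega
  · rw [hpe, hp0r, one_smul]
  · intro u hu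
    have h1 : e * u * e ∈ (Subalgebra.toSubmodule K).baseChange F :=
      IDEM.mul_mem K _ _ (IDEM.mul_mem K _ _ (hpT p0) hu) (hpT p0)
    have hTX : T = aeval T (X : F[X]) := (aeval_X T).symm
    have h2 : (e * u * e) * T = T * (e * u * e) := by
      have a1 : e * T = r • e := by
        conv_lhs => rw [hTX]
        rw [hpe', eval_X]
      have a2 : T * e = r • e := by
        conv_lhs => rw [hTX]
        rw [hpe, eval_X]
      rw [mul_assoc, a1, mul_smul_comm, ← mul_assoc, ← mul_assoc, a2, smul_mul_assoc,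
        smul_mul_assoc]
    obtain ⟨p, hp⟩ := IDEM.mem_adjoin K t ht _ h1 h2
    refine ⟨p.eval r, ?_⟩
    have h3 : e * u * e = (e * u * e) * e := by
      have : e * e = e := by
        conv_lhs => rw [hpe, hp0r, one_smul]
      rw [mul_assoc (e * u), this]
    rw [h3, hp, hpe]

end Pool.Agent.Lib.MP_c37a72_al.CO
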