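import Pool.Agent.Lib.MP_c37a72_al.CO.Spec
import Pool.Agent.Lib.MP_c37a72_al.EG.ADA

/-!
# MP_c37a72_al, block CO, module LCO: `H ∩ O_l` is a left coideal
-/

set_option autoImplicit false

open scoped TensorProduct
open Coalgebra HopfAlgebra WithConv
open Pool.Agent.Lib.MP_c37a72_al.EG

namespace Pool.Agent.Lib.MP_c37a72_al.CO

universe u v w

namespace LCOM

open ADAM

section

variable (k : Type u) (H : Type v) [Field k] [Ring H] [HopfAlgebra k H]

/-- `h ↦ h ⊗ 1` -/
noncomputable def inl : H →ₐ[k] H ⊗[k] H := Algebra.TensorProduct.includeLeft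

/-- `h ↦ 1 ⊗ h` -/
noncomputable def inr : H →ₐ[k] H ⊗[k] H := Algebra.TensorProduct.includeRight

/-- `Δ` -/
noncomputable def dl : H →ₐ[k] H ⊗[k] H := Bialgebra.comulAlgHom k H

lemma cI_dl : cI (dl k H) = cI (inl k H) * cI (inr k H) := by
  refine conv_ext fun h => ?_
  obtain ⟨n, x, y, e⟩ := exists_repr k h
  rw [conv_apply _ _ e, cI_apply]
  change comul (R := k) h = _
  rw [e]
  refine Finset.sum_congr rfl fun i _ => ?_
  rw [cI_apply, cI_apply]
  simp [inl, inr, Algebra.TensorProduct.tmul_mul_tmul]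

lemma cS_dl : cS (dl k H) = cS (inr k H) * cS (inl k H) := by
  have h1 : cI (dl k H) * (cS (inr k H) * cS (inl k H)) = 1 := by
    rw [cI_dl]
    calc cI (inl k H) * cI (inr k H) * (cS (inr k H) * cS (inl k H))
        = cI (inl k H) * (cI (inr k H) * cS (inr k H)) * cS (inl k H) := by
          simp only [mul_assoc]
      _ = 1 := by rw [cI_mul_cS, mul_one, cI_mul_cS]
  calc cS (dl k H) = cS (dl k H) * (cI (dl k H) * (cS (inr k H) * cS (inl k H))) := by
        rw [h1, mul_one]
    _ = _ := by rw [← mul_assoc, cS_mul_cI, one_mul]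

/-- `1 ⊗ g·t` in terms of `Δ(g·b)` -/
lemma key (t : H ⊗[k] H) :
    cL (inr k H) t = cS (inl k H) * cL (dl k H) t * cI (inl k H) := by
  rw [cL, cL, cI_dl, cS_dl]
  calc cI (inr k H) * cst k H t * cS (inr k H)
      = (cS (inl k H) * cI (inl k H)) * cI (inr k H) * cst k H t * cS (inr k H) *
          (cS (inl k H) * cI (inl k H)) := by
        rw [cS_mul_cI, one_mul, mul_one]
    _ = _ := by simp only [mul_assoc]

/-- `Δ(g·b) = ` the adjoint action through `Δ` -/
lemma comul_cL (b g : H) :
    comul (R := k) (cL (AlgHom.id k H) b g) = cL (dl k H) (comul (R := k) b) g := by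
  obtain ⟨n, x, y, e⟩ := exists_repr k g
  rw [cL_apply_repr _ _ e, cL_apply_repr _ _ e, map_sum]
  refine Finset.sum_congr rfl fun i _ => ?_
  simp only [AlgHom.id_apply, Bialgebra.comul_mul]
  rfl

/-- a functional on the first leg commutes with the adjoint action on the second leg -/
lemma slice (φ : H →ₗ[k] k) (t : H ⊗[k] H) (g : H) :
    TensorProduct.lid k H (φ.rTensor H (cL (inr k H) t g)) =
      cL (AlgHom.id k H) (TensorProduct.lid k H (φ.rTensor H t)) g := by
  obtain ⟨n, x, y, e⟩ := exists_repr k g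
  rw [cL_apply_repr _ _ e, cL_apply_repr _ _ e, map_sum, map_sum]
  refine Finset.sum_congr rfl fun i _ => ?_
  simp only [AlgHom.id_apply, inr, Algebra.TensorProduct.includeRight_apply]
  induction t with
  | zero => simp
  | tmul a b => simp [Algebra.TensorProduct.tmul_mul_tmul]
  | add s t hs ht => simp only [mul_add, add_mul, map_add, hs, ht]

/-- the submodule `H ⊗ X` absorbs multiplication by `a ⊗ 1` -/
lemma mem_left (X : Submodule k H) (a : H) {t : H ⊗[k] H}
    (ht : t ∈ LinearMap.range (X.subtype.lTensor H)) :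
    inl k H a * t ∈ LinearMap.range (X.subtype.lTensor H) := by
  obtain ⟨s, rfl⟩ := ht
  refine ⟨(LinearMap.mulLeft k a).rTensor X s, ?_⟩
  induction s with
  | zero => simp
  | tmul b c => simp [inl, Algebra.TensorProduct.tmul_mul_tmul]
  | add s t hs ht => simp only [map_add, mul_add, hs, ht]

lemma mem_right (X : Submodule k H) (a : H) {t : H ⊗[k] H}
    (ht : t ∈ LinearMap.range (X.subtype.lTensor H)) :
    t * inl k H a ∈ LinearMap.range (X.subtype.lTensor H) := by
  obtain ⟨s, rfl⟩ := ht
  refine ⟨(LinearMap.mulRight k a).rTensor X s, ?_⟩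
  induction s with
  | zero => simp
  | tmul b c => simp [inl, Algebra.TensorProduct.tmul_mul_tmul]
  | add s t hs ht => simp only [map_add, add_mul, hs, ht]

lemma slice_mem (X : Submodule k H) (φ : H →ₗ[k] k) {t : H ⊗[k] H}
    (ht : t ∈ LinearMap.range (X.subtype.lTensor H)) :
    TensorProduct.lid k H (φ.rTensor H t) ∈ X := by
  obtain ⟨s, rfl⟩ := ht
  induction s with
  | zero => simp
  | tmul b c => simpa using X.smul_mem _ c.2
  | add s t hs ht => simpa only [map_add] using add_mem hs ht

end

end LCOM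

open ADAM LCOM in
theorem specLCO (hOLF : SpecOLF.{u, v}) : SpecLCO.{u, v} := by
  classical
  intro k H Z Q _ _ _ _ _ _ _ _ _ ι hQ b hb
  obtain ⟨hOl, -⟩ := hOLF k H Z Q ι hQ
  have hLF : LFl k Z ι (ι b) := (hOl _).1 hb
  -- the orbit in `H`
  let f : H →ₗ[k] H := ofConv (cL (AlgHom.id k H) b)
  have hf : ∀ g, f g = cL (AlgHom.id k H) b g := fun g => rfl
  have hιf : ∀ g, ι (f g) = adlQ k Z ι g (ι b) := by
    intro g
    obtain ⟨n, x, y, e⟩ := exists_repr k g
    rw [hf, cL_apply_repr _ _ e, adlQ_eq k Z ι e, map_sum]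
    exact Finset.sum_congr rfl fun i _ => by simp
  have hfin : Module.Finite k (LinearMap.range f) := by
    have : Module.Finite k (Submodule.span k (Set.range fun h : H => adlQ k Z ι h (ι b))) := hLF
    let j : LinearMap.range f →ₗ[k] ↥(Submodule.span k
        (Set.range fun h : H => adlQ k Z ι h (ι b))) :=
      (ι.toLinearMap ∘ₗ (LinearMap.range f).subtype).codRestrict _ (by
        rintro ⟨_, g, rfl⟩
        refine Submodule.subset_span ⟨g, ?_⟩
        exact (hιf g).symm)
    refine Module.Finite.of_injective j ?_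
    intro a a' haa
    apply Subtype.ext
    exact hQ.inj (congrArg Subtype.val haa)
  -- a finite dimensional space of second legs
  obtain ⟨X, hXf, hX⟩ : ∃ X : Submodule k H, Module.Finite k X ∧
      ∀ g, comul (R := k) (f g) ∈ LinearMap.range (X.subtype.lTensor H) := by
    obtain ⟨s, hs⟩ := (Module.Finite.iff_fg (N := LinearMap.range f)).1 hfin
    obtain ⟨X, hXf, hX⟩ := TensorProduct.exists_finite_submodule_right_of_setFinite
      ((fun t => comul (R := k) t) '' (s : Set H)) (s.finite_toSet.image _)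
    refine ⟨X, hXf, fun g => ?_⟩
    have hg : f g ∈ Submodule.span k (s : Set H) := by rw [hs]; exact ⟨g, rfl⟩
    have : Submodule.span k (s : Set H) ≤
        (LinearMap.range (X.subtype.lTensor H)).comap (comul (R := k) (A := H)) :=
      Submodule.span_le.2 fun t ht => hX ⟨t, ht, rfl⟩
    exact this hg
  have hmem : ∀ (φ : H →ₗ[k] k) (g : H),
      cL (AlgHom.id k H) (TensorProduct.lid k H (φ.rTensor H (comul (R := k) b))) g ∈ X := by
    intro φ g
    rw [← slice k H φ, key]
    apply slice_mem
    obtain ⟨n, x, y, e⟩ := exists_repr k g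
    rw [conv_apply _ _ e]
    refine sum_mem fun i _ => ?_
    rw [cI_apply]
    apply mem_right
    obtain ⟨n', x', y', e'⟩ := exists_repr k (x i)
    rw [conv_apply _ _ e']
    refine sum_mem fun j _ => ?_
    rw [cS_apply]
    apply mem_left
    rw [← comul_cL]
    exact hX _
  have hyO : ∀ φ : H →ₗ[k] k, ι (TensorProduct.lid k H (φ.rTensor H (comul (R := k) b))) ∈
      Ol k Z ι := by
    intro φ
    rw [hOl]
    have hle : Submodule.span k (Set.range fun h : H => adlQ k Z ι h
        (ι (TensorProduct.lid k H (φ.rTensor H (comul (R := k) b))))) ≤ X.map ι.toLinearMap := by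
      rw [Submodule.span_le]
      rintro _ ⟨g, rfl⟩
      refine ⟨_, hmem φ g, ?_⟩
      obtain ⟨n, x, y, e⟩ := exists_repr k g
      simp only []
      rw [cL_apply_repr _ _ e, adlQ_eq k Z ι e, map_sum]
      exact Finset.sum_congr rfl fun i _ => by simp
    exact Submodule.finiteDimensional_of_le hle
  let B := Module.Basis.ofVectorSpace k H
  let c := TensorProduct.equivFinsuppOfBasisLeft (N := H) B (comul (R := k) b)
  have hc : ∑ i ∈ c.support, B i ⊗ₜ[k] c i = comul (R := k) b := by
    have := (TensorProduct.equivFinsuppOfBasisLeft (N := H) B).symm_apply_apply (comul (R := k) b)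
    rw [TensorProduct.equivFinsuppOfBasisLeft_symm_apply] at this
    exact this
  refine ⟨c.support.card, fun i => B (c.support.equivFin.symm i), fun i =>
    c (c.support.equivFin.symm i), ?_, ?_⟩
  · rw [← hc, ← Finset.sum_coe_sort c.support (fun i => B i ⊗ₜ[k] c i)]
    exact (Equiv.sum_comp c.support.equivFin.symm
      (fun i : c.support => B i ⊗ₜ[k] c i)).symm
  · intro i
    have := hyO (B.coord (c.support.equivFin.symm i))
    rw [← TensorProduct.equivFinsuppOfBasisLeft_apply] at this
    exact this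

end Pool.Agent.Lib.MP_c37a72_al.CO
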