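import Pool.Agent.Lib.MP_c37a72_al.CO.Spec

/-!
# MP_c37a72_al, block CO: module LFT
-/

set_option autoImplicit false

open scoped TensorProduct
open Coalgebra HopfAlgebra
open Pool.Agent.Lib.MP_c37a72_al.EG

namespace Pool.Agent.Lib.MP_c37a72_al.CO

universe u v w

open EG in
theorem specLFT (hOLF : SpecOLF.{u, v}) : SpecLFT.{u, v} := by
  classical
  intro k H Z Q _ _ _ _ _ _ _ _ _ ι hQ F _ _ _ _ u
  obtain ⟨hOl, -⟩ := hOLF k H Z Q ι hQ
  constructor
  · intro hfin
    let B := Module.Basis.ofVectorSpace Z F
    let e := TensorProduct.equivFinsuppOfBasisLeft (N := Q) B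
    have hcoord : ∀ (t) (h : H) (w : F ⊗[Z] Q),
        e ((adlQ k Z ι h).baseChange F w) t = adlQ k Z ι h (e w t) := by
      intro t h w
      induction w using TensorProduct.induction_on with
      | zero => simp
      | tmul f q =>
        simp [e, TensorProduct.equivFinsuppOfBasisLeft_apply_tmul]
      | add x y hx hy => simp only [map_add, Finsupp.add_apply, hx, hy]
    have hmem : ∀ t, e u t ∈ Ol k Z ι := by
      intro t
      rw [hOl]
      let c : F ⊗[Z] Q →ₗ[k] Q := ((Finsupp.lapply t) ∘ₗ e.toLinearMap).restrictScalars k
      have h1 : Submodule.span k (Set.range fun h : H => adlQ k Z ι h (e u t)) =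
          (Submodule.span k (Set.range fun h : H => (adlQ k Z ι h).baseChange F u)).map c := by
        rw [Submodule.map_span, ← Set.range_comp]
        congr 1
        ext x
        simp only [Set.mem_range, Function.comp_apply]
        constructor
        · rintro ⟨h, rfl⟩
          exact ⟨h, hcoord t h u⟩
        · rintro ⟨h, rfl⟩
          exact ⟨h, (hcoord t h u).symm⟩
      unfold LFl
      rw [h1]
      infer_instance
    have hu : u = (e u).sum fun i n => B i ⊗ₜ[Z] n := by
      have := TensorProduct.equivFinsuppOfBasisLeft_symm_apply (N := Q) B (e u)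
      rw [← this]
      exact (e.symm_apply_apply u).symm
    rw [hu]
    refine Submodule.sum_mem _ fun i _ => ?_
    exact Submodule.tmul_mem_baseChange_of_mem _ (hmem i)
  · intro hu
    rw [Submodule.baseChange_eq_span] at hu
    induction hu using Submodule.span_induction with
    | mem y hy =>
      obtain ⟨q, hq, rfl⟩ := hy
      have hq' := (hOl q).1 hq
      unfold LFl at hq'
      let c : Q →ₗ[k] F ⊗[Z] Q := (TensorProduct.mk Z F Q 1).restrictScalars k
      have h1 : Submodule.span k (Set.range fun h : H =>
          (adlQ k Z ι h).baseChange F ((TensorProduct.mk Z F Q) 1 q)) =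
          (Submodule.span k (Set.range fun h : H => adlQ k Z ι h q)).map c := by
        rw [Submodule.map_span, ← Set.range_comp]
        congr 1
      rw [h1]
      infer_instance
    | zero =>
      have h1 : Submodule.span k (Set.range fun h : H =>
          (adlQ k Z ι h).baseChange F (0 : F ⊗[Z] Q)) = ⊥ := by
        rw [Submodule.span_eq_bot]
        rintro x ⟨h, rfl⟩
        simp
      rw [h1]
      infer_instance
    | add x y _ _ hx hy =>
      have h1 : Submodule.span k (Set.range fun h : H =>
          (adlQ k Z ι h).baseChange F (x + y)) ≤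
          Submodule.span k (Set.range fun h : H => (adlQ k Z ι h).baseChange F x) ⊔
          Submodule.span k (Set.range fun h : H => (adlQ k Z ι h).baseChange F y) := by
        rw [Submodule.span_le]
        rintro z ⟨h, rfl⟩
        simp only [map_add]
        exact Submodule.add_mem_sup (Submodule.subset_span ⟨h, rfl⟩)
          (Submodule.subset_span ⟨h, rfl⟩)
      exact Submodule.finiteDimensional_of_le h1
    | smul c x _ hx =>
      let g : F ⊗[Z] Q →ₗ[k] F ⊗[Z] Q := (LinearMap.lsmul F (F ⊗[Z] Q) c).restrictScalars k
      have h1 : Submodule.span k (Set.range fun h : H =>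
          (adlQ k Z ι h).baseChange F (c • x)) =
          (Submodule.span k (Set.range fun h : H => (adlQ k Z ι h).baseChange F x)).map g := by
        rw [Submodule.map_span, ← Set.range_comp]
        congr 1
        ext y
        simp only [Set.mem_range, Function.comp_apply]
        constructor
        · rintro ⟨h, rfl⟩
          exact ⟨h, (map_smul ((adlQ k Z ι h).baseChange F) c x).symm⟩
        · rintro ⟨h, rfl⟩
          exact ⟨h, map_smul ((adlQ k Z ι h).baseChange F) c x⟩
      rw [h1]
      infer_instance

end Pool.Agent.Lib.MP_c37a72_al.CO
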