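import Pool.Agent.Lib.MP_c37a72_al.CO.Spec

/-!
# NCX: a locally finite module on top of a simple module splits off
-/

set_option autoImplicit false

open scoped TensorProduct
open Coalgebra HopfAlgebra
open Pool.Agent.Lib.MP_c37a72_al.EG

namespace Pool.Agent.Lib.MP_c37a72_al.CO

universe u v w

namespace NCXM

/-- Burnside's theorem. -/
theorem burnside {F V : Type*} [Field F] [IsAlgClosed F] [AddCommGroup V] [Module F V]
    [Module.Finite F V] [Nontrivial V] (S : Subalgebra F (Module.End F V))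
    (hS : ∀ X : Submodule F V, (∀ s ∈ S, ∀ x ∈ X, s x ∈ X) → X = ⊥ ∨ X = ⊤) : S = ⊤ := by
  classical
  have : IsSimpleModule ↥S V := by
    rw [isSimpleModule_iff]
    have : Nontrivial (Submodule ↥S V) := inferInstance
    refine ⟨fun X => ?_⟩
    let Y : Submodule F V :=
      { carrier := X
        add_mem' := fun ha hb => X.add_mem ha hb
        zero_mem' := X.zero_mem
        smul_mem' := fun c x hx => by
          have h1 := X.smul_mem (algebraMap F ↥S c) hx
          have h2 : (algebraMap F ↥S c) • x = c • x := by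
            rw [algebraMap_smul]
          rw [← h2]
          exact h1 }
    rcases hS Y (fun s hs x hx => X.smul_mem (⟨s, hs⟩ : ↥S) hx) with h | h
    · left
      ext x
      have : x ∈ Y ↔ x ∈ (⊥ : Submodule F V) := by rw [h]
      rw [Submodule.mem_bot] at this ⊢
      exact this
    · right
      ext x
      have : x ∈ Y ↔ x ∈ (⊤ : Submodule F V) := by rw [h]
      exact ⟨fun _ => trivial, fun _ => this.2 trivial⟩
  have hsc := (IsSimpleModule.algebraMap_end_bijective_of_isAlgClosed (A := ↥S) (V := V) F).2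
  rw [eq_top_iff]
  intro f _
  let f' : Module.End (Module.End ↥S V) V :=
    { toFun := f
      map_add' := fun x y => map_add f x y
      map_smul' := fun g x => by
        obtain ⟨c, rfl⟩ := hsc g
        show f ((algebraMap F (Module.End ↥S V) c) x) = (algebraMap F (Module.End ↥S V) c) (f x)
        rw [Module.algebraMap_end_apply, Module.algebraMap_end_apply, map_smul] }
  obtain ⟨n, b, hb⟩ := Module.Finite.exists_fin (R := F) (M := V)
  obtain ⟨r, hr⟩ := jacobson_density (R := ↥S) f' (Finset.univ.image b)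
  have h1 : f = (r : Module.End F V) := by
    apply LinearMap.ext_on_range hb
    intro i
    exact hr (b i) (Finset.mem_image_of_mem b (Finset.mem_univ i))
  rw [h1]
  exact r.2

section

variable {k : Type u} {H F E : Type v} [Field k] [Field F] [Algebra k F] [Ring H] [Algebra k H]
  [AddCommGroup E] [Module F E] [Module k E] [IsScalarTower k F E]

theorem lfd_of_span (ρ : H →ₐ[k] Module.End F E) (e : E) (S : Set E) (hS : S.Finite)
    (h : ∀ x : H, ρ x e ∈ Submodule.span k S) : LFd k ρ e := by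
  unfold LFd
  have : FiniteDimensional k (Submodule.span k S) := FiniteDimensional.span_of_finite k hS
  apply Submodule.finiteDimensional_of_le (S₂ := Submodule.span k S)
  rw [Submodule.span_le]
  rintro y ⟨x, rfl⟩
  exact h x

theorem cof (J : Ideal H) (hJ : Module.Finite k (H ⧸ J)) :
    ∃ (n : ℕ) (t : Fin n → H), ∀ h : H, ∃ c : Fin n → k, h - ∑ j, c j • t j ∈ J := by
  obtain ⟨n, s, hs⟩ := Module.Finite.exists_fin (R := k) (M := H ⧸ J)
  choose t ht using fun i => Submodule.Quotient.mk_surjective J (s i)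
  refine ⟨n, t, fun h => ?_⟩
  have h1 : (Submodule.Quotient.mk h : H ⧸ J) ∈ Submodule.span k (Set.range s) := by
    rw [hs]; trivial
  rw [Submodule.mem_span_range_iff_exists_fun] at h1
  obtain ⟨c, hc⟩ := h1
  refine ⟨c, ?_⟩
  rw [← Submodule.Quotient.mk_eq_zero J, Submodule.Quotient.mk_sub, sub_eq_zero, ← hc]
  have h2 : (Submodule.Quotient.mk (∑ j, c j • t j) : H ⧸ J) =
      ∑ j, (Submodule.Quotient.mk (c j • t j) : H ⧸ J) := map_sum J.mkQ _ _
  rw [h2]
  refine Finset.sum_congr rfl fun j _ => ?_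
  rw [Submodule.Quotient.mk_smul, ht]

theorem lfd_of_kill (ρ : H →ₐ[k] Module.End F E) (e : E) (J : Ideal H)
    (hJ : Module.Finite k (H ⧸ J)) (h : ∀ x ∈ J, ρ x e = 0) : LFd k ρ e := by
  obtain ⟨n, t, ht⟩ := cof J hJ
  apply lfd_of_span ρ e (Set.range fun j => ρ (t j) e) (Set.finite_range _)
  intro x
  obtain ⟨c, hc⟩ := ht x
  have h1 := h _ hc
  rw [map_sub, LinearMap.sub_apply, sub_eq_zero] at h1
  rw [h1, map_sum, LinearMap.sum_apply]
  apply Submodule.sum_mem
  intro j _
  rw [map_smul, LinearMap.smul_apply]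
  exact Submodule.smul_mem _ _ (Submodule.subset_span ⟨j, rfl⟩)

/-- the restriction of `ρ` to a stable subspace -/
noncomputable def rs (ρ : H →ₐ[k] Module.End F E) (V' : Submodule F E)
    (hst : ∀ h : H, ∀ x ∈ V', ρ h x ∈ V') : H →ₐ[k] Module.End F ↥V' where
  toFun h := (ρ h).restrict (hst h)
  map_one' := by ext x; simp
  map_mul' a b := by ext x; simp
  map_zero' := by ext x; simp
  map_add' a b := by ext x; simp
  commutes' c := by
    ext x
    simp only [AlgHom.commutes, LinearMap.coe_restrict_apply, Module.algebraMap_end_apply]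
    rfl

theorem rs_apply (ρ : H →ₐ[k] Module.End F E) (V' : Submodule F E)
    (hst : ∀ h : H, ∀ x ∈ V', ρ h x ∈ V') (h : H) (x : ↥V') :
    ((rs ρ V' hst h x : ↥V') : E) = ρ h x := rfl

theorem span_top [IsAlgClosed F] [Module.Finite F E] (ρ : H →ₐ[k] Module.End F E)
    [Nontrivial E]
    (hs : ∀ X : Submodule F E, (∀ h : H, ∀ x ∈ X, ρ h x ∈ X) → X = ⊥ ∨ X = ⊤) :
    Submodule.span F (Set.range ρ) = ⊤ := by
  have h1 := burnside (Algebra.adjoin F (Set.range ρ)) (fun X hX => hs X fun h x hx =>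
    hX _ (Algebra.subset_adjoin ⟨h, rfl⟩) x hx)
  have h2 : Submonoid.closure (Set.range ρ) = MonoidHom.mrange (ρ : H →* Module.End F E) := by
    have : (Set.range ρ) = ((MonoidHom.mrange (ρ : H →* Module.End F E) :
        Submonoid (Module.End F E)) : Set (Module.End F E)) := by
      ext y
      simp
    rw [this, Submonoid.closure_eq]
  have h3 := Algebra.adjoin_eq_span F (Set.range ρ)
  rw [h1, h2] at h3
  rw [Algebra.top_toSubmodule] at h3
  rw [h3]
  rfl

end

end NCXM

open NCXM in
theorem specNCX (hCEX : SpecCEX.{u, v}) : SpecNCX.{u, v} := by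
  intro k H F E _ _ _ _ _ _ _ _ _ _ _ _ ρ hR V' hst hsim hne hnl J hJ2 hJf hJV
  by_cases hV : V' = ⊥
  · subst hV
    have : Nontrivial E := by
      by_contra hc
      rw [not_nontrivial_iff_subsingleton] at hc
      exact hne (Subsingleton.elim _ _)
    obtain ⟨e, he⟩ := exists_ne (0 : E)
    exact ⟨e, he, lfd_of_kill ρ e J hJf fun x hx => (Submodule.mem_bot F).1 (hJV x hx e)⟩
  -- the ideal `I`
  let I : Ideal H :=
    { carrier := {x | x ∈ J ∧ ∀ y ∈ V', ρ x y = 0}
      add_mem' := fun {a b} ha hb => ⟨J.add_mem ha.1 hb.1, fun y hy => by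
        rw [map_add, LinearMap.add_apply, ha.2 y hy, hb.2 y hy, add_zero]⟩
      zero_mem' := ⟨J.zero_mem, fun y _ => by simp⟩
      smul_mem' := fun c x hx => ⟨J.smul_mem c hx.1, fun y hy => by
        rw [smul_eq_mul, map_mul, Module.End.mul_apply, hx.2 y hy, map_zero]⟩ }
  have hI : ∀ x, x ∈ I ↔ x ∈ J ∧ ∀ y ∈ V', ρ x y = 0 := fun x => Iff.rfl
  have hI2 : I.IsTwoSided := ⟨fun {a} b ha => ⟨J.mul_mem_right b ha.1, fun y hy => by
    rw [map_mul, Module.End.mul_apply]
    exact ha.2 _ (hst b y hy)⟩⟩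
  obtain ⟨n, t, ht⟩ := cof J hJf
  obtain ⟨N, g, hg, hgc⟩ := hR I hI2
  have hIE : ∀ x ∈ I, ∀ e : E, ρ x e = 0 := by
    intro x hx e
    apply hnl _ (hJV x hx.1 e)
    apply lfd_of_span ρ _ (Set.range fun p : Fin N × Fin n => ρ (g p.1) (ρ (t p.2) e))
      (Set.finite_range _)
    intro h
    have h1 : h * x ∈ I := I.mul_mem_left h hx
    obtain ⟨c, hc⟩ := hgc _ h1
    have h2 : ρ h (ρ x e) = ρ (h * x) e := by rw [map_mul, Module.End.mul_apply]
    rw [h2, hc, map_sum, LinearMap.sum_apply]
    apply Submodule.sum_mem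
    intro i _
    obtain ⟨a, ha⟩ := ht (c i)
    have h3 : ρ (g i) (ρ (c i - ∑ j, a j • t j) e) = 0 := (hg i).2 _ (hJV _ ha e)
    rw [map_sub, LinearMap.sub_apply, map_sub, sub_eq_zero] at h3
    rw [map_mul, Module.End.mul_apply, h3, map_sum, LinearMap.sum_apply, map_sum]
    apply Submodule.sum_mem
    intro j _
    rw [map_smul, LinearMap.smul_apply, LinearMap.map_smul_of_tower]
    exact Submodule.smul_mem _ _ (Submodule.subset_span ⟨(i, j), rfl⟩)
  -- Burnside and CEX
  have : Nontrivial ↥V' := by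
    rw [Submodule.nontrivial_iff_ne_bot]
    exact hV
  have hsp : Submodule.span F (Set.range (rs ρ V' hst)) = ⊤ := by
    apply span_top
    intro X hX
    have h1 : ∀ h : H, ∀ x ∈ X.map V'.subtype, ρ h x ∈ X.map V'.subtype := by
      rintro h x ⟨y, hy, rfl⟩
      exact ⟨rs ρ V' hst h y, hX h y hy, rfl⟩
    have h2 : X.map V'.subtype ≤ V' := by
      rintro x ⟨y, hy, rfl⟩
      exact y.2
    rcases hsim _ h1 h2 with h | h
    · left
      rw [eq_bot_iff]
      intro y hy
      have h3 : (y : E) ∈ X.map V'.subtype := ⟨y, hy, rfl⟩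
      rw [h, Submodule.mem_bot] at h3
      rw [Submodule.mem_bot]
      exact Subtype.ext h3
    · right
      rw [eq_top_iff]
      intro y _
      have h3 : (y : E) ∈ X.map V'.subtype := by rw [h]; exact y.2
      obtain ⟨y', hy', he⟩ := h3
      have : y' = y := Subtype.ext he
      rwa [← this]
  have hex : ∃ x ∈ J, rs ρ V' hst x ≠ 0 := by
    by_contra hc
    push Not at hc
    obtain ⟨y, hy⟩ := exists_ne (0 : ↥V')
    apply hy
    apply Subtype.ext
    apply hnl _ y.2
    apply lfd_of_kill ρ _ J hJf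
    intro x hx
    have h1 := hc x hx
    rw [← rs_apply ρ V' hst x y, h1]
    rfl
  obtain ⟨z, hz, c, hc, hzc⟩ := hCEX k H F ↥V' (rs ρ V' hst) hsp J hJ2 hex
  have hzV : ∀ y ∈ V', ρ z y = c • y := by
    intro y hy
    have h1 : ((rs ρ V' hst z ⟨y, hy⟩ : ↥V') : E) =
        (((c • (1 : Module.End F ↥V')) ⟨y, hy⟩ : ↥V') : E) := by rw [hzc]
    exact h1
  have hcomm : ∀ (h : H) (e : E), ρ z (ρ h e) = ρ h (ρ z e) := by
    intro h e
    have h1 : z * h - h * z ∈ I := by
      refine ⟨J.sub_mem (J.mul_mem_right h hz) (J.mul_mem_left h hz), fun y hy => ?_⟩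
      rw [map_sub, map_mul, map_mul, LinearMap.sub_apply, Module.End.mul_apply,
        Module.End.mul_apply, hzV _ (hst h y hy), hzV y hy, map_smul, sub_self]
    have h2 := hIE _ h1 e
    rw [map_sub, map_mul, map_mul, LinearMap.sub_apply, Module.End.mul_apply,
      Module.End.mul_apply, sub_eq_zero] at h2
    exact h2
  have hninj : ¬ Function.Injective (ρ z) := by
    intro hinj
    have hsur := LinearMap.injective_iff_surjective.1 hinj
    apply hne
    rw [eq_top_iff]
    intro e _
    obtain ⟨e', rfl⟩ := hsur e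
    exact hJV z hz e'
  obtain ⟨e, hze, he⟩ : ∃ e, ρ z e = 0 ∧ e ≠ 0 := by
    by_contra hcon
    push Not at hcon
    apply hninj
    rw [← LinearMap.ker_eq_bot, LinearMap.ker_eq_bot']
    exact hcon
  refine ⟨e, he, lfd_of_kill ρ e J hJf fun x hx => ?_⟩
  have h1 := hcomm x e
  rw [hze, map_zero, hzV _ (hJV x hx e)] at h1
  exact (smul_eq_zero.1 h1).resolve_left hc

end Pool.Agent.Lib.MP_c37a72_al.CO
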