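import Pool.Agent.Lib.MP_c37a72_al.CO.CEX
import Pool.Agent.Lib.MP_c37a72_al.CO.NCX

section
/-!
# NCA: the identity is in the image of `F J` if there are no locally finite elements
-/
set_option autoImplicit false

open scoped TensorProduct
open Coalgebra HopfAlgebra
open Pool.Agent.Lib.MP_c37a72_al.EG

namespace Pool.Agent.Lib.MP_c37a72_al.CO

universe u v w

namespace NCAM

open NCXM

section

variable {k : Type u} {H F E : Type v} [Field k] [Field F] [Algebra k F] [Ring H] [Algebra k H]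
  [AddCommGroup E] [Module F E] [Module k E] [IsScalarTower k F E]

/-! ### the locally finite part -/

theorem lfd_zero (ρ : H →ₐ[k] Module.End F E) : LFd k ρ 0 := by
  apply lfd_of_span ρ 0 ∅ Set.finite_empty
  intro x
  rw [map_zero]
  exact Submodule.zero_mem _

theorem lfd_add (ρ : H →ₐ[k] Module.End F E) {a b : E} (ha : LFd k ρ a) (hb : LFd k ρ b) :
    LFd k ρ (a + b) := by
  unfold LFd at ha hb ⊢
  have h1 : FiniteDimensional k (Submodule.span k (Set.range fun h : H => ρ h a)) := ha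
  have h2 : FiniteDimensional k (Submodule.span k (Set.range fun h : H => ρ h b)) := hb
  apply Submodule.finiteDimensional_of_le (S₂ := Submodule.span k (Set.range fun h : H => ρ h a) ⊔
    Submodule.span k (Set.range fun h : H => ρ h b))
  rw [Submodule.span_le]
  rintro _ ⟨x, rfl⟩
  show ρ x (a + b) ∈ _
  rw [map_add]
  exact Submodule.add_mem_sup (Submodule.subset_span ⟨x, rfl⟩) (Submodule.subset_span ⟨x, rfl⟩)

theorem lfd_smul (ρ : H →ₐ[k] Module.End F E) (c : F) {a : E} (ha : LFd k ρ a) :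
    LFd k ρ (c • a) := by
  unfold LFd at ha ⊢
  have h1 : FiniteDimensional k (Submodule.span k (Set.range fun h : H => ρ h a)) := ha
  let m : E →ₗ[k] E := (c • (LinearMap.id : E →ₗ[F] E)).restrictScalars k
  have hm : ∀ e, m e = c • e := fun e => rfl
  have h2 : FiniteDimensional k ((Submodule.span k (Set.range fun h : H => ρ h a)).map m) :=
    inferInstance
  apply Submodule.finiteDimensional_of_le
    (S₂ := (Submodule.span k (Set.range fun h : H => ρ h a)).map m)
  rw [Submodule.span_le]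
  rintro _ ⟨x, rfl⟩
  refine ⟨ρ x a, Submodule.subset_span ⟨x, rfl⟩, ?_⟩
  rw [hm]
  exact (map_smul (ρ x) c a).symm

theorem lfd_act (ρ : H →ₐ[k] Module.End F E) (g : H) {a : E} (ha : LFd k ρ a) :
    LFd k ρ (ρ g a) := by
  unfold LFd at ha ⊢
  have h1 : FiniteDimensional k (Submodule.span k (Set.range fun h : H => ρ h a)) := ha
  apply Submodule.finiteDimensional_of_le (S₂ := Submodule.span k (Set.range fun h : H => ρ h a))
  rw [Submodule.span_le]
  rintro _ ⟨x, rfl⟩
  show ρ x (ρ g a) ∈ _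
  rw [← Module.End.mul_apply, ← map_mul]
  exact Submodule.subset_span ⟨x * g, rfl⟩

/-- the locally finite part -/
def lfs (ρ : H →ₐ[k] Module.End F E) : Submodule F E where
  carrier := {e | LFd k ρ e}
  add_mem' := fun ha hb => lfd_add ρ ha hb
  zero_mem' := lfd_zero ρ
  smul_mem' := fun c _ ha => lfd_smul ρ c ha

theorem mem_lfs (ρ : H →ₐ[k] Module.End F E) (e : E) : e ∈ lfs ρ ↔ LFd k ρ e := Iff.rfl

/-- the annihilator of the locally finite part -/
def ann (ρ : H →ₐ[k] Module.End F E) : Ideal H where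
  carrier := {x | ∀ y ∈ lfs ρ, ρ x y = 0}
  add_mem' := fun {a b} ha hb y hy => by
    rw [map_add, LinearMap.add_apply, ha y hy, hb y hy, add_zero]
  zero_mem' := fun y _ => by simp
  smul_mem' := fun c x hx y hy => by
    rw [smul_eq_mul, map_mul, Module.End.mul_apply, hx y hy, map_zero]

theorem mem_ann (ρ : H →ₐ[k] Module.End F E) (x : H) :
    x ∈ ann ρ ↔ ∀ y ∈ lfs ρ, ρ x y = 0 := Iff.rfl

theorem ann_two (ρ : H →ₐ[k] Module.End F E) : (ann ρ).IsTwoSided := ⟨fun {a} b ha y hy => by
  rw [map_mul, Module.End.mul_apply]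
  exact ha _ (lfd_act ρ b hy)⟩

theorem ann_cof [Module.Finite F E] (ρ : H →ₐ[k] Module.End F E) :
    Module.Finite k (H ⧸ ann ρ) := by
  obtain ⟨n, s, hs⟩ := Module.Finite.exists_fin (R := F) (M := ↥(lfs ρ))
  let Φ : H →ₗ[k] (Fin n → E) :=
    { toFun := fun h i => ρ h (s i)
      map_add' := fun a b => by
        funext i
        rw [map_add]
        rfl
      map_smul' := fun c a => by
        funext i
        rw [map_smul]
        rfl }
  have hΦ : ∀ h i, Φ h i = ρ h (s i) := fun h i => rfl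
  have hker : ∀ h, Φ h = 0 → h ∈ ann ρ := by
    intro h hh y hy
    have h1 : (⟨y, hy⟩ : ↥(lfs ρ)) ∈ Submodule.span F (Set.range s) := by rw [hs]; trivial
    have h2 : ∀ z : ↥(lfs ρ), z ∈ Submodule.span F (Set.range s) → ρ h (z : E) = 0 := by
      intro z hz
      induction hz using Submodule.span_induction with
      | mem z hz =>
        obtain ⟨i, rfl⟩ := hz
        rw [← hΦ, hh]
        rfl
      | zero => simp
      | add a b _ _ ha hb =>
        rw [Submodule.coe_add, map_add, ha, hb, add_zero]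
      | smul c a _ ha =>
        rw [Submodule.coe_smul, map_smul, ha, smul_zero]
    exact h2 _ h1
  -- the range of `Φ` is finite dimensional
  have hfin : FiniteDimensional k (LinearMap.range Φ) := by
    have h1 : ∀ i, FiniteDimensional k
        (Submodule.span k (Set.range fun h : H => ρ h (s i : E))) := fun i => (s i).2
    let W : Submodule k (Fin n → E) :=
      Submodule.pi Set.univ fun i => Submodule.span k (Set.range fun h : H => ρ h (s i : E))
    have h2 : FiniteDimensional k W := by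
      let T : (∀ i, ↥(Submodule.span k (Set.range fun h : H => ρ h (s i : E)))) →ₗ[k]
          (Fin n → E) := LinearMap.pi fun i => (Submodule.subtype _).comp (LinearMap.proj i)
      have h3 : W ≤ LinearMap.range T := by
        intro w hw
        exact ⟨fun i => ⟨w i, hw i trivial⟩, rfl⟩
      exact Submodule.finiteDimensional_of_le h3
    apply Submodule.finiteDimensional_of_le (S₂ := W)
    rintro _ ⟨h, rfl⟩ i _
    exact Submodule.subset_span ⟨h, rfl⟩
  -- choose finitely many generators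
  have h5 : Module.Finite k (LinearMap.range Φ) := hfin
  obtain ⟨m, r, hr⟩ := Module.Finite.exists_fin (R := k) (M := ↥(LinearMap.range Φ))
  choose t ht using fun j => (r j).2
  let Ψ : (Fin m → k) →ₗ[k] (H ⧸ ann ρ) :=
    { toFun := fun c => ∑ j, c j • (Submodule.Quotient.mk (t j) : H ⧸ ann ρ)
      map_add' := fun a b => by
        rw [← Finset.sum_add_distrib]
        exact Finset.sum_congr rfl fun j _ => by rw [Pi.add_apply, add_smul]
      map_smul' := fun c a => by
        rw [RingHom.id_apply, Finset.smul_sum]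
        exact Finset.sum_congr rfl fun j _ => by rw [Pi.smul_apply, smul_assoc] }
  apply Module.Finite.of_surjective Ψ
  intro q
  obtain ⟨h, rfl⟩ := Submodule.Quotient.mk_surjective _ q
  have h6 : (⟨Φ h, ⟨h, rfl⟩⟩ : ↥(LinearMap.range Φ)) ∈ Submodule.span k (Set.range r) := by
    rw [hr]; trivial
  rw [Submodule.mem_span_range_iff_exists_fun] at h6
  obtain ⟨c, hc⟩ := h6
  refine ⟨c, ?_⟩
  have h7 : Φ (h - ∑ j, c j • t j) = 0 := by
    have h8 := congrArg Subtype.val hc
    simp only [Submodule.coe_sum, Submodule.coe_smul] at h8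
    rw [map_sub, map_sum, sub_eq_zero]
    rw [← h8]
    exact Finset.sum_congr rfl fun j _ => by rw [map_smul, ht]
  have h9 := hker _ h7
  show ∑ j, c j • (Submodule.Quotient.mk (t j) : H ⧸ ann ρ) = _
  rw [← Submodule.Quotient.mk_eq_zero (ann ρ), Submodule.Quotient.mk_sub, sub_eq_zero] at h9
  rw [h9]
  have h2 : (Submodule.Quotient.mk (∑ j, c j • t j) : H ⧸ ann ρ) =
      ∑ j, (Submodule.Quotient.mk (c j • t j) : H ⧸ ann ρ) := map_sum (ann ρ).mkQ _ _
  rw [h2]
  exact Finset.sum_congr rfl fun j _ => by rw [Submodule.Quotient.mk_smul]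

/-- the quotient representation -/
noncomputable def qs (ρ : H →ₐ[k] Module.End F E) (V' : Submodule F E)
    (hst : ∀ h : H, ∀ x ∈ V', ρ h x ∈ V') : H →ₐ[k] Module.End F (E ⧸ V') where
  toFun h := V'.mapQ V' (ρ h) (hst h)
  map_one' := by
    refine LinearMap.ext fun q => ?_
    obtain ⟨e, rfl⟩ := Submodule.Quotient.mk_surjective _ q
    rw [Submodule.mapQ_apply, map_one]
    rfl
  map_mul' a b := by
    refine LinearMap.ext fun q => ?_
    obtain ⟨e, rfl⟩ := Submodule.Quotient.mk_surjective _ q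
    rw [Module.End.mul_apply, Submodule.mapQ_apply, Submodule.mapQ_apply, Submodule.mapQ_apply,
      map_mul, Module.End.mul_apply]
  map_zero' := by
    refine LinearMap.ext fun q => ?_
    obtain ⟨e, rfl⟩ := Submodule.Quotient.mk_surjective _ q
    rw [Submodule.mapQ_apply, map_zero]
    rfl
  map_add' a b := by
    refine LinearMap.ext fun q => ?_
    obtain ⟨e, rfl⟩ := Submodule.Quotient.mk_surjective _ q
    rw [LinearMap.add_apply, Submodule.mapQ_apply, Submodule.mapQ_apply, Submodule.mapQ_apply,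
      map_add]
    rfl
  commutes' c := by
    refine LinearMap.ext fun q => ?_
    obtain ⟨e, rfl⟩ := Submodule.Quotient.mk_surjective _ q
    rw [Submodule.mapQ_apply, AlgHom.commutes, Module.algebraMap_end_apply,
      Module.algebraMap_end_apply]
    rfl

theorem qs_mk (ρ : H →ₐ[k] Module.End F E) (V' : Submodule F E)
    (hst : ∀ h : H, ∀ x ∈ V', ρ h x ∈ V') (h : H) (e : E) :
    qs ρ V' hst h (Submodule.Quotient.mk e) = Submodule.Quotient.mk (ρ h e) := rfl

/-- locally finite elements of a stable subspace -/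
theorem lfd_rs (ρ : H →ₐ[k] Module.End F E) (V' : Submodule F E)
    (hst : ∀ h : H, ∀ x ∈ V', ρ h x ∈ V') (x : ↥V') (hx : LFd k (rs ρ V' hst) x) :
    LFd k ρ (x : E) := by
  unfold LFd at hx ⊢
  have h1 : FiniteDimensional k
    (Submodule.span k (Set.range fun h : H => rs ρ V' hst h x)) := hx
  let m : ↥V' →ₗ[k] E := (V'.subtype).restrictScalars k
  have h2 : FiniteDimensional k
    ((Submodule.span k (Set.range fun h : H => rs ρ V' hst h x)).map m) := inferInstance
  apply Submodule.finiteDimensional_of_le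
    (S₂ := (Submodule.span k (Set.range fun h : H => rs ρ V' hst h x)).map m)
  rw [Submodule.span_le]
  rintro _ ⟨h, rfl⟩
  exact ⟨rs ρ V' hst h x, Submodule.subset_span ⟨h, rfl⟩, rfl⟩

/-! ### elements of `F J` -/

theorem exists_rep (ρ : H →ₐ[k] Module.End F E) (J : Ideal H) (T : Module.End F E)
    (hT : T ∈ Submodule.span F (ρ '' (J : Set H))) :
    ∃ (n : ℕ) (f : Fin n → F) (h : Fin n → H), (∀ i, h i ∈ J) ∧ T = ∑ i, f i • ρ (h i) := by
  rw [Submodule.mem_span_set'] at hT
  obtain ⟨n, f, g, hg⟩ := hT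
  choose h hh hh' using fun i => (g i).2
  refine ⟨n, f, h, hh, ?_⟩
  rw [← hg]
  exact Finset.sum_congr rfl fun i _ => by rw [hh']

theorem rep_mem (ρ : H →ₐ[k] Module.End F E) (J : Ideal H) {n : ℕ} (f : Fin n → F)
    (h : Fin n → H) (hh : ∀ i, h i ∈ J) :
    ∑ i, f i • ρ (h i) ∈ Submodule.span F (ρ '' (J : Set H)) :=
  Submodule.sum_mem _ fun i _ => Submodule.smul_mem _ _ (Submodule.subset_span ⟨h i, hh i, rfl⟩)

theorem mul_mem' (ρ : H →ₐ[k] Module.End F E) (J : Ideal H) {S T : Module.End F E}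
    (hS : S ∈ Submodule.span F (ρ '' (J : Set H))) (hT : T ∈ Submodule.span F (ρ '' (J : Set H))) :
    S * T ∈ Submodule.span F (ρ '' (J : Set H)) := by
  have h1 := Submodule.mul_mem_mul hS hT
  rw [Submodule.span_mul_span] at h1
  refine Submodule.span_mono ?_ h1
  rintro _ ⟨_, ⟨a, ha, rfl⟩, _, ⟨b, hb, rfl⟩, rfl⟩
  exact ⟨a * b, J.mul_mem_left _ hb, map_mul _ _ _⟩

end

/-- the induction -/
theorem main (hNCX : SpecNCX.{u, v}) {k : Type u} {H F : Type v} [Field k] [Infinite k] [Field F]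
    [IsAlgClosed F] [Algebra k F] [Ring H] [Algebra k H] (hR : RNoeth H) (d : ℕ) :
    ∀ (E : Type v) [AddCommGroup E] [Module F E] [Module k E] [IsScalarTower k F E]
      [Module.Finite F E] (ρ : H →ₐ[k] Module.End F E), Module.finrank F E = d →
      (∀ e : E, LFd k ρ e → e = 0) →
      ∀ J : Ideal H, J.IsTwoSided → Module.Finite k (H ⧸ J) →
        (1 : Module.End F E) ∈ Submodule.span F (ρ '' (J : Set H)) := by
  induction d using Nat.strong_induction_on with
  | _ d ih =>
  intro E _ _ _ _ _ ρ hd hnl J hJ2 hJf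
  by_cases hE : Subsingleton E
  · have : (1 : Module.End F E) = 0 := LinearMap.ext fun e => Subsingleton.elim _ _
    rw [this]
    exact Submodule.zero_mem _
  rw [not_subsingleton_iff_nontrivial] at hE
  -- a minimal stable subspace
  obtain ⟨V', ⟨hV0, hst⟩, hmin⟩ := wellFounded_lt.has_min
    {X : Submodule F E | X ≠ ⊥ ∧ ∀ h : H, ∀ x ∈ X, ρ h x ∈ X}
    ⟨⊤, top_ne_bot, fun _ _ _ => trivial⟩
  have hsim : ∀ X : Submodule F E, (∀ h : H, ∀ x ∈ X, ρ h x ∈ X) → X ≤ V' → X = ⊥ ∨ X = V' := by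
    intro X hX hXV
    by_cases h0 : X = ⊥
    · exact Or.inl h0
    · right
      by_contra h1
      exact hmin X ⟨h0, hX⟩ (lt_of_le_of_ne hXV h1)
  have hVnt : Nontrivial ↥V' := by
    rw [Submodule.nontrivial_iff_ne_bot]
    exact hV0
  -- (a) the quotient has no locally finite elements
  have ha : ∀ e : E ⧸ V', LFd k (qs ρ V' hst) e → e = 0 := by
    by_contra hcon
    push Not at hcon
    obtain ⟨q, hq, hq0⟩ := hcon
    let E₁ : Submodule F E := (lfs (qs ρ V' hst)).comap V'.mkQ
    have hE₁ : ∀ e, e ∈ E₁ ↔ LFd k (qs ρ V' hst) (Submodule.Quotient.mk e) := fun e => Iff.rfl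
    have hst₁ : ∀ h : H, ∀ x ∈ E₁, ρ h x ∈ E₁ := by
      intro h x hx
      rw [hE₁, ← qs_mk ρ V' hst]
      exact lfd_act _ h hx
    have hV₁ : V' ≤ E₁ := by
      intro x hx
      rw [hE₁, (Submodule.Quotient.mk_eq_zero V').2 hx]
      exact lfd_zero _
    let W : Submodule F ↥E₁ := V'.comap E₁.subtype
    have hW : ∀ x : ↥E₁, x ∈ W ↔ (x : E) ∈ V' := fun x => Iff.rfl
    obtain ⟨e, he0, he⟩ := hNCX k H F ↥E₁ (rs ρ E₁ hst₁) hR W
      (fun h x hx => hst h _ hx)
      (by
        intro X hX hXW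
        have h1 : ∀ h : H, ∀ x ∈ X.map E₁.subtype, ρ h x ∈ X.map E₁.subtype := by
          rintro h _ ⟨y, hy, rfl⟩
          exact ⟨rs ρ E₁ hst₁ h y, hX h y hy, rfl⟩
        have h2 : X.map E₁.subtype ≤ V' := by
          rintro _ ⟨y, hy, rfl⟩
          exact hXW hy
        rcases hsim _ h1 h2 with h | h
        · left
          rw [eq_bot_iff]
          intro y hy
          have h3 : (y : E) ∈ X.map E₁.subtype := ⟨y, hy, rfl⟩
          rw [h, Submodule.mem_bot] at h3
          rw [Submodule.mem_bot]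
          exact Subtype.ext h3
        · right
          refine le_antisymm hXW fun y hy => ?_
          have h3 : (y : E) ∈ X.map E₁.subtype := by rw [h]; exact hy
          obtain ⟨y', hy', he⟩ := h3
          have : y' = y := Subtype.ext he
          rwa [← this])
      (by
        intro htop
        obtain ⟨e, rfl⟩ := Submodule.Quotient.mk_surjective _ q
        have h1 : (⟨e, hq⟩ : ↥E₁) ∈ W := by rw [htop]; trivial
        exact hq0 ((Submodule.Quotient.mk_eq_zero V').2 h1))
      (fun x _ hx => Subtype.ext (hnl _ (lfd_rs ρ E₁ hst₁ x hx)))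
      (ann (qs ρ V' hst)) (ann_two _) (ann_cof _)
      (by
        intro h hh e
        have h1 := hh _ e.2
        show ρ h (e : E) ∈ V'
        rw [← Submodule.Quotient.mk_eq_zero V']
        exact h1)
    exact he0 (Subtype.ext (hnl _ (lfd_rs ρ E₁ hst₁ e he)))
  -- (b) induction
  have hlt : Module.finrank F (E ⧸ V') < d := by
    have h1 := Submodule.finrank_quotient_add_finrank V'
    have h2 : 0 < Module.finrank F ↥V' := Module.finrank_pos
    omega
  have hb := ih _ hlt (E ⧸ V') (qs ρ V' hst) rfl ha J hJ2 hJf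
  obtain ⟨n, f, h, hh, hfh⟩ := exists_rep _ J _ hb
  have hT' := rep_mem ρ J f h hh
  set T' := ∑ i, f i • ρ (h i) with hTdef
  have hT'2 : ∀ e : E, e - T' e ∈ V' := by
    intro e
    rw [← Submodule.Quotient.mk_eq_zero V', Submodule.Quotient.mk_sub, sub_eq_zero]
    have h1 : (Submodule.Quotient.mk e : E ⧸ V') = (1 : Module.End F (E ⧸ V'))
      (Submodule.Quotient.mk e) := rfl
    rw [h1, hfh, hTdef, LinearMap.sum_apply, LinearMap.sum_apply]
    have h2 : (Submodule.Quotient.mk (∑ i, (f i • ρ (h i)) e) : E ⧸ V') =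
      ∑ i, (Submodule.Quotient.mk ((f i • ρ (h i)) e) : E ⧸ V') := map_sum V'.mkQ _ _
    rw [h2]
    exact Finset.sum_congr rfl fun i _ => rfl
  -- (c) the simple module
  have hsp : Submodule.span F (Set.range (rs ρ V' hst)) = ⊤ := by
    apply span_top
    intro X hX
    have h1 : ∀ h : H, ∀ x ∈ X.map V'.subtype, ρ h x ∈ X.map V'.subtype := by
      rintro h x ⟨y, hy, rfl⟩
      exact ⟨rs ρ V' hst h y, hX h y hy, rfl⟩
    have h2 : X.map V'.subtype ≤ V' := by
      rintro x ⟨y, hy, rfl⟩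
      exact y.2
    rcases hsim _ h1 h2 with h | h
    · left
      rw [eq_bot_iff]
      intro y hy
      have h3 : (y : E) ∈ X.map V'.subtype := ⟨y, hy, rfl⟩
      rw [h, Submodule.mem_bot] at h3
      rw [Submodule.mem_bot]
      exact Subtype.ext h3
    · right
      rw [eq_top_iff]
      intro y _
      have h3 : (y : E) ∈ X.map V'.subtype := by rw [h]; exact y.2
      obtain ⟨y', hy', he⟩ := h3
      have : y' = y := Subtype.ext he
      rwa [← this]
  obtain ⟨x₀, hx₀, hx₀'⟩ : ∃ x ∈ J, rs ρ V' hst x ≠ 0 := by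
    by_contra hc
    push Not at hc
    obtain ⟨y, hy⟩ := exists_ne (0 : ↥V')
    apply hy
    apply Subtype.ext
    apply hnl
    apply lfd_of_kill ρ _ J hJf
    intro x hx
    have h1 := hc x hx
    rw [← rs_apply ρ V' hst x y, h1]
    rfl
  have hT : Submodule.span F (rs ρ V' hst '' (J : Set H)) = ⊤ := by
    refine CEXM.span_ideal hsp _ ?_ ?_ (rs ρ V' hst x₀) ⟨x₀, hx₀, rfl⟩ hx₀'
    · rintro h _ ⟨x, hx, rfl⟩
      exact ⟨h * x, J.mul_mem_left _ hx, map_mul _ _ _⟩
    · rintro h _ ⟨x, hx, rfl⟩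
      exact ⟨x * h, hJ2.mul_mem_of_left _ hx, map_mul _ _ _⟩
  have h1T : (1 : Module.End F ↥V') ∈ Submodule.span F (rs ρ V' hst '' (J : Set H)) := by
    rw [hT]; trivial
  obtain ⟨m, f2, h2, hh2, hfh2⟩ := exists_rep _ J _ h1T
  have hT'' := rep_mem ρ J f2 h2 hh2
  set T'' := ∑ i, f2 i • ρ (h2 i) with hT2def
  have hT''2 : ∀ y ∈ V', T'' y = y := by
    intro y hy
    have h3 : ((⟨y, hy⟩ : ↥V') : E) = (((1 : Module.End F ↥V') ⟨y, hy⟩ : ↥V') : E) := rfl
    have h4 : (((∑ i, f2 i • rs ρ V' hst (h2 i)) ⟨y, hy⟩ : ↥V') : E) =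
        ∑ i, (f2 i • ρ (h2 i)) y := by
      rw [LinearMap.sum_apply, Submodule.coe_sum]
      exact Finset.sum_congr rfl fun i _ => rfl
    rw [← hfh2] at h4
    rw [hT2def, LinearMap.sum_apply, ← h4]
    rfl
  -- (d)
  have hfinal : (1 : Module.End F E) = T' + T'' - T'' * T' := by
    refine LinearMap.ext fun e => ?_
    have h3 := hT''2 _ (hT'2 e)
    rw [map_sub] at h3
    rw [Module.End.one_apply, LinearMap.sub_apply, LinearMap.add_apply, Module.End.mul_apply,
      add_sub_assoc, h3]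
    abel
  rw [hfinal]
  exact Submodule.sub_mem _ (Submodule.add_mem _ hT' hT'') (mul_mem' ρ J hT'' hT')

end NCAM

open NCAM in
theorem specNCA (hNCX : SpecNCX.{u, v}) : SpecNCA.{u, v} := by
  intro k H F _ _ _ _ _ _ _ hR E _ _ _ _ _ ρ hnl J hJ2 hJf
  obtain ⟨n, f, h, hh, hfh⟩ := exists_rep ρ J _ (main hNCX hR _ E ρ rfl hnl J hJ2 hJf)
  refine ⟨n, f, h, hh, fun e => ?_⟩
  have h1 : (1 : Module.End F E) e = (∑ i, f i • ρ (h i)) e := by rw [hfh]
  rw [Module.End.one_apply, LinearMap.sum_apply] at h1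
  exact h1.symm

end Pool.Agent.Lib.MP_c37a72_al.CO
end

section
/-!
# NCG: a projection onto the locally finite part in the image of `F H`
-/
set_option autoImplicit false

open scoped TensorProduct
open Coalgebra HopfAlgebra
open Pool.Agent.Lib.MP_c37a72_al.EG

namespace Pool.Agent.Lib.MP_c37a72_al.CO

universe u v w

open NCAM NCXM in
theorem specNCG (hNCA : SpecNCA.{u, v}) : SpecNCG.{u, v} := by
  intro k H F E _ _ _ _ _ _ _ _ _ _ _ _ ρ hR
  have hst : ∀ h : H, ∀ x ∈ lfs ρ, ρ h x ∈ lfs ρ := fun h x hx => lfd_act ρ h hx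
  have hJ2 := ann_two ρ
  have hJf := ann_cof ρ
  -- the quotient has no locally finite elements
  have hnl : ∀ q : E ⧸ lfs ρ, LFd k (qs ρ (lfs ρ) hst) q → q = 0 := by
    intro q hq
    obtain ⟨e, rfl⟩ := Submodule.Quotient.mk_surjective _ q
    rw [Submodule.Quotient.mk_eq_zero, mem_lfs]
    have hJf' := ann_cof (qs ρ (lfs ρ) hst)
    obtain ⟨n, t, ht⟩ := cof _ hJf
    obtain ⟨n', t', ht'⟩ := cof _ hJf'
    obtain ⟨m, g, hgJ, hg⟩ := hR (ann ρ) hJ2
    apply lfd_of_span ρ e (Set.range (fun j => ρ (t j) e) ∪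
      Set.range (fun p : Fin m × Fin n' => ρ (g p.1) (ρ (t' p.2) e)))
      ((Set.finite_range _).union (Set.finite_range _))
    have hkill : ∀ z ∈ ann (qs ρ (lfs ρ) hst), ρ z e ∈ lfs ρ := by
      intro z hz
      have h1 := hz _ hq
      rw [qs_mk, Submodule.Quotient.mk_eq_zero] at h1
      exact h1
    intro x
    obtain ⟨c, hc⟩ := ht x
    obtain ⟨y, hy⟩ := hg _ hc
    have hx : x = ∑ j, c j • t j + ∑ i, g i * y i := by rw [← hy]; abel
    rw [hx, map_add, LinearMap.add_apply]
    apply Submodule.add_mem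
    · rw [map_sum, LinearMap.sum_apply]
      apply Submodule.sum_mem
      intro j _
      rw [map_smul, LinearMap.smul_apply]
      exact Submodule.smul_mem _ _ (Submodule.subset_span (Or.inl ⟨j, rfl⟩))
    · rw [map_sum, LinearMap.sum_apply]
      apply Submodule.sum_mem
      intro i _
      obtain ⟨c', hc'⟩ := ht' (y i)
      have h1 : ρ (g i) (ρ (y i - ∑ j, c' j • t' j) e) = 0 := hgJ i _ (hkill _ hc')
      rw [map_sub, LinearMap.sub_apply, map_sub, sub_eq_zero] at h1
      rw [map_mul, Module.End.mul_apply, h1, map_sum, LinearMap.sum_apply, map_sum]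
      apply Submodule.sum_mem
      intro j _
      rw [map_smul, LinearMap.smul_apply]
      have h2 : ρ (g i) (c' j • ρ (t' j) e) = c' j • ρ (g i) (ρ (t' j) e) :=
        LinearMap.map_smul_of_tower _ _ _
      rw [h2]
      exact Submodule.smul_mem _ _ (Submodule.subset_span (Or.inr ⟨(i, j), rfl⟩))
  obtain ⟨n, f, h, hh, hfh⟩ := hNCA k H F hR (E ⧸ lfs ρ) (qs ρ (lfs ρ) hst) hnl (ann ρ) hJ2 hJf
  have hsum : ∀ e : E, ∑ i, (Fin.cons 1 (fun i => - f i) : Fin (n + 1) → F) i •
      ρ ((Fin.cons 1 h : Fin (n + 1) → H) i) e = e - ∑ i, f i • ρ (h i) e := by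
    intro e
    rw [Fin.sum_univ_succ]
    simp only [Fin.cons_zero, Fin.cons_succ, one_smul, map_one, Module.End.one_apply, neg_smul,
      Finset.sum_neg_distrib]
    abel
  refine ⟨n + 1, Fin.cons 1 (fun i => - f i), Fin.cons 1 h, ?_, ?_⟩
  · intro e he
    rw [hsum, Finset.sum_eq_zero, sub_zero]
    intro i _
    rw [hh i e he, smul_zero]
  · intro e
    rw [hsum, ← mem_lfs, ← Submodule.Quotient.mk_eq_zero (lfs ρ), Submodule.Quotient.mk_sub,
      sub_eq_zero]
    have h1 := hfh (Submodule.Quotient.mk e)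
    have h2 : (Submodule.Quotient.mk (∑ i, f i • ρ (h i) e) : E ⧸ lfs ρ) =
      ∑ i, (Submodule.Quotient.mk (f i • ρ (h i) e) : E ⧸ lfs ρ) := map_sum (lfs ρ).mkQ _ _
    rw [h2]
    exact h1.symm

end Pool.Agent.Lib.MP_c37a72_al.CO
end
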