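import Pool.Agent.Lib.MP_c37a72_al.CO.Spec

/-!
# MP_c37a72_al, block CO: module PSI
-/

set_option autoImplicit false
set_option linter.unusedSectionVars false

open scoped TensorProduct
open Coalgebra HopfAlgebra
open Pool.Agent.Lib.MP_c37a72_al.EG

namespace Pool.Agent.Lib.MP_c37a72_al.CO

universe u v w

namespace PSIM

section core

variable {k : Type u} {Z O P0 : Type v} {AA : Type w} [Field k] [Field Z] [Algebra k Z]
    [Ring O] [Algebra k O] [Algebra Z O] [IsScalarTower k Z O] [Field P0] [Algebra k P0]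
    [Algebra Z P0] [IsScalarTower k Z P0] [Ring AA] [Algebra k AA] {m : ℕ}
    (o : Module.Basis (Fin m) Z O) (a : Module.Basis (Fin m) k AA) (K : Fin m → Fin m → P0)

/-- `ψ'(o_p) = ∑_s K s p ⊗ a_s` -/
noncomputable def gg (p : Fin m) : P0 ⊗[k] AA := ∑ s, K s p ⊗ₜ[k] a s

/-- `ψ'` as a `Z`-linear map -/
noncomputable def psl : O →ₗ[Z] P0 ⊗[k] AA := o.constr Z (gg a K)

theorem psl_o (p : Fin m) : psl o a K (o p) = gg a K p := o.constr_basis Z _ p

theorem smul_gg (z : Z) (p : Fin m) :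
    z • gg a K p = ∑ s, (algebraMap Z P0 z * K s p) ⊗ₜ[k] a s := by
  unfold gg
  rw [Finset.smul_sum]
  refine Finset.sum_congr rfl fun s _ => ?_
  rw [TensorProduct.smul_tmul', Algebra.smul_def]

theorem psl_apply (x : O) :
    psl o a K x = ∑ s, (∑ t, algebraMap Z P0 (o.repr x t) * K s t) ⊗ₜ[k] a s := by
  conv_lhs => rw [← o.sum_repr x, map_sum]
  simp only [map_smul, psl_o, smul_gg]
  rw [Finset.sum_comm]
  refine Finset.sum_congr rfl fun s _ => ?_
  rw [TensorProduct.sum_tmul]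

theorem gg_mul (cM : Fin m → Fin m → Fin m → k) (hM : ∀ p q, a p * a q = ∑ s, cM p q s • a s)
    (p q : Fin m) : gg a K p * gg a K q =
      ∑ s, (∑ b, ∑ c, algebraMap k P0 (cM b c s) * (K b p * K c q)) ⊗ₜ[k] a s := by
  unfold gg
  rw [Finset.sum_mul]
  have e : ∀ b : Fin m, (K b p ⊗ₜ[k] a b) * (∑ s, K s q ⊗ₜ[k] a s) =
      ∑ s, (∑ c, algebraMap k P0 (cM b c s) * (K b p * K c q)) ⊗ₜ[k] a s := by
    intro b
    rw [Finset.mul_sum]
    have e2 : ∀ c : Fin m, (K b p ⊗ₜ[k] a b) * (K c q ⊗ₜ[k] a c) =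
        ∑ s, (algebraMap k P0 (cM b c s) * (K b p * K c q)) ⊗ₜ[k] a s := by
      intro c
      rw [Algebra.TensorProduct.tmul_mul_tmul, hM, TensorProduct.tmul_sum]
      refine Finset.sum_congr rfl fun s _ => ?_
      rw [TensorProduct.tmul_smul, TensorProduct.smul_tmul', Algebra.smul_def]
    simp only [e2]
    rw [Finset.sum_comm]
    refine Finset.sum_congr rfl fun s _ => ?_
    rw [TensorProduct.sum_tmul]
  simp only [e]
  rw [Finset.sum_comm]
  refine Finset.sum_congr rfl fun s _ => ?_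
  rw [TensorProduct.sum_tmul]

theorem exists_psi (cM : Fin m → Fin m → Fin m → k)
    (hM : ∀ p q, a p * a q = ∑ s, cM p q s • a s) (c1 : Fin m → k) (h1 : 1 = ∑ s, c1 s • a s)
    (kM : ∀ p q s, ∑ t, algebraMap Z P0 (o.repr (o p * o q) t) * K s t =
      ∑ b, ∑ c, algebraMap k P0 (cM b c s) * (K b p * K c q))
    (k1 : ∀ s, ∑ t, algebraMap Z P0 (o.repr 1 t) * K s t = algebraMap k P0 (c1 s)) :
    ∃ ψ : O →ₐ[Z] P0 ⊗[k] AA, ∀ p, ψ (o p) = gg a K p := by
  have one : psl o a K 1 = 1 := by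
    rw [psl_apply, Algebra.TensorProduct.one_def, h1, TensorProduct.tmul_sum]
    refine Finset.sum_congr rfl fun s _ => ?_
    rw [k1, TensorProduct.tmul_smul, TensorProduct.smul_tmul', Algebra.smul_def, mul_one]
  have mul : (LinearMap.mul Z O).compr₂ (psl o a K) =
      (LinearMap.mul Z (P0 ⊗[k] AA)).compl₁₂ (psl o a K) (psl o a K) := by
    refine o.ext fun p => o.ext fun q => ?_
    rw [LinearMap.compr₂_apply, LinearMap.compl₁₂_apply, LinearMap.mul_apply',
      LinearMap.mul_apply', psl_o, psl_o, gg_mul a K cM hM, psl_apply]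
    refine Finset.sum_congr rfl fun s _ => ?_
    rw [kM]
  refine ⟨AlgHom.ofLinearMap (psl o a K) one fun x y => ?_, fun p => ?_⟩
  · have := LinearMap.congr_fun (LinearMap.congr_fun mul x) y
    rwa [LinearMap.compr₂_apply, LinearMap.compl₁₂_apply, LinearMap.mul_apply',
      LinearMap.mul_apply'] at this
  · exact psl_o o a K p

theorem psi_act (ψ : O →ₐ[Z] P0 ⊗[k] AA) (hψ : ∀ p, ψ (o p) = gg a K p) (T : Module.End Z O)
    (r : Module.End k AA) (cR : Fin m → Fin m → k) (hr : ∀ p, r (a p) = ∑ s, cR p s • a s)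
    (kR : ∀ p s, ∑ t, algebraMap Z P0 (o.repr (T (o p)) t) * K s t =
      ∑ t, algebraMap k P0 (cR t s) * K t p) (x : O) :
    ψ (T x) = TensorProduct.map (LinearMap.id : P0 →ₗ[k] P0) r (ψ x) := by
  have e0 : ∀ y, ψ y = psl o a K y := by
    intro y
    have : ψ.toLinearMap = psl o a K := o.ext fun p => by
      rw [psl_o]; exact hψ p
    exact LinearMap.congr_fun this y
  have e : ψ.toLinearMap ∘ₗ T =
      (TensorProduct.AlgebraTensorModule.map (LinearMap.id : P0 →ₗ[Z] P0) r :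
        P0 ⊗[k] AA →ₗ[Z] P0 ⊗[k] AA) ∘ₗ ψ.toLinearMap := by
    refine o.ext fun p => ?_
    show ψ (T (o p)) = TensorProduct.AlgebraTensorModule.map (LinearMap.id : P0 →ₗ[Z] P0) r
      (ψ (o p))
    rw [hψ, e0, psl_apply]
    unfold gg
    rw [map_sum]
    simp only [TensorProduct.AlgebraTensorModule.map_tmul, LinearMap.id_coe, id_eq, hr, kR,
      TensorProduct.tmul_sum, TensorProduct.sum_tmul]
    rw [Finset.sum_comm]
    refine Finset.sum_congr rfl fun s _ => Finset.sum_congr rfl fun t _ => ?_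
    rw [TensorProduct.tmul_smul, TensorProduct.smul_tmul', Algebra.smul_def]
  exact LinearMap.congr_fun e x

end core

theorem span_mem {k : Type u} {Z O : Type v} [Field k] [Field Z] [Algebra k Z]
    [Ring O] [Algebra k O] [Algebra Z O] [IsScalarTower k Z O] {m : ℕ}
    (o : Module.Basis (Fin m) Z O) (V : Subalgebra k Z) (t : Set (Module.End Z O))
    (ht : ∀ T ∈ t, ∀ p s, o.repr (T (o p)) s ∈ V) (T : Module.End Z O)
    (hT : T ∈ Submodule.span k t) : ∀ p s, o.repr (T (o p)) s ∈ V := by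
  induction hT using Submodule.span_induction with
  | mem x h => exact ht x h
  | zero => intro p s; simp
  | add x y _ _ hx hy =>
    intro p s
    rw [LinearMap.add_apply, map_add, Finsupp.add_apply]
    exact add_mem (hx p s) (hy p s)
  | smul c x _ hx =>
    intro p s
    rw [LinearMap.smul_apply, ← algebraMap_smul Z c (x (o p)), map_smul, Finsupp.smul_apply,
      algebraMap_smul]
    exact V.smul_mem (hx p s) c

end PSIM

theorem specPSI (hSP1 : SpecSP1.{u, v}) (hSP2 : SpecSP2.{u, v}) : SpecPSI.{u, v} := by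
  classical
  intro k H Z Q _ _ _ _ _ _ _ _ _ _ ι R hR hfin Ω _ _ i m o al hi hal
  obtain ⟨t, ht⟩ := (Submodule.fg_top _).1 hfin.1 |>.imp fun _ h => h
  -- the finite sets
  let S1 : Finset Z := Finset.univ.image fun x : Fin m × Fin m × Fin m =>
    o.repr (o x.1 * o x.2.1) x.2.2
  let S2 : Finset Z := Finset.univ.image fun s : Fin m => o.repr 1 s
  let S3 : Finset Z := t.biUnion fun T => Finset.univ.image fun x : Fin m × Fin m =>
    o.repr (T (o x.1)) x.2
  let TT : Finset Ω := Finset.univ.image fun x : Fin m × Fin m => al x.1 x.2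
  obtain ⟨P, P0, _, _, _, _, B, κ, hS, hfinP, hT, hκV, hκZ⟩ :=
    hSP2 k Z Ω i hi (S1 ∪ S2 ∪ S3) TT (by
      intro x hx
      obtain ⟨y, -, rfl⟩ := Finset.mem_image.1 hx
      exact hal.int _ _)
  have hm : ∀ p q s, o.repr (o p * o q) s ∈ P.V := fun p q s =>
    hS _ (Finset.mem_union_left _ (Finset.mem_union_left _
      (Finset.mem_image.2 ⟨(p, q, s), Finset.mem_univ _, rfl⟩)))
  have h1 : ∀ s, o.repr 1 s ∈ P.V := fun s =>
    hS _ (Finset.mem_union_left _ (Finset.mem_union_right _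
      (Finset.mem_image.2 ⟨s, Finset.mem_univ _, rfl⟩)))
  have hRV : ∀ (h : H) (p s), o.repr (R h (o p)) s ∈ P.V := by
    intro h
    refine PSIM.span_mem o P.V (t : Set _) ?_ (R h) ?_
    · intro T hT p s
      exact hS _ (Finset.mem_union_right _ (Finset.mem_biUnion.2
        ⟨T, hT, Finset.mem_image.2 ⟨(p, s), Finset.mem_univ _, rfl⟩⟩))
    · rw [ht]; exact ⟨h, rfl⟩
  obtain ⟨AA, _, _, a, ρ, p1, p2, p3, p4, p5, p6⟩ :=
    hSP1 k H Z ↥(Opp k Z ι) m o R P hR.one hR.mul hR.alg hm h1 hRV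
  have hTa : ∀ s p, al s p ∈ B := fun s p =>
    hT _ (Finset.mem_image.2 ⟨(s, p), Finset.mem_univ _, rfl⟩)
  choose hv hv' using hκV
  choose hz hz' using hκZ
  let K : Fin m → Fin m → P0 := fun s p => κ ⟨al s p, hTa s p⟩
  have kM : ∀ p q s, ∑ t, algebraMap Z P0 (o.repr (o p * o q) t) * K s t =
      ∑ b, ∑ c, algebraMap k P0 (P.α ⟨_, hm b c s⟩) * (K b p * K c q) := by
    intro p q s
    simp only [← hz', ← hv', K, ← map_mul, ← map_sum]
    congr 1
    apply Subtype.ext
    simp only [AddSubmonoidClass.coe_finsetSum, Subring.coe_mul]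
    exact hal.mul p q s
  have k1 : ∀ s, ∑ t, algebraMap Z P0 (o.repr 1 t) * K s t = algebraMap k P0 (P.α ⟨_, h1 s⟩) := by
    intro s
    simp only [← hz', ← hv', K, ← map_mul, ← map_sum]
    congr 1
    apply Subtype.ext
    simp only [AddSubmonoidClass.coe_finsetSum, Subring.coe_mul]
    exact hal.one s
  have kR : ∀ (h : H) (p s), ∑ t, algebraMap Z P0 (o.repr (R h (o p)) t) * K s t =
      ∑ t, algebraMap k P0 (P.α ⟨_, hRV h t s⟩) * K t p := by
    intro h p s
    simp only [← hz', ← hv', K, ← map_mul, ← map_sum]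
    congr 1
    apply Subtype.ext
    simp only [AddSubmonoidClass.coe_finsetSum, Subring.coe_mul]
    exact hal.act h p s
  obtain ⟨ψ', hψ'⟩ := PSIM.exists_psi o a K (fun b c s => P.α ⟨_, hm b c s⟩)
    (fun p q => p4 p q _ fun s => rfl) (fun s => P.α ⟨_, h1 s⟩) (p5 _ fun s => rfl) kM k1
  let e : P0 ⊗[k] AA ≃ₐ[k] AA ⊗[k] P0 := Algebra.TensorProduct.comm k P0 AA
  have he : ∀ (r : Module.End k AA) (y : P0 ⊗[k] AA),
      e (TensorProduct.map (LinearMap.id : P0 →ₗ[k] P0) r y) =
        TensorProduct.map r (LinearMap.id : P0 →ₗ[k] P0) (e y) := by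
    intro r y
    induction y using TensorProduct.induction_on with
    | zero => simp
    | tmul x y => simp [e]
    | add x y hx hy => rw [map_add, map_add, hx, hy, map_add, map_add]
  refine ⟨AA, P0, inferInstance, inferInstance, inferInstance, inferInstance, inferInstance,
    inferInstance, ρ, e.toAlgHom.comp (ψ'.restrictScalars k), ?_⟩
  refine ⟨Module.Finite.of_basis a, hfinP, p1, p2, p3, ?_, ?_, ?_⟩
  · intro z
    show e (ψ' (algebraMap Z ↥(Opp k Z ι) z)) = _
    rw [AlgHom.commutes, Algebra.TensorProduct.algebraMap_apply]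
    exact Algebra.TensorProduct.comm_tmul _ _ _
  · intro h x y hxy
    have : y = R h x := Subtype.ext (by rw [hR.coe, hxy])
    subst this
    show e (ψ' (R h x)) = TensorProduct.map (ρ h) LinearMap.id (e (ψ' x))
    rw [← he, PSIM.psi_act o a K ψ' hψ' (R h) (ρ h) (fun p s => P.α ⟨_, hRV h p s⟩)
      (fun p => p6 h p _ fun s => rfl) (kR h) x]
  · rw [Module.finrank_eq_card_basis a, Module.finrank_eq_card_basis o]

end Pool.Agent.Lib.MP_c37a72_al.CO
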