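import Pool.Agent.Lib.MP_c37a72_al.CO.Spec

/-!
# RES: the operators on `O''`
-/

set_option autoImplicit false

open scoped TensorProduct
open Coalgebra HopfAlgebra
open Pool.Agent.Lib.MP_c37a72_al.EG

namespace Pool.Agent.Lib.MP_c37a72_al.CO

universe u v w

theorem specRES (hADA : EG.SpecADA.{u, v}) (hOPP : EG.SpecOPP.{u, v}) : SpecRES.{u, v} := by
  intro k H Z Q _ _ _ _ _ _ _ _ _ ι hQ
  obtain ⟨h1, h2, h3, h4⟩ := hADA k H Z Q ι
  have hst := (hOPP k H Z Q ι hQ).1
  let R : H →ₗ[k] Module.End Z ↥(Opp k Z ι) :=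
    { toFun := fun h =>
        { toFun := fun x => ⟨adrQ k Z ι h x, hst h x x.2⟩
          map_add' := fun x y => by ext; simp
          map_smul' := fun c x => by ext; simp }
      map_add' := fun g h => by ext x; simp
      map_smul' := fun c h => by ext x; simp }
  have hR : ∀ (h : H) (x : ↥(Opp k Z ι)), ((R h x : ↥(Opp k Z ι)) : Q) = adrQ k Z ι h x :=
    fun h x => rfl
  refine ⟨R, hR, ?_, ?_, ?_, ?_⟩
  · ext x
    rw [hR, h1.2]
    rfl
  · intro g h
    ext x
    rw [hR, (h2 g h).2, Module.End.mul_apply, Module.End.mul_apply, hR, hR]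
  · intro h n x y he a b
    apply Subtype.ext
    rw [hR, Subalgebra.coe_mul, (h3 h n x y he a b).2]
    push_cast
    refine Finset.sum_congr rfl fun i _ => ?_
    rw [hR, hR]
  · intro h
    apply Subtype.ext
    rw [hR]
    push_cast
    rw [(h4 h).2, Algebra.algebraMap_eq_smul_one]

end Pool.Agent.Lib.MP_c37a72_al.CO
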