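import Pool.Agent.Lib.MP_c37a72_al.CO.Spec

/-!
# RNO: two-sided ideals are finitely generated as right ideals
-/

set_option autoImplicit false

open scoped TensorProduct
open Coalgebra HopfAlgebra

namespace Pool.Agent.Lib.MP_c37a72_al.CO

universe u v w

theorem specRNO : SpecRNO.{u, v} := by
  intro k H _ _ _ _ hS J hJ
  -- the preimage of `J` under the antipode
  let J' : Ideal H :=
    { carrier := {x | antipode k (A := H) x ∈ J}
      add_mem' := fun {a b} ha hb => by
        change antipode k (A := H) (a + b) ∈ J
        rw [map_add]
        exact J.add_mem ha hb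
      zero_mem' := by
        change antipode k (A := H) 0 ∈ J
        rw [map_zero]
        exact J.zero_mem
      smul_mem' := fun c x hx => by
        change antipode k (A := H) (c * x) ∈ J
        rw [antipode_mul_antidistrib]
        exact hJ.mul_mem_of_left _ hx }
  obtain ⟨n, g, hg⟩ := Submodule.fg_iff_exists_fin_generating_family.1
    ((isNoetherianRing_iff_ideal_fg H).1 inferInstance J')
  refine ⟨n, fun i => antipode k (A := H) (g i), fun i => ?_, fun x hx => ?_⟩
  · have h1 : g i ∈ J' := by
      rw [← hg]
      exact Submodule.subset_span ⟨i, rfl⟩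
    exact h1
  · obtain ⟨y, rfl⟩ := hS.2 x
    have hy : y ∈ J' := hx
    rw [← hg, Submodule.mem_span_range_iff_exists_fun] at hy
    obtain ⟨c, rfl⟩ := hy
    refine ⟨fun i => antipode k (A := H) (c i), ?_⟩
    rw [map_sum]
    exact Finset.sum_congr rfl fun i _ => by rw [smul_eq_mul, antipode_mul_antidistrib]

end Pool.Agent.Lib.MP_c37a72_al.CO
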