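import Pool.Agent.Lib.MP_c37a72_al.CO.Spec

/-!
# MP_c37a72_al, block CO, module SEV: the simple eigenvalue trick
-/

set_option autoImplicit false

open scoped TensorProduct
open Polynomial Matrix

namespace Pool.Agent.Lib.MP_c37a72_al.CO

universe u v w

namespace SEVM

/-- a monic polynomial over the integral closure in an algebraically closed field splits. -/
theorem exists_roots {D Ω : Type*} [CommRing D] [Field Ω] [IsAlgClosed Ω] [Algebra D Ω]
    (p : Polynomial ↥(integralClosure D Ω)) (hp : p.Monic) :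
    ∃ t : Multiset ↥(integralClosure D Ω), p = (t.map fun a => X - C a).prod := by
  classical
  let f : ↥(integralClosure D Ω) →+* Ω := algebraMap ↥(integralClosure D Ω) Ω
  have hf : Function.Injective f := Subtype.val_injective
  have hmon : (p.map f).Monic := hp.map f
  have hsp : (p.map f).Splits := IsAlgClosed.splits _
  have hroot : ∀ x ∈ (p.map f).roots, x ∈ integralClosure D Ω := by
    intro x hx
    have h1 : eval₂ f x p = 0 := by
      have h2 := (mem_roots hmon.ne_zero).1 hx
      rw [IsRoot.def, eval_map] at h2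
      exact h2
    have h3 : IsIntegral ↥(integralClosure D Ω) x := ⟨p, hp, h1⟩
    exact isIntegral_trans x h3
  let t : Multiset ↥(integralClosure D Ω) :=
    (p.map f).roots.attach.map fun x => ⟨x.1, hroot x.1 x.2⟩
  have ht : t.map f = (p.map f).roots := by
    rw [Multiset.map_map]
    exact Multiset.attach_map_val _
  refine ⟨t, Polynomial.map_injective f hf ?_⟩
  rw [hsp.eq_prod_roots_of_monic hmon, Polynomial.map_multiset_prod, Multiset.map_map, ← ht,
    Multiset.map_map]
  congr 1
  refine Multiset.map_congr rfl fun x _ => ?_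
  simp

theorem simple_root {D Ω F : Type*} [CommRing D] [Field Ω] [IsAlgClosed Ω] [Algebra D Ω] [Field F]
    (κ : ↥(integralClosure D Ω) →+* F) {I : Type*} [Fintype I] [DecidableEq I]
    (c : Matrix I I ↥(integralClosure D Ω)) (g β : I → F) (h : c.map κ = vecMulVec g β)
    (hg : g ⬝ᵥ β = 1) :
    ∃ l : Ω, (c.map (algebraMap ↥(integralClosure D Ω) Ω)).charpoly.rootMultiplicity l = 1 := by
  classical
  obtain ⟨t, ht⟩ := exists_roots c.charpoly (charpoly_monic c)
  have hN : 0 < Fintype.card I := by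
    rw [Fintype.card_pos_iff]
    by_contra hI
    rw [not_nonempty_iff] at hI
    simp [dotProduct] at hg
  have h1 : (c.map κ).charpoly = (t.map fun a => X - C (κ a)).prod := by
    rw [charpoly_map, ht, Polynomial.map_multiset_prod, Multiset.map_map]
    congr 1
    refine Multiset.map_congr rfl fun x _ => ?_
    simp
  have h2 : (c.map κ).charpoly = X ^ (Fintype.card I - 1) * (X - C 1) := by
    rw [h, charpoly_vecMulVec, hg, one_smul, mul_sub, ← pow_succ, Nat.sub_add_cancel hN, C_1,
      mul_one]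
  have h3 : t.map κ = (c.map κ).charpoly.roots := by
    rw [h1]
    have : (t.map fun a => (X - C (κ a) : F[X])) = (t.map κ).map fun a => X - C a := by
      rw [Multiset.map_map]; rfl
    rw [this, roots_multiset_prod_X_sub_C]
  have h4 : (c.map κ).charpoly.roots = (Fintype.card I - 1) • {0} + {1} := by
    rw [h2, roots_mul, roots_pow, roots_X, roots_X_sub_C]
    exact mul_ne_zero (pow_ne_zero _ X_ne_zero) (X_sub_C_ne_zero _)
  have h5 : (t.map κ).count 1 = 1 := by
    rw [h3, h4]
    simp
  have h6 : (1 : F) ∈ t.map κ := by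
    rw [← Multiset.count_pos, h5]; exact one_pos
  obtain ⟨a, hat, ha⟩ := Multiset.mem_map.1 h6
  have h7 : t.count a = 1 := by
    apply le_antisymm
    · calc t.count a ≤ (t.map κ).count (κ a) := by
            rw [Multiset.count_map, Multiset.count, Multiset.countP_eq_card_filter]
            refine Multiset.card_le_card (Multiset.monotone_filter_right _ ?_)
            rintro b rfl
            rfl
        _ = 1 := by rw [ha, h5]
    · exact Multiset.one_le_count_iff_mem.2 hat
  refine ⟨(a : Ω), ?_⟩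
  have hinj : Function.Injective (algebraMap ↥(integralClosure D Ω) Ω) := Subtype.val_injective
  rw [charpoly_map, ht, Polynomial.map_multiset_prod, Multiset.map_map]
  have h8 : (t.map (Polynomial.map (algebraMap ↥(integralClosure D Ω) Ω) ∘ fun a => X - C a)) =
      (t.map (algebraMap ↥(integralClosure D Ω) Ω)).map fun x => X - C x := by
    rw [Multiset.map_map]
    refine Multiset.map_congr rfl fun x _ => ?_
    simp
  rw [h8, ← count_roots, roots_multiset_prod_X_sub_C]
  exact (Multiset.count_map_eq_count' _ t hinj a).trans h7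

section Line

variable {D Ω A : Type*} [CommRing D] [Field Ω] [Algebra D Ω] [Ring A] [Algebra D A]

/-- an element of the commutant acts on an eigenline by a character. -/
theorem exists_char (R : Subalgebra D A) (v0 : Ω ⊗[D] A) (hv0 : v0 ≠ 0)
    (h : ∀ r ∈ R, ∃ c : Ω, ((1 : Ω) ⊗ₜ[D] r) * v0 = c • v0) : Nonempty (↥R →ₐ[D] Ω) := by
  have h' : ∀ r : ↥R, ∃ c : Ω, ((1 : Ω) ⊗ₜ[D] (r : A)) * v0 = c • v0 := fun r => h r r.2
  choose χ hχ using h'
  have huniq : ∀ (r : ↥R) (c : Ω), ((1 : Ω) ⊗ₜ[D] (r : A)) * v0 = c • v0 → χ r = c := by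
    intro r c hc
    rw [hχ r] at hc
    have : (χ r - c) • v0 = 0 := by rw [sub_smul, hc, sub_self]
    rcases smul_eq_zero.1 this with h1 | h1
    · exact sub_eq_zero.1 h1
    · exact absurd h1 hv0
  refine ⟨{ toFun := χ, map_one' := ?_, map_mul' := ?_, map_zero' := ?_, map_add' := ?_,
            commutes' := ?_ }⟩
  · apply huniq
    rw [OneMemClass.coe_one, ← Algebra.TensorProduct.one_def, one_mul, one_smul]
  · intro r s
    apply huniq
    rw [MulMemClass.coe_mul, ← one_mul (1 : Ω), ← Algebra.TensorProduct.tmul_mul_tmul, mul_assoc,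
      hχ s, mul_smul_comm, hχ r, smul_smul, mul_comm]
  · apply huniq
    rw [ZeroMemClass.coe_zero, TensorProduct.tmul_zero, zero_mul, zero_smul]
  · intro r s
    apply huniq
    rw [AddMemClass.coe_add, TensorProduct.tmul_add, add_mul, hχ, hχ, add_smul]
  · intro d
    apply huniq
    rw [Subalgebra.coe_algebraMap, Algebra.algebraMap_eq_smul_one, TensorProduct.tmul_smul,
      ← Algebra.TensorProduct.one_def, smul_mul_assoc, one_mul, algebraMap_smul]

end Line

end SEVM

theorem specSEV : SpecSEV.{v} := by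
  classical
  intro D Ω F A V _ _ _ _ _ _ κ _ _ _ _ _ I _ u τ _ hτ hind n m w v β hβ hb
  -- the matrix
  let W := ↥(integralClosure D Ω)
  let c : Matrix I I W := fun i j => ∑ ν, ∑ μ, w ν * w μ *
    algebraMap D W (u.repr (m ν * u j * m μ) i)
  let g : I → F := fun i => ∑ ν, κ (w ν) * κ (algebraMap D W (u.repr (m ν) i))
  let b : Module.End F V := ∑ ν, κ (w ν) • τ (m ν)
  have hτr : ∀ a : A, τ a = ∑ i, κ (algebraMap D W (u.repr a i)) • τ (u i) := by
    intro a
    conv_lhs => rw [← u.sum_repr a]
    rw [map_sum]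
    exact Finset.sum_congr rfl fun i _ => hτ _ _
  have hbx : ∀ x, b x = β x • v := by
    intro x
    rw [← hb x]
    simp [b, LinearMap.sum_apply]
  have hbg : b = ∑ i, g i • τ (u i) := by
    simp only [b, g]
    calc ∑ ν, κ (w ν) • τ (m ν) = ∑ ν, ∑ i, (κ (w ν) * κ (algebraMap D W (u.repr (m ν) i))) •
          τ (u i) := by
          refine Finset.sum_congr rfl fun ν _ => ?_
          rw [hτr (m ν), Finset.smul_sum]
          exact Finset.sum_congr rfl fun i _ => smul_smul _ _ _
      _ = _ := by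
          rw [Finset.sum_comm]
          exact Finset.sum_congr rfl fun i _ => (Finset.sum_smul).symm
  have hbab : ∀ j, b * τ (u j) * b = ∑ i, κ (c i j) • τ (u i) := by
    intro j
    simp only [b]
    rw [Finset.sum_mul, Finset.sum_mul]
    simp only [Finset.mul_sum]
    have e1 : ∀ ν μ, κ (w ν) • τ (m ν) * τ (u j) * (κ (w μ) • τ (m μ)) =
        ∑ i, κ (w ν * w μ * algebraMap D W (u.repr (m ν * u j * m μ) i)) • τ (u i) := by
      intro ν μ
      have h3 : τ (m ν) * τ (u j) * τ (m μ) = τ (m ν * u j * m μ) := by rw [map_mul, map_mul]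
      rw [smul_mul_assoc, smul_mul_assoc, mul_smul_comm, smul_smul, h3, hτr (m ν * u j * m μ),
        Finset.smul_sum]
      refine Finset.sum_congr rfl fun i _ => ?_
      rw [smul_smul, map_mul κ (w ν * w μ), map_mul κ (w ν)]
    simp only [e1]
    have e2 : ∀ i, κ (c i j) = ∑ ν, ∑ μ, κ (w ν * w μ *
        algebraMap D W (u.repr (m ν * u j * m μ) i)) := by
      intro i
      simp only [c, map_sum]
    simp only [e2, Finset.sum_smul]
    calc _ = ∑ ν, ∑ i, ∑ μ, κ (w ν * w μ *
          algebraMap D W (u.repr (m ν * u j * m μ) i)) • τ (u i) :=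
          Finset.sum_congr rfl fun ν _ => Finset.sum_comm
      _ = _ := Finset.sum_comm
  let bet : I → F := fun j => β (τ (u j) v)
  have hbab2 : ∀ j, b * τ (u j) * b = bet j • b := by
    intro j
    ext x
    rw [Module.End.mul_apply, Module.End.mul_apply, hbx x, map_smul, map_smul, hbx,
      LinearMap.smul_apply, hbx x, smul_smul, smul_smul, mul_comm]
  have hκc : c.map κ = vecMulVec g bet := by
    ext i j
    have h1 : ∑ i, κ (c i j) • τ (u i) = ∑ i, (g i * bet j) • τ (u i) := by
      rw [← hbab j, hbab2 j]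
      conv_lhs => rw [hbg]
      rw [Finset.smul_sum]
      refine Finset.sum_congr rfl fun i _ => ?_
      rw [smul_smul, mul_comm]
    have h2 : ∑ i, (κ (c i j) - g i * bet j) • τ (u i) = 0 := by
      simp only [sub_smul, Finset.sum_sub_distrib, h1, sub_self]
    have h3 := Fintype.linearIndependent_iff.1 hind _ h2 i
    rw [Matrix.map_apply, vecMulVec_apply]
    exact sub_eq_zero.1 h3
  have hgb : g ⬝ᵥ bet = 1 := by
    have h1 : β (b v) = 1 := by rw [hbx, map_smul, hβ, smul_eq_mul, mul_one]
    rw [hbg] at h1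
    simp only [LinearMap.sum_apply, LinearMap.smul_apply, map_sum, map_smul, smul_eq_mul] at h1
    exact h1
  obtain ⟨l, hl⟩ := SEVM.simple_root κ c g bet hκc hgb
  -- the operator
  let bt : Ω ⊗[D] A := ∑ ν, (w ν : Ω) ⊗ₜ[D] m ν
  let T : Module.End Ω (Ω ⊗[D] A) := (LinearMap.mulLeft Ω bt).comp (LinearMap.mulRight Ω bt)
  let uΩ : Module.Basis I Ω (Ω ⊗[D] A) := u.baseChange Ω
  have hT : LinearMap.toMatrix uΩ uΩ T = c.map (algebraMap W Ω) := by
    ext i j
    rw [LinearMap.toMatrix_apply, Matrix.map_apply]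
    have h1 : T (uΩ j) = ∑ ν, ∑ μ, ((w ν : Ω) * (w μ : Ω)) ⊗ₜ[D] (m ν * u j * m μ) := by
      simp only [T, uΩ, LinearMap.comp_apply, LinearMap.mulLeft_apply, LinearMap.mulRight_apply,
        Module.Basis.baseChange_apply, bt]
      rw [Finset.sum_mul]
      refine Finset.sum_congr rfl fun ν _ => ?_
      rw [Finset.mul_sum, Finset.mul_sum]
      refine Finset.sum_congr rfl fun μ _ => ?_
      rw [Algebra.TensorProduct.tmul_mul_tmul, Algebra.TensorProduct.tmul_mul_tmul, one_mul,
        mul_assoc]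
    rw [h1]
    simp only [map_sum, Finsupp.coe_finsetSum, Finset.sum_apply, c]
    refine Finset.sum_congr rfl fun ν _ => Finset.sum_congr rfl fun μ _ => ?_
    simp only [uΩ, Module.Basis.baseChange_repr_tmul, map_mul]
    rw [Algebra.smul_def, mul_comm]
    rfl
  have : Module.Finite Ω (Ω ⊗[D] A) := Module.Finite.of_basis uΩ
  have hchar : T.charpoly = (c.map (algebraMap W Ω)).charpoly := by
    rw [← hT, LinearMap.charpoly_toMatrix]
  rw [← hchar] at hl
  have hev : T.HasEigenvalue l := by
    rw [Module.End.hasEigenvalue_iff_isRoot_charpoly]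
    have : 0 < T.charpoly.rootMultiplicity l := by rw [hl]; exact one_pos
    exact (Polynomial.rootMultiplicity_pos (LinearMap.charpoly_monic T).ne_zero).1 this
  obtain ⟨v0, hv0⟩ := hev.exists_hasEigenvector
  have hfr : Module.finrank Ω (T.eigenspace l) ≤ 1 := hl ▸ T.finrank_eigenspace_le l
  have hline : ∀ y : Ω ⊗[D] A, T y = l • y → ∃ c : Ω, y = c • v0 := by
    intro y hy
    have hne : (⟨v0, hv0.1⟩ : T.eigenspace l) ≠ 0 := fun h => hv0.2 (congrArg Subtype.val h)
    have h1 : Module.finrank Ω (T.eigenspace l) = 1 := by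
      refine le_antisymm hfr ?_
      have : Nontrivial (T.eigenspace l) := ⟨⟨_, _, hne⟩⟩
      exact Module.finrank_pos
    obtain ⟨a, ha⟩ := (finrank_eq_one_iff_of_nonzero' _ hne).1 h1
      ⟨y, Module.End.mem_eigenspace_iff.2 hy⟩
    exact ⟨a, (congrArg Subtype.val ha).symm⟩
  refine SEVM.exists_char _ v0 hv0.2 ?_
  intro r hr
  rw [Subalgebra.mem_centralizer_iff] at hr
  have hcomm : ((1 : Ω) ⊗ₜ[D] r) * bt = bt * ((1 : Ω) ⊗ₜ[D] r) := by
    simp only [bt, Finset.mul_sum, Finset.sum_mul, Algebra.TensorProduct.tmul_mul_tmul, one_mul,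
      mul_one]
    refine Finset.sum_congr rfl fun ν _ => ?_
    rw [hr _ ⟨ν, rfl⟩]
  obtain ⟨c, hc⟩ := hline (((1 : Ω) ⊗ₜ[D] r) * v0) (by
    have h1 : T v0 = l • v0 := Module.End.mem_eigenspace_iff.1 hv0.1
    simp only [T, LinearMap.comp_apply, LinearMap.mulLeft_apply, LinearMap.mulRight_apply] at h1 ⊢
    calc bt * (((1 : Ω) ⊗ₜ[D] r) * v0 * bt) = ((1 : Ω) ⊗ₜ[D] r) * (bt * (v0 * bt)) := by
          rw [mul_assoc, ← mul_assoc bt, ← hcomm, mul_assoc]
      _ = _ := by rw [h1, mul_smul_comm])
  exact ⟨c, hc⟩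

end Pool.Agent.Lib.MP_c37a72_al.CO
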