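import Pool.Agent.Lib.MP_c37a72_al.CO.Spec
import Pool.Agent.Lib.MP_c37a72_al.Pts

/-!
# SP2: specialisation of the first variable at a place
-/

set_option autoImplicit false

open scoped TensorProduct
open Coalgebra HopfAlgebra
open Pool.Agent.Lib.MP_c37a72_al.EG

namespace Pool.Agent.Lib.MP_c37a72_al.CO

universe u v w

namespace SP2M

section

variable {k : Type u} {Z : Type v} [Field k] [Field Z] [Algebra k Z]

/-- `V ⊗ Z → Z ⊗ Z` -/
noncomputable def jj (V : Subalgebra k Z) : ↥V ⊗[k] Z →ₐ[k] Z ⊗[k] Z :=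
  Algebra.TensorProduct.map V.val (AlgHom.id k Z)

theorem jj_tmul (V : Subalgebra k Z) (v : ↥V) (z : Z) : jj V (v ⊗ₜ[k] z) = (v : Z) ⊗ₜ[k] z := by
  simp [jj]

theorem jj_inj (V : Subalgebra k Z) : Function.Injective (jj V) := by
  have h : Function.Injective (LinearMap.rTensor Z V.val.toLinearMap) :=
    Module.Flat.rTensor_preserves_injective_linearMap _ Subtype.val_injective
  have e : (jj V : ↥V ⊗[k] Z → Z ⊗[k] Z) = LinearMap.rTensor Z V.val.toLinearMap := by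
    have : (jj V).toLinearMap = LinearMap.rTensor Z V.val.toLinearMap := by
      apply TensorProduct.ext'
      intro a b
      simp [jj]
    funext x
    exact congrArg (fun f => f x) this
  rw [e]
  exact h

theorem legs (y : Z ⊗[k] Z) : ∃ C : Finset Z, ∀ V : Subalgebra k Z, (∀ z ∈ C, z ∈ V) →
    y ∈ Set.range (jj V) := by
  classical
  induction y using TensorProduct.induction_on with
  | zero => exact ⟨∅, fun V _ => ⟨0, map_zero _⟩⟩
  | tmul a b => exact ⟨{a}, fun V hV => ⟨(⟨a, hV a (by simp)⟩ : ↥V) ⊗ₜ[k] b, jj_tmul _ _ _⟩⟩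
  | add x y hx hy =>
    obtain ⟨C, hC⟩ := hx
    obtain ⟨D, hD⟩ := hy
    refine ⟨C ∪ D, fun V hV => ?_⟩
    obtain ⟨x', hx'⟩ := hC V fun z hz => hV z (Finset.mem_union_left _ hz)
    obtain ⟨y', hy'⟩ := hD V fun z hz => hV z (Finset.mem_union_right _ hz)
    exact ⟨x' + y', by rw [map_add, hx', hy']⟩

theorem legs_int {Ω : Type v} [Field Ω] [Algebra k Ω] (i : Z ⊗[k] Z →ₐ[k] Ω) (t : Ω)
    (ht : (i : Z ⊗[k] Z →+* Ω).IsIntegralElem t) :
    ∃ C : Finset Z, ∀ V : Subalgebra k Z, (∀ z ∈ C, z ∈ V) →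
      ((i.comp (jj V) : ↥V ⊗[k] Z →ₐ[k] Ω) : ↥V ⊗[k] Z →+* Ω).IsIntegralElem t := by
  classical
  obtain ⟨p, hp, hpt⟩ := ht
  choose L hL using fun n => legs (p.coeff n)
  refine ⟨p.support.biUnion L, fun V hV => ?_⟩
  have h1 : p ∈ Polynomial.lifts ((jj V : ↥V ⊗[k] Z →ₐ[k] Z ⊗[k] Z) : ↥V ⊗[k] Z →+* Z ⊗[k] Z) := by
    rw [Polynomial.lifts_iff_coeff_lifts]
    intro n
    by_cases hn : n ∈ p.support
    · obtain ⟨y, hy⟩ := hL n V fun z hz => hV z (Finset.mem_biUnion.2 ⟨n, hn, hz⟩)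
      exact ⟨y, hy⟩
    · rw [Polynomial.notMem_support_iff] at hn
      rw [hn]
      exact ⟨0, map_zero _⟩
  obtain ⟨q, hq, -, hqm⟩ := Polynomial.lifts_and_natDegree_eq_and_monic h1 hp
  refine ⟨q, hqm, ?_⟩
  rw [← hpt, ← hq, Polynomial.eval₂_map]
  rfl

/-- the evaluation -/
noncomputable def ev (P : Plc k Z) : ↥P.V ⊗[k] Z →ₐ[k] Z :=
  Algebra.TensorProduct.lift ((Algebra.ofId k Z).comp P.α) (AlgHom.id k Z)
    (fun _ _ => Commute.all _ _)

theorem ev_tmul (P : Plc k Z) (a : ↥P.V) (z : Z) :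
    ev P (a ⊗ₜ[k] z) = algebraMap k Z (P.α a) * z := by
  simp [ev, Algebra.ofId_apply]

end

/-- the abstract construction -/
theorem core {D Z Ω : Type v} [CommRing D] [Field Z] [Field Ω] (f : D →+* Ω)
    (hf : Function.Injective f) (e : D →+* Z) (inc : Z →+* D) (hinc : ∀ z, e (inc z) = z)
    (T : Finset Ω) (hT : ∀ t ∈ T, f.IsIntegralElem t) :
    ∃ (P0 : Type v) (_ : Field P0) (σ : Z →+* P0) (B : Subring Ω) (κ : ↥B →+* P0),
      (@Module.Finite Z P0 _ _ σ.toAlgebra.toModule) ∧ (∀ t ∈ T, t ∈ B) ∧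
      ∀ d : D, ∃ h : f d ∈ B, κ ⟨f d, h⟩ = σ (e d) := by
  classical
  letI : Algebra D Ω := f.toAlgebra
  let B : Subalgebra D Ω := Algebra.adjoin D (T : Set Ω)
  have hBfg : (Subalgebra.toSubmodule B).FG := fg_adjoin_of_finite T.finite_toSet fun t ht => hT t ht
  have hBfin : Module.Finite D ↥B := Module.Finite.iff_fg.2 hBfg
  have hBint : Algebra.IsIntegral D ↥B := Algebra.IsIntegral.of_finite D ↥B
  have hevs : Function.Surjective e := fun z => ⟨inc z, hinc z⟩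
  have hm : (RingHom.ker e).IsMaximal := RingHom.ker_isMaximal_of_surjective e hevs
  have hBinj : Function.Injective (algebraMap D ↥B) := by
    intro a b hab
    apply hf
    exact congrArg (Subtype.val : ↥B → Ω) hab
  obtain ⟨𝔓, -, h𝔓p, h𝔓⟩ := Ideal.exists_ideal_over_prime_of_isIntegral (R := D) (S := ↥B)
    (RingHom.ker e) ⊥ (by
      rw [← RingHom.ker_eq_comap_bot, (RingHom.injective_iff_ker_eq_bot _).1 hBinj]
      exact bot_le)
  have h𝔓m : 𝔓.IsMaximal := by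
    apply Ideal.isMaximal_of_isIntegral_of_isMaximal_comap (R := D)
    rw [h𝔓]
    exact hm
  let π : D →+* (↥B ⧸ 𝔓) := (Ideal.Quotient.mk 𝔓).comp (algebraMap D ↥B)
  have hπ : ∀ d : D, e d = 0 → π d = 0 := by
    intro d hd
    have h1 : d ∈ 𝔓.comap (algebraMap D ↥B) := by
      rw [h𝔓]
      exact hd
    exact Ideal.Quotient.eq_zero_iff_mem.2 h1
  have hσ : ∀ d : D, π (inc (e d)) = π d := by
    intro d
    have h1 : π (inc (e d) - d) = 0 := by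
      apply hπ
      rw [map_sub, hinc, sub_self]
    rw [map_sub, sub_eq_zero] at h1
    exact h1
  refine ⟨↥B ⧸ 𝔓, Ideal.Quotient.field 𝔓, π.comp inc, B.toSubring,
    (Ideal.Quotient.mk 𝔓 : ↥B →+* (↥B ⧸ 𝔓)), ?_, ?_, ?_⟩
  · letI : Algebra Z (↥B ⧸ 𝔓) := (π.comp inc).toAlgebra
    obtain ⟨n, b, hb⟩ := Module.Finite.exists_fin (R := D) (M := ↥B)
    refine ⟨⟨Finset.univ.image fun j => Ideal.Quotient.mk 𝔓 (b j), ?_⟩⟩
    rw [eq_top_iff]
    intro x _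
    obtain ⟨y, rfl⟩ := Ideal.Quotient.mk_surjective x
    have h1 : y ∈ Submodule.span D (Set.range b) := by rw [hb]; trivial
    rw [Submodule.mem_span_range_iff_exists_fun] at h1
    obtain ⟨c, hc⟩ := h1
    rw [← hc, map_sum]
    apply Submodule.sum_mem
    intro j _
    have h2 : Ideal.Quotient.mk 𝔓 (c j • b j) = e (c j) • Ideal.Quotient.mk 𝔓 (b j) := by
      rw [Algebra.smul_def, map_mul, Algebra.smul_def]
      congr 1
      exact (hσ (c j)).symm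
    rw [h2]
    apply Submodule.smul_mem
    apply Submodule.subset_span
    simp
  · intro t ht
    exact Algebra.subset_adjoin ht
  · intro d
    have h2 : f d ∈ B.toSubring := B.algebraMap_mem d
    refine ⟨h2, ?_⟩
    exact (hσ d).symm

end SP2M

open SP2M in
theorem specSP2 : SpecSP2.{u, v} := by
  intro k Z Ω _ _ _ _ _ _ i hi S T hT
  classical
  have hleg : ∀ t : Ω, t ∈ T → ∃ C : Finset Z, ∀ V : Subalgebra k Z, (∀ z ∈ C, z ∈ V) →
      ((i.comp (jj V) : ↥V ⊗[k] Z →ₐ[k] Ω) : ↥V ⊗[k] Z →+* Ω).IsIntegralElem t :=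
    fun t ht => legs_int i t (hT t ht)
  choose! C hC using hleg
  obtain ⟨P, hP, -⟩ := exists_plc_of k Z (S ∪ T.biUnion C) 1 one_ne_zero
  have hPS : ∀ z ∈ S, z ∈ P.V := fun z hz => hP z (Finset.mem_union_left _ hz)
  have hPT : ∀ t ∈ T, ((i.comp (jj P.V) : ↥P.V ⊗[k] Z →ₐ[k] Ω) :
      ↥P.V ⊗[k] Z →+* Ω).IsIntegralElem t := fun t ht => hC t ht P.V fun z hz =>
    hP z (Finset.mem_union_right _ (Finset.mem_biUnion.2 ⟨t, ht, hz⟩))
  obtain ⟨P0, _, σ, B, κ, h1, h2, h3⟩ := core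
    ((i.comp (jj P.V) : ↥P.V ⊗[k] Z →ₐ[k] Ω) : ↥P.V ⊗[k] Z →+* Ω) (hi.comp (jj_inj P.V))
    (ev P : ↥P.V ⊗[k] Z →+* Z)
    (Algebra.TensorProduct.includeRight : Z →ₐ[k] ↥P.V ⊗[k] Z).toRingHom
    (fun z => by
      show ev P (1 ⊗ₜ[k] z) = z
      rw [ev_tmul]
      simp) T hPT
  letI algZ : Algebra Z P0 := σ.toAlgebra
  letI algk : Algebra k P0 := (σ.comp (algebraMap k Z)).toAlgebra
  have tow : IsScalarTower k Z P0 := IsScalarTower.of_algebraMap_eq fun c => rfl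
  refine ⟨P, P0, inferInstance, algk, algZ, tow, B, κ, hPS, h1, h2, ?_, ?_⟩
  · intro v
    obtain ⟨h, he⟩ := h3 (v ⊗ₜ[k] 1)
    have e1 : i ((v : Z) ⊗ₜ[k] 1) = i (jj P.V (v ⊗ₜ[k] 1)) := by rw [jj_tmul]
    have e2 : i ((v : Z) ⊗ₜ[k] 1) ∈ B := by rw [e1]; exact h
    refine ⟨e2, ?_⟩
    have e3 : (⟨i ((v : Z) ⊗ₜ[k] 1), e2⟩ : ↥B) = ⟨i (jj P.V (v ⊗ₜ[k] 1)), h⟩ := Subtype.ext e1
    rw [e3]
    refine he.trans ?_
    show σ (ev P (v ⊗ₜ[k] 1)) = σ (algebraMap k Z (P.α v))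
    rw [ev_tmul, mul_one]
  · intro z
    obtain ⟨h, he⟩ := h3 (1 ⊗ₜ[k] z)
    have e1 : i (1 ⊗ₜ[k] z) = i (jj P.V (1 ⊗ₜ[k] z)) := by rw [jj_tmul]; rfl
    have e2 : i (1 ⊗ₜ[k] z) ∈ B := by rw [e1]; exact h
    refine ⟨e2, ?_⟩
    have e3 : (⟨i (1 ⊗ₜ[k] z), e2⟩ : ↥B) = ⟨i (jj P.V (1 ⊗ₜ[k] z)), h⟩ := Subtype.ext e1
    rw [e3]
    refine he.trans ?_
    show σ (ev P (1 ⊗ₜ[k] z)) = σ z
    rw [ev_tmul]
    simp

end Pool.Agent.Lib.MP_c37a72_al.CO
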