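import Pool.Agent.Lib.MP_c37a72_al.CO.Spec

/-!
# MP_c37a72_al, block CO: module SPN
-/

set_option autoImplicit false

open scoped TensorProduct
open Coalgebra HopfAlgebra
open Pool.Agent.Lib.MP_c37a72_al.EG

namespace Pool.Agent.Lib.MP_c37a72_al.CO

universe u v w

namespace SPNM

section coord

variable {k : Type u} {AA : Type w} {P : Type v} [Field k] [Ring AA] [Algebra k AA] [Field P]
  [Algebra k P]

/-- the contraction `(φ ⊗ 1) y` -/
noncomputable def cf (φ : AA →ₗ[k] k) : AA ⊗[k] P →ₗ[k] P :=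
  (TensorProduct.lid k P).toLinearMap ∘ₗ φ.rTensor P

@[simp] theorem cf_tmul (φ : AA →ₗ[k] k) (a : AA) (p : P) :
    cf φ (a ⊗ₜ[k] p) = φ a • p := by
  simp [cf]

theorem cf_mul (φ : AA →ₗ[k] k) (y : AA ⊗[k] P) (p : P) :
    cf φ (y * (1 ⊗ₜ[k] p)) = cf φ y * p := by
  induction y using TensorProduct.induction_on with
  | zero => simp
  | tmul a q => simp
  | add x y hx hy => rw [add_mul, map_add, hx, hy, map_add, add_mul]

theorem one_tmul_comm (y : AA ⊗[k] P) (p : P) : (1 ⊗ₜ[k] p) * y = y * (1 ⊗ₜ[k] p) := by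
  induction y using TensorProduct.induction_on with
  | zero => simp
  | tmul b q => simp [mul_comm]
  | add x y hx hy => rw [mul_add, add_mul, hx, hy]

theorem map_mulP (g : AA →ₗ[k] AA) (y : AA ⊗[k] P) (p : P) :
    TensorProduct.map g (LinearMap.id : P →ₗ[k] P) (y * (1 ⊗ₜ[k] p)) =
      TensorProduct.map g (LinearMap.id : P →ₗ[k] P) y * (1 ⊗ₜ[k] p) := by
  induction y using TensorProduct.induction_on with
  | zero => simp
  | tmul b q => simp
  | add x y hx hy => rw [add_mul, map_add, hx, hy, map_add, add_mul]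

theorem expand {m : ℕ} (B : Module.Basis (Fin m) k AA) (y : AA ⊗[k] P) :
    y = ∑ l, B l ⊗ₜ[k] cf (B.coord l) y := by
  induction y using TensorProduct.induction_on with
  | zero => simp
  | tmul b q =>
    conv_lhs => rw [← B.sum_repr b, TensorProduct.sum_tmul]
    refine Finset.sum_congr rfl fun l _ => ?_
    rw [cf_tmul, TensorProduct.smul_tmul]
    rfl
  | add x y hx hy =>
    conv_lhs => rw [hx, hy]
    rw [← Finset.sum_add_distrib]
    refine Finset.sum_congr rfl fun l _ => ?_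
    rw [map_add, TensorProduct.tmul_add]

end coord

end SPNM

open SPNM in
theorem specSPN (hDNS : SpecDNS.{u, v}) (hOPP : SpecOPP.{u, v}) : SpecSPN.{u, v, w} := by
  intro k H Z Q _ _ _ _ _ _ _ _ _ ι AA P _ _ _ _ _ _ ρ ψ hQ hc
  have := hQ.fin
  have := hc.finA
  have h2 : Module.Finite Z ↥(Opp k Z ι) :=
    inferInstanceAs (Module.Finite Z ↥(Subalgebra.toSubmodule (Opp k Z ι)))
  obtain ⟨m, hm, ⟨B⟩, ⟨X⟩⟩ : ∃ m : ℕ, Module.finrank Z ↥(Opp k Z ι) = m ∧
      Nonempty (Module.Basis (Fin m) k AA) ∧ Nonempty (Module.Basis (Fin m) Z ↥(Opp k Z ι)) :=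
    ⟨_, rfl, ⟨Module.finBasisOfFinrankEq k AA hc.dim⟩, ⟨Module.finBasis Z _⟩⟩
  obtain ⟨hstab, -, -⟩ := hOPP k H Z Q ι hQ
  have hnt : Nontrivial AA := by
    have h3 : 0 < Module.finrank k AA := by
      rw [hc.dim]
      exact Module.finrank_pos
    exact Module.nontrivial_of_finrank_pos h3
  -- the action of a `Z`-linear map
  have act : ∀ (q : Fin m → P), ∑ i, ψ (X i) * (1 ⊗ₜ[k] q i) = 0 →
      ∀ φ : ↥(Opp k Z ι) →ₗ[Z] ↥(Opp k Z ι), ∑ i, ψ (φ (X i)) * (1 ⊗ₜ[k] q i) = 0 := by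
    intro q hq φ
    obtain ⟨n, h, b, hb⟩ := hDNS k H Z Q ι hQ φ
    have e : ∀ x : ↥(Opp k Z ι), ψ (φ x) =
        ∑ j, TensorProduct.map (ρ (h j)) (LinearMap.id : P →ₗ[k] P) (ψ x) * ψ (b j) := by
      intro x
      have e1 : φ x = ∑ j, (⟨adrQ k Z ι (h j) x, hstab (h j) x x.2⟩ : ↥(Opp k Z ι)) * b j := by
        apply Subtype.ext
        rw [hb x, AddSubmonoidClass.coe_finsetSum]
        rfl
      rw [e1, map_sum]
      refine Finset.sum_congr rfl fun j _ => ?_
      rw [map_mul, hc.psiH (h j) x ⟨adrQ k Z ι (h j) x, hstab (h j) x x.2⟩ rfl]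
    have e2 : ∑ i, ψ (φ (X i)) * (1 ⊗ₜ[k] q i) =
        ∑ j, TensorProduct.map (ρ (h j)) (LinearMap.id : P →ₗ[k] P)
          (∑ i, ψ (X i) * (1 ⊗ₜ[k] q i)) * ψ (b j) := by
      simp only [e, Finset.sum_mul, map_sum]
      rw [Finset.sum_comm]
      refine Finset.sum_congr rfl fun j _ => ?_
      refine Finset.sum_congr rfl fun i _ => ?_
      rw [map_mulP, mul_assoc, mul_assoc, one_tmul_comm]
    rw [e2, hq]
    simp
  have indep : ∀ (q : Fin m → P), ∑ i, ψ (X i) * (1 ⊗ₜ[k] q i) = 0 → q = 0 := by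
    intro q hq
    ext l
    have h3 := act q hq ((LinearMap.toSpanSingleton Z ↥(Opp k Z ι) 1) ∘ₗ X.coord l)
    have h4 : ∀ i, ((LinearMap.toSpanSingleton Z ↥(Opp k Z ι) 1) ∘ₗ X.coord l) (X i) =
        if i = l then 1 else 0 := by
      intro i
      simp [LinearMap.toSpanSingleton_apply, Module.Basis.coord_apply, Finsupp.single_apply]
    simp only [h4] at h3
    rw [Finset.sum_eq_single l (by
      intro i _ hi
      rw [if_neg hi, map_zero, zero_mul]) (by simp)] at h3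
    rw [if_pos rfl, map_one, one_mul] at h3
    have h5 : Function.Injective (Algebra.TensorProduct.includeRight : P →ₐ[k] AA ⊗[k] P) :=
      Algebra.TensorProduct.includeRight_injective (algebraMap k AA).injective
    apply h5
    rw [Pi.zero_apply, map_zero]
    exact h3
  -- the matrix
  let C : Matrix (Fin m) (Fin m) P := Matrix.of fun l i => cf (B.coord l) (ψ (X i))
  have hCi : ∀ q : Fin m → P, C.mulVec q = 0 → q = 0 := by
    intro q hq
    apply indep
    rw [expand B (∑ i, ψ (X i) * (1 ⊗ₜ[k] q i))]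
    refine Finset.sum_eq_zero fun l _ => ?_
    have h3 : cf (B.coord l) (∑ i, ψ (X i) * (1 ⊗ₜ[k] q i)) = 0 := by
      rw [map_sum]
      simp only [cf_mul]
      exact congrFun hq l
    rw [h3, TensorProduct.tmul_zero]
  have hdet : C.det ≠ 0 := by
    intro h0
    obtain ⟨q, hq, hq0⟩ := Matrix.exists_mulVec_eq_zero_iff.2 h0
    exact hq (hCi q hq0)
  have hunit : IsUnit C := (Matrix.isUnit_iff_isUnit_det C).2 (isUnit_iff_ne_zero.2 hdet)
  obtain ⟨D, hD⟩ := hunit.exists_right_inv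
  have hB : ∀ l : Fin m, (B l ⊗ₜ[k] (1 : P) : AA ⊗[k] P) = ∑ i, ψ (X i) * (1 ⊗ₜ[k] D i l) := by
    intro l
    rw [expand B (∑ i, ψ (X i) * (1 ⊗ₜ[k] D i l))]
    have h3 : ∀ l', cf (B.coord l') (∑ i, ψ (X i) * (1 ⊗ₜ[k] D i l)) = if l' = l then 1 else 0 := by
      intro l'
      rw [map_sum]
      simp only [cf_mul]
      have := congrFun (congrFun hD l') l
      rw [Matrix.mul_apply, Matrix.one_apply] at this
      exact this
    simp only [h3]
    rw [Finset.sum_eq_single l (by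
      intro i _ hi
      rw [if_neg hi, TensorProduct.tmul_zero]) (by simp)]
    rw [if_pos rfl]
  rw [eq_top_iff]
  intro y _
  rw [expand B y]
  refine Submodule.sum_mem _ fun l _ => ?_
  have h3 : (B l ⊗ₜ[k] cf (B.coord l) y : AA ⊗[k] P) =
      ∑ i, ψ (X i) * (1 ⊗ₜ[k] (D i l * cf (B.coord l) y)) := by
    have h4 : (B l ⊗ₜ[k] cf (B.coord l) y : AA ⊗[k] P) =
        (B l ⊗ₜ[k] (1 : P)) * (1 ⊗ₜ[k] cf (B.coord l) y) := by simp
    rw [h4, hB l, Finset.sum_mul]
    refine Finset.sum_congr rfl fun i _ => ?_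
    rw [mul_assoc, Algebra.TensorProduct.tmul_mul_tmul, one_mul]
  rw [h3]
  refine Submodule.sum_mem _ fun i _ => ?_
  exact Submodule.subset_span ⟨X i, _, rfl⟩

end Pool.Agent.Lib.MP_c37a72_al.CO
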