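import Pool.Agent.Lib.MP_c37a72_al.CO.Spec

/-!
# MP_c37a72_al, block CO, module SQX: the antipode extends to `Q`
-/

set_option autoImplicit false

open scoped TensorProduct
open Coalgebra HopfAlgebra
open Pool.Agent.Lib.MP_c37a72_al.EG

namespace Pool.Agent.Lib.MP_c37a72_al.CO

universe u v w

namespace SQXM

variable {k : Type u} {H Z Q : Type v} [Field k] [Ring H] [HopfAlgebra k H] [Field Z] [Algebra k Z]
  [DivisionRing Q] [Algebra k Q] [Algebra Z Q] [IsScalarTower k Z Q] {ι : H →ₐ[k] Q}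

lemma ne_zero (hQ : IsCQ k H Z Q ι) {c : H} (hc : c ≠ 0) : ι c ≠ 0 := fun h =>
  hc (hQ.inj (by rw [h, map_zero]))

lemma central (hQ : IsCQ k H Z Q ι) {c : H} (hc : Cent c) (q : Q) : ι c * q = q * ι c := by
  obtain ⟨d, h, hd, hdc, e⟩ := hQ.frac q
  have hd' := ne_zero hQ hd
  apply mul_left_cancel₀ hd'
  calc ι d * (ι c * q) = ι c * (ι d * q) := by
        rw [← mul_assoc, ← map_mul, hc d, map_mul, mul_assoc]
    _ = ι d * q * ι c := by rw [e, ← map_mul, ← map_mul, hc h]
    _ = ι d * (q * ι c) := by rw [mul_assoc]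

lemma S_cent (hb : Function.Bijective (antipode k (A := H))) {c : H} (hc : Cent c) :
    Cent (antipode k c) := by
  intro x
  obtain ⟨y, rfl⟩ := hb.2 x
  rw [← antipode_mul_antidistrib, ← antipode_mul_antidistrib, hc y]

lemma S_cent' (hb : Function.Bijective (antipode k (A := H))) {c : H}
    (hc : Cent (antipode k c)) : Cent c := by
  intro x
  apply hb.1
  rw [antipode_mul_antidistrib, antipode_mul_antidistrib, hc]

lemma S_ne (hb : Function.Bijective (antipode k (A := H))) {c : H} (hc : c ≠ 0) :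
    antipode k c ≠ 0 := fun h => hc (hb.1 (by rw [h, map_zero]))

/-- the extension of the antipode -/
noncomputable def s (hQ : IsCQ k H Z Q ι) (q : Q) : Q :=
  ι (antipode k (hQ.frac q).choose_spec.choose) * (ι (antipode k (hQ.frac q).choose))⁻¹

lemma s_spec (hQ : IsCQ k H Z Q ι) (hb : Function.Bijective (antipode k (A := H))) {q : Q}
    {c h : H} (hc : c ≠ 0) (hcc : Cent c) (e : ι c * q = ι h) :
    s hQ q * ι (antipode k c) = ι (antipode k h) := by
  obtain ⟨hd, hdc, e'⟩ := (hQ.frac q).choose_spec.choose_spec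
  set d := (hQ.frac q).choose
  set g := (hQ.frac q).choose_spec.choose
  have hs : s hQ q = ι (antipode k g) * (ι (antipode k d))⁻¹ := rfl
  have hd' := ne_zero hQ (S_ne hb hd)
  have hgh : c * g = d * h := by
    apply hQ.inj
    rw [map_mul, map_mul, ← e, ← e', ← mul_assoc, ← mul_assoc, ← map_mul, ← map_mul, hcc d]
  have hgh' : antipode k g * antipode k c = antipode k h * antipode k d := by
    rw [← antipode_mul_antidistrib, ← antipode_mul_antidistrib, hgh]
  apply mul_right_cancel₀ hd'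
  calc s hQ q * ι (antipode k c) * ι (antipode k d)
      = ι (antipode k g) * (ι (antipode k d))⁻¹ * ι (antipode k d) * ι (antipode k c) := by
        rw [hs, mul_assoc _ (ι (antipode k c)), central hQ (S_cent hb hcc), ← mul_assoc]
    _ = ι (antipode k g) * ι (antipode k c) := by
        rw [mul_assoc (ι (antipode k g)), inv_mul_cancel₀ hd', mul_one]
    _ = ι (antipode k h) * ι (antipode k d) := by rw [← map_mul, hgh', map_mul]

lemma s_eq (hQ : IsCQ k H Z Q ι) (hb : Function.Bijective (antipode k (A := H))) {q q' : Q}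
    {c h : H} (hc : c ≠ 0) (hcc : Cent c) (e : ι c * q = ι h)
    (e' : q' * ι (antipode k c) = ι (antipode k h)) : s hQ q = q' := by
  apply mul_right_cancel₀ (ne_zero hQ (S_ne hb hc))
  rw [s_spec hQ hb hc hcc e, e']

lemma mul_ne (hQ : IsCQ k H Z Q ι) {c d : H} (hc : c ≠ 0) (hd : d ≠ 0) : c * d ≠ 0 := by
  intro h
  have := congrArg ι h
  rw [map_mul, map_zero] at this
  exact mul_ne_zero (ne_zero hQ hc) (ne_zero hQ hd) this

lemma cent_mul {c d : H} (hc : Cent c) (hd : Cent d) : Cent (c * d) := by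
  intro x
  rw [← mul_assoc, hc x, mul_assoc, hd x, ← mul_assoc]

lemma s_add (hQ : IsCQ k H Z Q ι) (hb : Function.Bijective (antipode k (A := H))) (p q : Q) :
    s hQ (p + q) = s hQ p + s hQ q := by
  obtain ⟨c, g, hc, hcc, e⟩ := hQ.frac p
  obtain ⟨d, h, hd, hdc, f⟩ := hQ.frac q
  have e1 : ι (c * d) * p = ι (d * g) := by
    rw [hdc c, map_mul, mul_assoc, e, map_mul]
  have f1 : ι (c * d) * q = ι (c * h) := by
    rw [map_mul, mul_assoc, f, map_mul]
  refine s_eq hQ hb (mul_ne hQ hc hd) (cent_mul hcc hdc) (h := d * g + c * h) ?_ ?_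
  · rw [mul_add, e1, f1, map_add]
  · rw [add_mul, s_spec hQ hb (mul_ne hQ hc hd) (cent_mul hcc hdc) e1,
      s_spec hQ hb (mul_ne hQ hc hd) (cent_mul hcc hdc) f1, map_add, map_add]

lemma s_smul (hQ : IsCQ k H Z Q ι) (hb : Function.Bijective (antipode k (A := H))) (r : k) (q : Q) :
    s hQ (r • q) = r • s hQ q := by
  obtain ⟨d, h, hd, hdc, f⟩ := hQ.frac q
  refine s_eq hQ hb hd hdc (h := r • h) ?_ ?_
  · rw [mul_smul_comm, f, map_smul]
  · rw [smul_mul_assoc, s_spec hQ hb hd hdc f, map_smul, map_smul]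

lemma s_mul (hQ : IsCQ k H Z Q ι) (hb : Function.Bijective (antipode k (A := H))) (p q : Q) :
    s hQ (p * q) = s hQ q * s hQ p := by
  obtain ⟨c, g, hc, hcc, e⟩ := hQ.frac p
  obtain ⟨d, h, hd, hdc, f⟩ := hQ.frac q
  refine s_eq hQ hb (mul_ne hQ hc hd) (cent_mul hcc hdc) (h := g * h) ?_ ?_
  · rw [map_mul, mul_assoc, ← mul_assoc (ι d), central hQ hdc p, mul_assoc p, ← mul_assoc, e, f,
      map_mul]
  · rw [antipode_mul_antidistrib, antipode_mul_antidistrib, map_mul, map_mul,
      ← s_spec hQ hb hc hcc e, ← s_spec hQ hb hd hdc f, mul_assoc (s hQ q) (s hQ p),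
      ← mul_assoc (s hQ p), ← central hQ (S_cent hb hdc) (s hQ p)]
    simp only [mul_assoc]

lemma s_ext (hQ : IsCQ k H Z Q ι) (hb : Function.Bijective (antipode k (A := H))) (h : H) :
    s hQ (ι h) = ι (antipode k h) := by
  have h1 : (1 : H) ≠ 0 := by
    intro h
    have := congrArg ι h
    rw [map_one, map_zero] at this
    exact one_ne_zero this
  refine s_eq hQ hb (c := 1) (h := h) h1 (fun x => by rw [mul_one, one_mul]) ?_ ?_
  · rw [map_one, one_mul]
  · rw [antipode_one, map_one, mul_one]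

/-- the extension of the antipode, linear -/
noncomputable def sL (hQ : IsCQ k H Z Q ι) (hb : Function.Bijective (antipode k (A := H))) :
    Q →ₗ[k] Q where
  toFun := s hQ
  map_add' := s_add hQ hb
  map_smul' := s_smul hQ hb

lemma s_inj (hQ : IsCQ k H Z Q ι) (hb : Function.Bijective (antipode k (A := H))) :
    Function.Injective (sL hQ hb) := by
  rw [injective_iff_map_eq_zero]
  intro q hq
  have hq' : s hQ q = 0 := hq
  obtain ⟨d, h, hd, hdc, f⟩ := hQ.frac q
  have h1 := s_spec hQ hb hd hdc f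
  rw [hq', zero_mul] at h1
  have h2 : h = 0 := by
    by_contra hh
    exact ne_zero hQ (S_ne hb hh) h1.symm
  rw [h2, map_zero] at f
  exact (mul_eq_zero.1 f).resolve_left (ne_zero hQ hd)

lemma s_surj (hQ : IsCQ k H Z Q ι) (hb : Function.Bijective (antipode k (A := H))) :
    Function.Surjective (sL hQ hb) := by
  intro q
  obtain ⟨d, h, hd, hdc, f⟩ := hQ.frac q
  obtain ⟨d₀, rfl⟩ := hb.2 d
  obtain ⟨h₀, rfl⟩ := hb.2 h
  have hd₀ : d₀ ≠ 0 := by
    rintro rfl
    exact hd (map_zero _)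
  refine ⟨(ι d₀)⁻¹ * ι h₀, ?_⟩
  refine s_eq hQ hb hd₀ (S_cent' hb hdc) (h := h₀) ?_ ?_
  · rw [← mul_assoc, mul_inv_cancel₀ (ne_zero hQ hd₀), one_mul]
  · rw [← central hQ hdc, f]

end SQXM

open SQXM in
theorem specSQX : SpecSQX.{u, v} := by
  intro k H Z Q _ _ _ _ _ _ _ _ _ ι hQ hb
  have hmul : ∀ a b : Q, sL hQ hb (a * b) = sL hQ hb b * sL hQ hb a := s_mul hQ hb
  have hone : sL hQ hb 1 = 1 := by
    have := s_ext hQ hb (1 : H)
    rw [map_one, antipode_one, map_one] at this
    exact this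
  have hZ : ∀ z : Z, ∃ z' : Z, algebraMap Z Q z' = sL hQ hb (algebraMap Z Q z) := by
    intro z
    refine hQ.cent _ fun x => ?_
    obtain ⟨y, rfl⟩ := s_surj hQ hb x
    rw [← hmul, ← hmul, Algebra.commutes]
  choose t ht using hZ
  have hinj : Function.Injective (algebraMap Z Q) := (algebraMap Z Q).injective
  let sZ : Z →ₐ[k] Z :=
    { toFun := t
      map_one' := hinj (by rw [ht, map_one, hone])
      map_mul' := fun a b => hinj (by
        rw [ht, map_mul, hmul, map_mul, ht, ht, ← ht a, ← Algebra.commutes])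
      map_zero' := hinj (by rw [ht, map_zero, map_zero])
      map_add' := fun a b => hinj (by rw [ht, map_add, map_add, map_add, ht, ht])
      commutes' := fun r => hinj (by
        rw [ht, ← IsScalarTower.algebraMap_apply, Algebra.algebraMap_eq_smul_one, map_smul, hone]) }
  have hbij : Function.Bijective sZ := by
    constructor
    · exact (sZ : Z →+* Z).injective
    · intro z
      obtain ⟨q, hq⟩ := s_surj hQ hb (algebraMap Z Q z)
      obtain ⟨z₀, hz₀⟩ := hQ.cent q fun x => s_inj hQ hb (by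
        rw [hmul, hmul, hq, Algebra.commutes])
      refine ⟨z₀, hinj ?_⟩
      have : algebraMap Z Q (t z₀) = sL hQ hb (algebraMap Z Q z₀) := ht z₀
      rw [hz₀, hq] at this
      exact this
  refine ⟨sL hQ hb, AlgEquiv.ofBijective sZ hbij, ?_⟩
  exact
    { mul := hmul
      ext := s_ext hQ hb
      bij := ⟨s_inj hQ hb, s_surj hQ hb⟩
      zz := fun z => (ht z).symm }

end Pool.Agent.Lib.MP_c37a72_al.CO
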