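import Pool.Agent.Lib.MP_c37a72_al.CO.Spec

/-!
# UNI: the `o_i ⊗ 1` are independent over the commutant of `Δ(H)`
-/

set_option autoImplicit false

open scoped TensorProduct
open Coalgebra HopfAlgebra
open Pool.Agent.Lib.MP_c37a72_al.EG

namespace Pool.Agent.Lib.MP_c37a72_al.CO

universe u v w

namespace UNIM

section

variable {k : Type u} (Z : Type v) {H Q : Type v} [Field k] [Ring H] [HopfAlgebra k H]
  [Field Z] [Algebra k Z] [DivisionRing Q] [Algebra k Q] [Algebra Z Q] [IsScalarTower k Z Q]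
  (ι : H →ₐ[k] Q)

/-- `q ⊗ r ↦ S(q) a r` -/
noncomputable def M (a : Q) : H ⊗[k] H →ₗ[k] Q :=
  LinearMap.mul' k Q ∘ₗ TensorProduct.map
    (LinearMap.mulRight k a ∘ₗ ι.toLinearMap ∘ₗ antipode k) ι.toLinearMap

@[simp] theorem M_tmul (a : Q) (q r : H) :
    M ι a (q ⊗ₜ[k] r) = ι (antipode k q) * a * ι r := by
  simp [M]

theorem M_comul (a : Q) (h : H) : M ι a (comul (R := k) h) = adrQ k Z ι h a := by
  rw [adrQ_repr k Z ι (ℛ k h) a, ← (ℛ k h).eq, map_sum]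
  exact Finset.sum_congr rfl fun i _ => M_tmul ι a _ _

/-- `x ⊗ y ↦ Δ(S x) w (y ⊗ 1)` -/
noncomputable def F (w : Q ⊗[k] Q) : H ⊗[k] H →ₗ[k] Q ⊗[k] Q :=
  LinearMap.mul' k (Q ⊗[k] Q) ∘ₗ TensorProduct.map
    (LinearMap.mulRight k w ∘ₗ (dd k ι).toLinearMap ∘ₗ antipode k)
    ((TensorProduct.mk k Q Q).flip 1 ∘ₗ ι.toLinearMap)

@[simp] theorem F_tmul (w : Q ⊗[k] Q) (x y : H) :
    F ι w (x ⊗ₜ[k] y) = dd k ι (antipode k x) * w * (ι y ⊗ₜ[k] 1) := by
  simp [F]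

/-- `p ⊗ (q ⊗ r) ↦ S(q) a r ⊗ S(p)` -/
noncomputable def G (a : Q) : H ⊗[k] (H ⊗[k] H) →ₗ[k] Q ⊗[k] Q :=
  (TensorProduct.comm k Q Q).toLinearMap ∘ₗ
    TensorProduct.map (ι.toLinearMap ∘ₗ antipode k) (M ι a)

@[simp] theorem G_tmul (a : Q) (p : H) (u : H ⊗[k] H) :
    G ι a (p ⊗ₜ[k] u) = M ι a u ⊗ₜ[k] ι (antipode k p) := by
  simp [G]

/-- `p ⊗ q ↦ (a ◁ q) ⊗ S(p)` -/
noncomputable def N (a : Q) : H ⊗[k] H →ₗ[k] Q ⊗[k] Q :=
  (TensorProduct.comm k Q Q).toLinearMap ∘ₗ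
    TensorProduct.map (ι.toLinearMap ∘ₗ antipode k) (M ι a ∘ₗ comul)

@[simp] theorem N_tmul (a : Q) (p q : H) :
    N ι a (p ⊗ₜ[k] q) = M ι a (comul (R := k) q) ⊗ₜ[k] ι (antipode k p) := by
  simp [N]

theorem aux1 (a : Q) (u : H ⊗[k] H) (y : H) :
    TensorProduct.map ι.toLinearMap ι.toLinearMap
      (TensorProduct.comm k H H (TensorProduct.map (antipode k) (antipode k) u)) *
      (a ⊗ₜ[k] (1 : Q)) * (ι y ⊗ₜ[k] (1 : Q)) =
    G ι a (TensorProduct.assoc k H H H (u ⊗ₜ[k] y)) := by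
  induction u with
  | zero => simp
  | tmul p q => simp [Algebra.TensorProduct.tmul_mul_tmul]
  | add u v hu hv =>
    rw [TensorProduct.add_tmul, map_add, map_add, map_add, map_add, map_add, add_mul, add_mul,
      hu, hv]

theorem dd_eq (h : H) : dd k ι h = TensorProduct.map ι.toLinearMap ι.toLinearMap
    (comul (R := k) h) := rfl

theorem F_eq (hHAN : SpecHAN.{u, v}) (a : Q) (h : H) :
    F ι (a ⊗ₜ[k] 1) (comul (R := k) h) = N ι a (comul (R := k) h) := by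
  have h1 : ∀ x y : H, F ι (a ⊗ₜ[k] 1) (x ⊗ₜ[k] y) =
      G ι a (TensorProduct.assoc k H H H (comul (R := k) x ⊗ₜ[k] y)) := by
    intro x y
    rw [F_tmul, dd_eq, hHAN k H x, aux1]
  have h2 : F ι (a ⊗ₜ[k] 1) = G ι a ∘ₗ (TensorProduct.assoc k H H H).toLinearMap ∘ₗ
      (comul (R := k) (A := H)).rTensor H := by
    refine TensorProduct.ext' fun x y => ?_
    rw [h1]
    rfl
  have h3 : N ι a = G ι a ∘ₗ (comul (R := k) (A := H)).lTensor H := by
    refine TensorProduct.ext' fun x y => ?_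
    rw [N_tmul, LinearMap.comp_apply, LinearMap.lTensor_tmul, G_tmul]
  rw [h2, h3]
  simp only [LinearMap.comp_apply, LinearEquiv.coe_coe]
  rw [Coalgebra.coassoc_apply]

/-- `p ⊗ q ↦ S(S(p) q)` -/
noncomputable def K : H ⊗[k] H →ₗ[k] Q :=
  ι.toLinearMap ∘ₗ antipode k ∘ₗ LinearMap.mul' k H ∘ₗ (antipode k).rTensor H

@[simp] theorem K_tmul (p q : H) :
    K ι (p ⊗ₜ[k] q) = ι (antipode k q) * ι (antipode k (antipode k p)) := by
  simp [K, antipode_mul_antidistrib]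

theorem K_comul (x : H) : K ι (comul (R := k) x) = algebraMap k Q (counit (R := k) x) := by
  unfold K
  simp only [LinearMap.comp_apply]
  rw [mul_antipode_rTensor_comul_apply, Algebra.algebraMap_eq_smul_one, map_smul, antipode_one,
    map_smul]
  simp [Algebra.algebraMap_eq_smul_one]

/-- `p ⊗ (q ⊗ r) ↦ (a ◁ r) ⊗ S(q) S(S(p))` -/
noncomputable def G' (a : Q) : H ⊗[k] (H ⊗[k] H) →ₗ[k] Q ⊗[k] Q :=
  (TensorProduct.comm k Q Q).toLinearMap ∘ₗ
    TensorProduct.map (K ι) (M ι a ∘ₗ comul) ∘ₗ (TensorProduct.assoc k H H H).symm.toLinearMap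

theorem aux2 (a : Q) (p : H) (u : H ⊗[k] H) :
    N ι a u * ((1 : Q) ⊗ₜ[k] ι (antipode k (antipode k p))) = G' ι a (p ⊗ₜ[k] u) := by
  induction u with
  | zero => simp
  | tmul q r => simp [G', Algebra.TensorProduct.tmul_mul_tmul]
  | add u v hu hv => rw [TensorProduct.tmul_add, map_add, map_add, add_mul, hu, hv]

theorem aux3 (a : Q) (h : H) :
    G' ι a ((comul (R := k) (A := H)).lTensor H (comul (R := k) h)) =
      M ι a (comul (R := k) h) ⊗ₜ[k] (1 : Q) := by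
  rw [← Coalgebra.coassoc_apply]
  unfold G'
  simp only [LinearMap.comp_apply, LinearEquiv.coe_coe, LinearEquiv.symm_apply_apply]
  have h1 : ∀ u : H ⊗[k] H, (TensorProduct.comm k Q Q)
      (TensorProduct.map (K ι) (M ι a ∘ₗ comul (R := k))
        ((comul (R := k) (A := H)).rTensor H u)) =
      M ι a (comul (R := k) (TensorProduct.lid k H ((counit (R := k) (A := H)).rTensor H u)))
        ⊗ₜ[k] (1 : Q) := by
    intro u
    induction u with
    | zero => simp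
    | tmul x y =>
      rw [LinearMap.rTensor_tmul, TensorProduct.map_tmul, K_comul, TensorProduct.comm_tmul,
        LinearMap.rTensor_tmul, TensorProduct.lid_tmul, map_smul, map_smul,
        Algebra.algebraMap_eq_smul_one, TensorProduct.tmul_smul, TensorProduct.smul_tmul']
      rfl
    | add u v hu hv =>
      rw [map_add, map_add, map_add, hu, hv, map_add, map_add, map_add, map_add,
        TensorProduct.add_tmul]
  rw [h1, Coalgebra.rTensor_counit_comul, TensorProduct.lid_tmul, one_smul]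

/-- the main formula -/
theorem main (hHAN : SpecHAN.{u, v}) (a : Q) (h : H) :
    adrQ k Z ι h a ⊗ₜ[k] (1 : Q) = ∑ i ∈ (ℛ k h).index,
      F ι (a ⊗ₜ[k] 1) (comul (R := k) ((ℛ k h).right i)) *
        ((1 : Q) ⊗ₜ[k] ι (antipode k (antipode k ((ℛ k h).left i)))) := by
  rw [← M_comul Z ι a h, ← aux3 ι a h]
  conv_lhs => rw [← (ℛ k h).eq]
  rw [map_sum, map_sum]
  refine Finset.sum_congr rfl fun i _ => ?_
  rw [LinearMap.lTensor_tmul, ← aux2, F_eq ι hHAN]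

theorem kill {m : ℕ} (s w : Fin m → Q ⊗[k] Q) (hs : ∀ i, ∀ h : H, s i * dd k ι h = dd k ι h * s i)
    (h0 : ∑ i, s i * w i = 0) (u : H ⊗[k] H) : ∑ i, s i * F ι (w i) u = 0 := by
  induction u with
  | zero => simp
  | tmul x y =>
    have : ∀ i, s i * F ι (w i) (x ⊗ₜ[k] y) =
        dd k ι (antipode k x) * (s i * w i) * (ι y ⊗ₜ[k] 1) := by
      intro i
      rw [F_tmul, ← mul_assoc, ← mul_assoc, hs i, mul_assoc (dd k ι (antipode k x))]
    simp only [this]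
    rw [← Finset.sum_mul, ← Finset.mul_sum, h0, mul_zero, zero_mul]
  | add u v hu hv =>
    simp only [map_add, mul_add]
    rw [Finset.sum_add_distrib, hu, hv, add_zero]

theorem step1 (hHAN : SpecHAN.{u, v}) {m : ℕ} (s : Fin m → Q ⊗[k] Q) (o : Fin m → Q)
    (hs : ∀ i, ∀ h : H, s i * dd k ι h = dd k ι h * s i)
    (h0 : ∑ i, s i * (o i ⊗ₜ[k] (1 : Q)) = 0) (h : H) :
    ∑ i, s i * (adrQ k Z ι h (o i) ⊗ₜ[k] (1 : Q)) = 0 := by
  have h1 : ∀ i, s i * (adrQ k Z ι h (o i) ⊗ₜ[k] (1 : Q)) = ∑ j ∈ (ℛ k h).index,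
      s i * F ι (o i ⊗ₜ[k] 1) (comul (R := k) ((ℛ k h).right j)) *
        ((1 : Q) ⊗ₜ[k] ι (antipode k (antipode k ((ℛ k h).left j)))) := by
    intro i
    rw [main Z ι hHAN, Finset.mul_sum]
    exact Finset.sum_congr rfl fun j _ => (mul_assoc _ _ _).symm
  simp only [h1]
  rw [Finset.sum_comm]
  apply Finset.sum_eq_zero
  intro j _
  rw [← Finset.sum_mul, kill ι s (fun i => o i ⊗ₜ[k] 1) hs h0, zero_mul]

end

end UNIM

/-- **UNI**. -/
theorem specUNI (hHAN : SpecHAN.{u, v}) (hDNS : SpecDNS.{u, v}) : SpecUNI.{u, v} := by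
  intro k H Z Q _ _ _ _ _ _ _ _ _ ι hQ m o s hs h0 l
  have h1 := UNIM.step1 Z ι hHAN s (fun i => (o i : Q)) hs h0
  obtain ⟨n, h, b, hb⟩ := hDNS k H Z Q ι hQ
    ((o.coord l).smulRight (1 : ↥(Opp k Z ι)))
  have h2 : ∀ i, ((if i = l then (1 : Q) else 0)) = ∑ j, adrQ k Z ι (h j) (o i : Q) * (b j : Q) := by
    intro i
    rw [← hb (o i), LinearMap.smulRight_apply, Module.Basis.coord_apply, Module.Basis.repr_self,
      Finsupp.single_apply]
    split_ifs with hi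
    · simp
    · simp
  have h3 : ∑ i, s i * ((if i = l then (1 : Q) else 0) ⊗ₜ[k] (1 : Q)) = 0 := by
    have h4 : ∀ i, s i * ((if i = l then (1 : Q) else 0) ⊗ₜ[k] (1 : Q)) =
        ∑ j, s i * (adrQ k Z ι (h j) (o i : Q) ⊗ₜ[k] (1 : Q)) * ((b j : Q) ⊗ₜ[k] (1 : Q)) := by
      intro i
      rw [h2 i, TensorProduct.sum_tmul, Finset.mul_sum]
      refine Finset.sum_congr rfl fun j _ => ?_
      rw [mul_assoc, Algebra.TensorProduct.tmul_mul_tmul, mul_one]
    simp only [h4]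
    rw [Finset.sum_comm]
    apply Finset.sum_eq_zero
    intro j _
    rw [← Finset.sum_mul, h1 (h j), zero_mul]
  rw [Finset.sum_eq_single l] at h3
  · rw [if_pos rfl, ← Algebra.TensorProduct.one_def, mul_one] at h3
    exact h3
  · intro i _ hi
    rw [if_neg hi, TensorProduct.zero_tmul, mul_zero]
  · intro hl
    exact absurd (Finset.mem_univ l) hl

end Pool.Agent.Lib.MP_c37a72_al.CO
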