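import Pool.Agent.Lib.MP_c37a72_al.CO.Base

/-!
# MP_c37a72_al, block CO (constancy): Specs

Result of the block: for a Noetherian PI Hopf domain `H` with bijective antipode over an algebraically
closed field `k` of characteristic `0` there is a constancy package `CPkg` (theorem `specCPK`, file
`CPK.lean`, assembled from the Specs below).

Module `XXX` is the file `Pool/Agent/Lib/MP_c37a72_al/CO/XXX.lean`, which imports
`Pool.Agent.Lib.MP_c37a72_al.CO.Spec`, with `theorem specXXX (hYYY : SpecYYY) .. : SpecXXX` in the namespace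
`Pool.Agent.Lib.MP_c37a72_al.CO`; every Spec of this file, of `EG/Spec.lean` (namespace `EG`), `SpecH.lean`
and `SpecP.lean` may be taken as a hypothesis; own lemmas in the namespace
`Pool.Agent.Lib.MP_c37a72_al.CO.XXXM`.

Notation: `Δ h = h₁ ⊗ h₂`, `S` the antipode, `h ▷ q = adlQ h q = h₁ q S(h₂)`,
`q ◁ h = adrQ h q = S(h₁) q h₂`, `O_l, O_r, O' = Op = C(O_r), O'' = Opp = C(O_l)`, `m = [O'' : Z]`.
EG.SpecADA, ADB, OLF, OPP, DNS are the basic facts on these.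
-/

set_option autoImplicit false

open scoped TensorProduct
open Coalgebra HopfAlgebra
open Pool.Agent.Lib.MP_c37a72_al.EG

namespace Pool.Agent.Lib.MP_c37a72_al.CO

universe u v w

/-! ## Part 1: the antipode on `Q`, dimensions -/

/-- **SQX** (150 lines). The antipode extends to `Q`.

PROOF. `S : H → H` is a bijective anti-homomorphism, so it maps central elements to central elements (and
every central element is `S` of a central one) and nonzero elements to nonzero elements. For `q ∈ Q` choose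
(`IsCQ.frac`) a central `0 ≠ c` and `h` with `ι c * q = ι h`, put `sQ q := ι(S h) ι(S c)⁻¹`. Well defined:
if also `c' q = h'` with `c'` central then `c' h = c' c q = c c' q = c h'` in `H` (`ι` is injective), so
`S(h) S(c') = S(h') S(c)`, and `S c, S c'` are central. Additive, `k`-linear and anti-multiplicative: two
elements have a common central denominator. Injective, surjective (`q = c⁻¹ h = h c⁻¹`, `S h₀ = h`,
`S c₀ = c`, `q = sQ(c₀⁻¹ h₀)`). `sQ` maps the centre of `Q` onto the centre of `Q`, which is the image of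
`Z` (`IsCQ.cent`; `algebraMap Z Q` is injective with central image): this defines `sZ`. -/
def SpecSQX : Prop :=
  ∀ (k : Type u) (H Z Q : Type v) [Field k] [Ring H] [HopfAlgebra k H] [Field Z] [Algebra k Z]
    [DivisionRing Q] [Algebra k Q] [Algebra Z Q] [IsScalarTower k Z Q] (ι : H →ₐ[k] Q),
    IsCQ k H Z Q ι → Function.Bijective (antipode k (A := H)) →
    ∃ (sQ : Q →ₗ[k] Q) (sZ : Z ≃ₐ[k] Z), IsSQ k Z ι sQ sZ

/-- **ADS** (120 lines). `sQ` exchanges the two sides.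

PROOF. `sQ(S(h₁) q h₂) = S(h₂) sQ(q) S(S(h₁)) = S(h) ▷ sQ(q)` because `Δ(S h) = S(h₂) ⊗ S(h₁)` (SpecHAN).
`sQ(h₁ q S(h₂)) = S(S(h₂)) sQ(q) S(h₁) = sQ(q) ◁ S(h)`. So, `S` and `sQ` being bijective, `q` is locally
finite for `▷` iff `sQ q` is for `◁`, and the same the other way round; EG.SpecOLF says that `O_l, O_r` are
the sets of locally finite elements. `x` commutes with `O_l` iff `sQ x` commutes with `sQ(O_l) = O_r`; `x`
commutes with `O_r` iff `sQ x` commutes with `sQ(O_r) = O_l`. -/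
def SpecADS : Prop :=
  ∀ (k : Type u) (H Z Q : Type v) [Field k] [Ring H] [HopfAlgebra k H] [Field Z] [Algebra k Z]
    [DivisionRing Q] [Algebra k Q] [Algebra Z Q] [IsScalarTower k Z Q] (ι : H →ₐ[k] Q)
    (sQ : Q →ₗ[k] Q) (sZ : Z ≃ₐ[k] Z),
    IsCQ k H Z Q ι → Function.Bijective (antipode k (A := H)) → IsSQ k Z ι sQ sZ →
    (∀ (h : H) (q : Q), sQ (adrQ k Z ι h q) = adlQ k Z ι (antipode k h) (sQ q)) ∧
    (∀ (h : H) (q : Q), sQ (adlQ k Z ι h q) = adrQ k Z ι (antipode k h) (sQ q)) ∧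
    (∀ q : Q, sQ q ∈ Or k Z ι ↔ q ∈ Ol k Z ι) ∧ (∀ q : Q, sQ q ∈ Ol k Z ι ↔ q ∈ Or k Z ι) ∧
    (∀ q : Q, sQ q ∈ Op k Z ι ↔ q ∈ Opp k Z ι) ∧ ∀ q : Q, sQ q ∈ Opp k Z ι ↔ q ∈ Op k Z ι

/-- **DCT** (150 lines). Half of the double centralizer theorem: `[Q : Z] ≤ [K : Z] [C(K) : Z]` for a
division subring `K ⊇ Z` of `Q`.

PROOF. Let `𝓛 ⊆ End_Z(Q)` be the span of all `x ↦ q x l`, `q ∈ Q`, `l ∈ K`: a subring, of dimension at most
`[Q : Z] [K : Z]` over `Z` (spanned by the maps with `q`, `l` in bases). `Q` is a simple `𝓛`-module (left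
multiplications). An endomorphism `φ` of the `𝓛`-module `Q` satisfies `φ(x) = x φ(1)` and `φ(1)` commutes
with `K`: `E := End_𝓛(Q)` is the ring of right multiplications by `C := C(K)`, a division ring, of
`Z`-dimension `[C : Z]`. Let `y_1, .., y_n` be an `E`-basis of `Q`, so `n [C : Z] = [Q : Z]`. By the density
theorem (`jacobson_density`) `𝓛 → Q^n`, `T ↦ (T y_i)` is surjective: `n [Q : Z] ≤ dim_Z 𝓛 ≤ [Q : Z] [K : Z]`,
so `n ≤ [K : Z]` and `[Q : Z] = n [C : Z] ≤ [K : Z] [C : Z]`. -/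
def SpecDCT : Prop :=
  ∀ (Z Q : Type v) [Field Z] [DivisionRing Q] [Algebra Z Q] (K : Subalgebra Z Q),
    Module.Finite Z Q → (∀ x ∈ K, x⁻¹ ∈ K) →
    Module.finrank Z Q ≤
      Module.finrank Z ↥K * Module.finrank Z ↥(Subalgebra.centralizer Z (K : Set Q))

/-- **LCO** (120 lines). `B_l = H ∩ O_l` is a left coideal.

PROOF. `ι b` is locally finite for `▷` (EG.SpecOLF); `ι(g b' S(g'))`: the span `T` of all
`g₁ b S(g₂)`, `g ∈ H`, is a finite-dimensional subspace of `H` (`ι` is injective). Let `X ⊆ H` be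
finite-dimensional with `Δ(T) ⊆ H ⊗ X` (legs of a basis of `T`). Write `Δ b = ∑ x_i ⊗ y_i` with
`k`-independent `x_i`. By SpecHAN `Δ(g₁ b S(g₂)) = g₁ b₁ S(g₃) ⊗ g₂·b₂`, where `g·c := g₁ c S(g₂)`;
precisely `Δ(g·b) = g₁ b₁ S(g₃) ⊗ (g₂·b₂)`. Hence `∑ x_i ⊗ g·y_i = (S(g₁) ⊗ 1) Δ(g₂·b) (g₃ ⊗ 1)` lies in
`H ⊗ X`, and `g·y_i ∈ X` for all `g` and `i` (independence of the `x_i`). So `ι y_i` is locally finite. -/
def SpecLCO : Prop :=
  ∀ (k : Type u) (H Z Q : Type v) [Field k] [Ring H] [HopfAlgebra k H] [Field Z] [Algebra k Z]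
    [DivisionRing Q] [Algebra k Q] [Algebra Z Q] [IsScalarTower k Z Q] (ι : H →ₐ[k] Q),
    IsCQ k H Z Q ι → ∀ b : H, ι b ∈ Ol k Z ι →
    ∃ (n : ℕ) (x y : Fin n → H), comul (R := k) b = ∑ i, x i ⊗ₜ[k] y i ∧ ∀ i, ι (y i) ∈ Ol k Z ι

/-- **DIM** (300 lines). The operators `x ↦ x ◁ h` on `O''` form a space of dimension at most
`m = [O'' : Z]` over `k`.

PROOF. `B := {b ∈ H : ι b ∈ O_l}` (a subalgebra containing `Z(H)`: central elements lie in `Z`),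
`J := {∑ b_j g_j : b_j ∈ B, ε(b_j) = 0, g_j ∈ H}`. (1) If `S(h) ∈ J` then `x ◁ h = 0` for `x ∈ O''`: write
`S(h) = ∑ b_j g_j`, `b_j = S(b'_j)`, `g_j = S(g'_j)`, so `h = ∑ g'_j b'_j` and
`x ◁ (g' b') = (x ◁ g') ◁ b'`, `y := x ◁ g' ∈ O''` (OPP), `y ◁ b' = S(b'₁) y b'₂`. By LCO
`Δ b = ∑ x_i ⊗ y_i` with `ι y_i ∈ O_l`, and `Δ b = S(b'₂) ⊗ S(b'₁)` (SpecHAN), so
`y ◁ b' = ∑ y_i y S⁻¹(x_i) = y ∑ y_i S⁻¹(x_i) = y S(b'₁) b'₂ = ε(b') y = ε(b) y = 0`.
(2) Choose `h_1, .., h_n ∈ H` with `n` maximal such that the family `o_a h_j` (`o_a` a `Z`-basis of `O_l`) is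
`Z`-independent in `Q`. Then `n [O_l : Z] ≤ [Q : Z] ≤ [O_l : Z] m` (DCT for `K = O_l`, a division ring by
OLF), so `n ≤ m`. By maximality every `h ∈ H` is `∑ o^(j) h_j`, `o^(j) ∈ O_l` (a relation
`o h + ∑ .. = 0` with `o ≠ 0`, divide by `o`); with a central denominator `c`:
`c h = ∑ b_j h_j`, `b_j ∈ B`. (3) `M := Q ⊗_k (H / J)`, a left `Q`-space, `γ(h) := h₁ ⊗ [h₂]`. For `b ∈ B`:
`γ(b h) = b₁ h₁ ⊗ [b₂ h₂] = b γ(h)` (`b₂ ∈ B` by LCO, `(b₂ - ε(b₂)) h₂ ∈ J`). So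
`γ(h) = ∑ c⁻¹ b_j γ(h_j)`, and `1 ⊗ [h] = ∑ S(h₁) γ(h₂)`: `M` is spanned over `Q` by `γ(h_1), .., γ(h_n)`.
(4) Given `m + 1` elements `h_i` of `H`: the `[S(h_i)]` are `k`-dependent in `H / J`, because otherwise
the `1 ⊗ [S(h_i)]` would be `m + 1 > n` independent elements of `M`. So `S(∑ c_i h_i) ∈ J`; use (1). -/
def SpecDIM : Prop :=
  ∀ (k : Type u) (H Z Q : Type v) [Field k] [Ring H] [HopfAlgebra k H] [Field Z] [Algebra k Z]
    [DivisionRing Q] [Algebra k Q] [Algebra Z Q] [IsScalarTower k Z Q] (ι : H →ₐ[k] Q),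
    IsCQ k H Z Q ι → Function.Bijective (antipode k (A := H)) →
    ∀ h : Fin (Module.finrank Z ↥(Opp k Z ι) + 1) → H,
      ∃ c : Fin (Module.finrank Z ↥(Opp k Z ι) + 1) → k, (∃ i, c i ≠ 0) ∧
        ∀ x ∈ Opp k Z ι, ∑ i, c i • adrQ k Z ι (h i) x = 0

/-- **RES** (80 lines). The operators on `O''`.

PROOF. `O''` is `◁`-stable (EG.SpecOPP), `adrQ h` is `Z`-linear; restrict. `one, mul, alg, unit`:
EG.SpecADA. -/
def SpecRES : Prop :=
  ∀ (k : Type u) (H Z Q : Type v) [Field k] [Ring H] [HopfAlgebra k H] [Field Z] [Algebra k Z]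
    [DivisionRing Q] [Algebra k Q] [Algebra Z Q] [IsScalarTower k Z Q] (ι : H →ₐ[k] Q),
    IsCQ k H Z Q ι → ∃ R : H →ₗ[k] Module.End Z ↥(Opp k Z ι), IsRO k Z ι R

/-- **XIK** (150 lines). Relations between the operators `x ↦ (x ◁ h) p` are formal.

PROOF. Let `g_1, .., g_e ∈ H` be such that the operators `x ↦ x ◁ g_a` form a `k`-basis of the space of all
operators `x ↦ x ◁ h` on `O''`; `e ≤ m` by DIM. The `Z`-linear map `(O'')^e → End_Z(O'')`,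
`(p_a) ↦ (x ↦ ∑ (x ◁ g_a) p_a)` is surjective by EG.SpecDNS, and `dim_Z (O'')^e = e m ≤ m²`, so it is
injective. Write `x ◁ h_j = ∑_a λ_ja (x ◁ g_a)` (all `x ∈ O''`, `λ_ja ∈ k`). The hypothesis says that
`(∑_j λ_ja p_j)_a` is in the kernel, so `∑_j λ_ja p_j = 0` for all `a`, and
`∑_j p_j ⊗ (c ◁ h_j) = ∑_a (∑_j λ_ja p_j) ⊗ (c ◁ g_a) = 0`. -/
def SpecXIK : Prop :=
  ∀ (k : Type u) (H Z Q : Type v) [Field k] [Ring H] [HopfAlgebra k H] [Field Z] [Algebra k Z]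
    [DivisionRing Q] [Algebra k Q] [Algebra Z Q] [IsScalarTower k Z Q] (ι : H →ₐ[k] Q),
    IsCQ k H Z Q ι → Function.Bijective (antipode k (A := H)) →
    ∀ (n : ℕ) (h : Fin n → H) (p : Fin n → Q), (∀ j, p j ∈ Opp k Z ι) →
      (∀ x ∈ Opp k Z ι, ∑ j, adrQ k Z ι (h j) x * p j = 0) →
      ∀ c ∈ Opp k Z ι, ∑ j, p j ⊗ₜ[k] adrQ k Z ι (h j) c = 0

/-- **DES** (300 lines). Galois descent for `O'' ⊗ O'`: `1 ⊗ sQ(c) = ∑ r_i(c) (o_i ⊗ 1)` with `r_i(c)` in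
the commutant.

PROOF. EG.SpecDNS for the `Z`-linear maps `x ↦ x_i 1`, `x = ∑ x_i o_i`: there are `h_ij ∈ H`, `b_ij ∈ O''`
with `∑_j (x ◁ h_ij) b_ij = x_i` for all `x ∈ O''`. Put `r_i(c) := ∑_j b_ij ⊗ sQ(c ◁ h_ij)`.
(1) SECOND CLAIM: `∑_i ∑_j (x ◁ h_ij) b_ij (o_i ◁ h) = ∑ x_i (o_i ◁ h) = x ◁ h` for `x ∈ O''`, so XIK for the
family `(h_ij, b_ij (o_i ◁ h))`, `(h, -1)` gives `∑ b_ij (o_i ◁ h) ⊗ (c ◁ h_ij) = 1 ⊗ (c ◁ h)`; apply
`1 ⊗ sQ`. (2) `r_i(c)` commutes with `O_l ⊗ 1` (`b_ij ∈ O'' = C(O_l)`) and with `1 ⊗ O_r`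
(`sQ(O'') = O' = C(O_r)`, ADS, OPP). (3) For `g ∈ H`, `Δ g = g₁ ⊗ g₂`, and `x ∈ O''`:
`∑ (x ◁ (h_ij g₁)) (b_ij ◁ g₂) = (∑_j (x ◁ h_ij) b_ij) ◁ g = x_i ◁ g = ε(g) x_i` (ADA), so XIK gives
`∑_j (b_ij ◁ g₂) ⊗ (c ◁ (h_ij g₁)) = ε(g) ∑_j b_ij ⊗ (c ◁ h_ij)`; apply `1 ⊗ sQ` and ADS: with
`y = r_i(c) = ∑ a ⊗ b`: (F) `∑ (a ◁ g₂) ⊗ (S(g₁) ▷ b) = ε(g) y`. (4) (F) implies that `y` commutes with
`Δ(S(g)) = S(g₂) ⊗ S(g₁)`: by ADB (4) `S(g) a = (a ◁ g₁) S(g₂)` and by ADB (1)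
`S(g) b = (S(g₂) ▷ b) S(g₁)`, so `Δ(S g) y = S(g₂) a ⊗ S(g₁) b = (a ◁ g₃) S(g₄) ⊗ (S(g₂) ▷ b) S(g₁)
= a S(g₂) ⊗ b S(g₁) = y Δ(S g)`. `S` is surjective. -/
def SpecDES : Prop :=
  ∀ (k : Type u) (H Z Q : Type v) [Field k] [Ring H] [HopfAlgebra k H] [Field Z] [Algebra k Z]
    [DivisionRing Q] [Algebra k Q] [Algebra Z Q] [IsScalarTower k Z Q] (ι : H →ₐ[k] Q)
    (sQ : Q →ₗ[k] Q) (sZ : Z ≃ₐ[k] Z),
    IsCQ k H Z Q ι → Function.Bijective (antipode k (A := H)) → IsSQ k Z ι sQ sZ →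
    ∀ (m : ℕ) (o : Module.Basis (Fin m) Z ↥(Opp k Z ι)),
      ∃ r : Fin m → ↥(Opp k Z ι) → Q ⊗[k] Q, (∀ i c, r i c ∈ Rcom k Z ι) ∧
        ∀ (h : H) (c : ↥(Opp k Z ι)),
          ∑ i, r i c * (adrQ k Z ι h (o i : Q) ⊗ₜ[k] (1 : Q)) = 1 ⊗ₜ[k] sQ (adrQ k Z ι h (c : Q))

/-- **UNI** (200 lines). The `o_i ⊗ 1` are independent over the commutant of `Δ(H)`.

PROOF. Let `∑ s_i (o_i ⊗ 1) = 0`. (1) `∑ s_i ((o_i ◁ h) ⊗ 1) = 0` for all `h`: for every `a ∈ Q`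
`(S(h₁) a h₂) ⊗ 1 = S(h₃) a h₄ ⊗ S(h₂) S(S(h₁))` (`S(h₂) S(S(h₁)) = S(S(h₁) h₂) = ε(h)`), and `s_i` commutes
with `S(h₃) ⊗ S(h₂)`, which is `Δ(S(·))` of the middle leg (SpecHAN). So
`∑ s_i ((o_i ◁ h) ⊗ 1) = ∑ (S(h₃) ⊗ S(h₂)) (∑_i s_i (o_i ⊗ 1)) (h₄ ⊗ S(S(h₁))) = 0`. (2) EG.SpecDNS for
`x ↦ x_l 1`: `∑_j (x ◁ h_j) b_j = x_l`, `x ∈ O''`. Multiply (1) for `h = h_j` on the right by `b_j ⊗ 1` and sum
over `j`: `0 = ∑_i s_i ((o_i)_l ⊗ 1) = s_l`. -/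
def SpecUNI : Prop :=
  ∀ (k : Type u) (H Z Q : Type v) [Field k] [Ring H] [HopfAlgebra k H] [Field Z] [Algebra k Z]
    [DivisionRing Q] [Algebra k Q] [Algebra Z Q] [IsScalarTower k Z Q] (ι : H →ₐ[k] Q),
    IsCQ k H Z Q ι →
    ∀ (m : ℕ) (o : Module.Basis (Fin m) Z ↥(Opp k Z ι)) (s : Fin m → Q ⊗[k] Q),
      (∀ i, ∀ h : H, s i * dd k ι h = dd k ι h * s i) →
      ∑ i, s i * ((o i : Q) ⊗ₜ[k] (1 : Q)) = 0 → ∀ i, s i = 0

/-- **BAS** (150 lines). `Q ⊗_k Q` is a free module over the central subring `Z ⊗_k Z` with basis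
`s_i ⊗ s_j`, and every element is integral over it.

PROOF. `Q = ⊕ Z s_i` (`z s_i = algebraMap z * s_i`), so `Q ⊗_k Q = ⊕ (Z s_i) ⊗_k (Z s_j)` (distribute the
tensor product over the direct sums; `Z → Q`, `z ↦ z s_i` is injective, tensor products over a field).
`zz r` is central. Integrality: left multiplication by `y` on the free `Z ⊗ Z`-module `Q ⊗ Q` of finite rank
satisfies its characteristic polynomial (`Matrix.aeval_self_charpoly`), evaluate at `1`; or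
`IsIntegral` of an element of a finite module. -/
def SpecBAS : Prop :=
  ∀ (k : Type u) (Z Q : Type v) [Field k] [Field Z] [Algebra k Z] [DivisionRing Q] [Algebra k Q]
    [Algebra Z Q] [IsScalarTower k Z Q] (N : ℕ) (s : Module.Basis (Fin N) Z Q),
    (∀ y : Q ⊗[k] Q, ∃ r : Fin N × Fin N → Z ⊗[k] Z,
      y = ∑ p, zz k Z Q (r p) * (s p.1 ⊗ₜ[k] s p.2)) ∧
    (∀ r : Fin N × Fin N → Z ⊗[k] Z,
      ∑ p, zz k Z Q (r p) * (s p.1 ⊗ₜ[k] s p.2) = 0 → ∀ p, r p = 0) ∧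
    (∀ (r : Z ⊗[k] Z) (y : Q ⊗[k] Q), zz k Z Q r * y = y * zz k Z Q r) ∧
    ∀ y : Q ⊗[k] Q, ∃ (n : ℕ) (d : Fin n → Z ⊗[k] Z), y ^ n + ∑ j, zz k Z Q (d j) * y ^ (j : ℕ) = 0

/-! ## Part 2: modules, the locally finite part splits off -/

/-- **RNO** (60 lines). A (left) Noetherian Hopf algebra with bijective antipode is `RNoeth`.

PROOF. `J` two-sided, `J' = {x : S(x) ∈ J}` is a two-sided ideal (`S` is a bijective anti-homomorphism), a
finitely generated left ideal: `J' = ∑ H g_i`. So `J = S(J') = ∑ S(g_i) H`. -/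
def SpecRNO : Prop :=
  ∀ (k : Type u) (H : Type v) [Field k] [Ring H] [HopfAlgebra k H] [IsNoetherianRing H],
    Function.Bijective (antipode k (A := H)) → RNoeth H

/-- **CEX** (350 lines; the pattern is CAP, CEN of the PI block). Ideals of a spanning subring of
`End_F(V)` contain nonzero scalars.

PROOF. `E = End_F(V)`, `N = dim_F E`, `S = ρ(H)`, `𝔟 = ρ(J) ≠ 0`, `S` spans `E`. The `F`-span of `𝔟` is a
nonzero two-sided ideal of `E`, so it is `E`; let `x_1, .., x_N ∈ 𝔟` be an `F`-basis of `E`.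
`c(x; y) = ∑_σ sgn σ x_{σ 1} y_1 ⋯ x_{σ N} y_N` (`capelli`). (0) If `x_j ∈ E` are `F`-independent and
`∑ x_j y g_j = 0` for all `y ∈ S`, then for all `y ∈ E`, and `y = v ⊗ φ` gives
`∑_j φ(g_j w) x_j(v) = 0`, so `φ(g_j w) = 0`, `g_j = 0`. (1) There is `y ∈ S^N` with `c(x; y) ≠ 0`, for every
number of independent `x_j` (induction: expand along the first letter and use (0), as in CAP (a)). (2) For
fixed `y` the Capelli sum is `F`-multilinear and alternating in `N = dim_F E` arguments: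
`c(φ x; y) = det φ · c(x; y)`. Let `V_C` be the `k`-span of all `c(x; y)`, `x ∈ 𝔟^N`, `y ∈ S^N`. For `a ∈ S`
and `t ∈ k`: `det(t - L_a) c(x; y) = c((t - a) x; y) ∈ V_C` (`L_a` = left multiplication on `E`), so (Vandermonde,
`k` infinite) `s_i(a) V_C ⊆ V_C` for all coefficients `s_i(a)` of the characteristic polynomial of `L_a`.
(3) `𝔤 :=` `k`-span of `S V_C S`; `𝔤 ⊆ 𝔟` (`N ≥ 1`), `s_i(a) 𝔤 ⊆ 𝔤`, and `𝔤` spans the nonzero two-sided ideal
`E`. (4) `w_1, .., w_N ∈ 𝔤` an `F`-basis of `E`; the polynomial `det_V(∑ X_i w_i) ∈ F[X_1, .., X_N]` is not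
zero (it takes the value `1`), `k` is infinite, so there is `w = ∑ ξ_i w_i`, `ξ ∈ k^N`, invertible in `E`
(`MvPolynomial.funext_set`). (5) Cayley–Hamilton for `L_w` at `1`:
`- s_0(w) 1 = ∑_{i ≥ 1} (s_i(w) w) w^(i-1) ∈ 𝔤 ⊆ 𝔟`, and `s_0(w) = ± det L_w ≠ 0`. -/
def SpecCEX : Prop :=
  ∀ (k : Type u) (H F V : Type v) [Field k] [Infinite k] [Field F] [Algebra k F] [Ring H]
    [Algebra k H] [AddCommGroup V] [Module F V] [Module k V] [IsScalarTower k F V]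
    [Module.Finite F V] [Nontrivial V] (ρ : H →ₐ[k] Module.End F V),
    Submodule.span F (Set.range ρ) = ⊤ → ∀ J : Ideal H, J.IsTwoSided → (∃ x ∈ J, ρ x ≠ 0) →
      ∃ z ∈ J, ∃ c : F, c ≠ 0 ∧ ρ z = c • 1

/-- **NCX** (300 lines). A locally finite module on top of a simple module which is not locally finite
splits off.

PROOF. If `V' = 0` then `J E = 0` and every `e ∈ E` is locally finite (`ρ(H) e` is a quotient of `H / J`),
`E ≠ 0`. Let `V' ≠ 0`, `𝔓 = {h : ρ(h) V' = 0}`, `I = 𝔓 ∩ J`, two-sided ideals. (1) `𝔞 := {h : h I ⊆ 𝔓 J}`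
(`𝔓 J` = additive span of the products) is two-sided and `dim_k H / 𝔞 < ∞`: `I = ∑ g_i H` (`RNoeth`),
`H = ∑ k t_j + J` finite sum, so `I ⊆ T + 𝔓 J`, `T = span_k(g_i t_j)`, and `𝔞` is the kernel of the left
multiplication `H → Hom_k(T, I / 𝔓 J)`, `I / 𝔓 J` finite-dimensional. (2) `(𝔓 J) E ⊆ 𝔓 V' = 0`, so
`𝔞 I E = 0`. `X := span_F(ρ(I) E) ⊆ V'` is stable. If `X = V'` then `𝔞 V' = 0`, the elements of `V'` are
locally finite, `V' = 0`, contradiction. So `X = 0` (simplicity): `I E = 0`. (3) By Burnside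
(`jacobson_density` and Schur over the algebraically closed `F`) `ρ(H)` restricted to the simple module `V'`
spans `End_F(V')`; `J V' ≠ 0` as in (2); CEX: there is `z ∈ J` with `ρ(z) = c ≠ 0` on `V'`. For `h ∈ H`,
`z h - h z ∈ J` acts on `V'` as `0`, so lies in `I`, so `ρ(z)` commutes with `ρ(H)` on `E`. (4)
`K := ker ρ(z)` is stable, `K ∩ V' = 0`, `ρ(z) E ⊆ V' ≠ E`, so `dim K ≥ dim E - dim V' > 0`; `J K ⊆ V' ∩ K = 0`, so
the elements of `K` are locally finite. -/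
def SpecNCX : Prop :=
  ∀ (k : Type u) (H F E : Type v) [Field k] [Infinite k] [Field F] [IsAlgClosed F] [Algebra k F]
    [Ring H] [Algebra k H] [AddCommGroup E] [Module F E] [Module k E] [IsScalarTower k F E]
    [Module.Finite F E] (ρ : H →ₐ[k] Module.End F E), RNoeth H →
    ∀ V' : Submodule F E, (∀ h : H, ∀ x ∈ V', ρ h x ∈ V') →
      (∀ X : Submodule F E, (∀ h : H, ∀ x ∈ X, ρ h x ∈ X) → X ≤ V' → X = ⊥ ∨ X = V') →
      V' ≠ ⊤ → (∀ e ∈ V', LFd k ρ e → e = 0) →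
      ∀ J : Ideal H, J.IsTwoSided → Module.Finite k (H ⧸ J) → (∀ h ∈ J, ∀ e : E, ρ h e ∈ V') →
        ∃ e : E, e ≠ 0 ∧ LFd k ρ e

/-- **NCA** (250 lines). If `E` has no nonzero locally finite element, then for every cofinite ideal `J` some
element of `F J` acts on `E` as the identity.

PROOF. Induction on `dim_F E` (over all `(E, ρ)`). `E = 0`: trivial. Let `V' ≠ 0` be a minimal nonzero
stable subspace (minimal dimension), `Ē = E / V'` with the induced action. (a) `Ē` has no nonzero locally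
finite element: let `E₁ ⊇ V'` be the preimage of the set of locally finite elements of `Ē`, a stable
subspace (sums, `F`-multiples, `H`-translates of locally finite elements are locally finite). If
`E₁ ≠ V'`: `E₁ / V'` is spanned over `F` by finitely many locally finite elements `ē_i`, so
`J₁ := {h : ρ(h) E₁ ⊆ V'} = ⋂ Ann(ē_i)` is a two-sided ideal of finite codimension over `k`, and NCX for
`E₁` gives a nonzero locally finite element of `E₁ ⊆ E`. (b) Induction: `a' = ∑ f_i h_i`, `h_i ∈ J`, acts on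
`Ē` as `1`. (c) `V'` is simple, `ρ(H)` spans `End_F(V')` (Burnside), the image of `F J` in `End_F(V')` is a
two-sided ideal, not `0` (otherwise `V'` would be locally finite), so there is `a'' ∈ F J` acting on `V'` as
`1`. (d) `a := 1 - (1 - a'')(1 - a') = a' + a'' - a'' a' ∈ F J` acts on `E` as `1`: `(1 - a') E ⊆ V'`,
`(1 - a'') V' = 0`. -/
def SpecNCA : Prop :=
  ∀ (k : Type u) (H F : Type v) [Field k] [Infinite k] [Field F] [IsAlgClosed F] [Algebra k F]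
    [Ring H] [Algebra k H], RNoeth H →
    ∀ (E : Type v) [AddCommGroup E] [Module F E] [Module k E] [IsScalarTower k F E]
      [Module.Finite F E] (ρ : H →ₐ[k] Module.End F E), (∀ e : E, LFd k ρ e → e = 0) →
      ∀ J : Ideal H, J.IsTwoSided → Module.Finite k (H ⧸ J) →
        ∃ (n : ℕ) (f : Fin n → F) (h : Fin n → H), (∀ i, h i ∈ J) ∧
          ∀ e : E, ∑ i, f i • ρ (h i) e = e

/-- **NCG** (250 lines). Some `h₀ ∈ F H` is a projection onto the locally finite part (it is the identity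
there and maps everything into it).

PROOF. `E_c := {e : LFd e}`, a stable `F`-subspace, spanned over `F` by finitely many locally finite `e_i`,
so `J := Ann_H(E_c) = ⋂ Ann_H(e_i)` is a two-sided ideal with `dim_k H / J < ∞`. `Ē = E / E_c` has no nonzero
locally finite element: the preimage `E₁` of its locally finite part is killed by `J J₁`, where
`J₁ = {h : ρ(h) E₁ ⊆ E_c}` is two-sided and cofinite, and `J J₁` is cofinite (`J = ∑ g_i H` by `RNoeth`,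
`H = ∑ k t_j + J₁`, so `J = ∑ k g_i t_j + J J₁`, finite sum); so every element of `E₁` is locally finite.
NCA for `Ē` and `J`: `a = ∑ f_i h_i`, `h_i ∈ J`, acts on `Ē` as `1` and on `E_c` as `0`. Take
`h₀ = 1 - a`. -/
def SpecNCG : Prop :=
  ∀ (k : Type u) (H F E : Type v) [Field k] [Infinite k] [Field F] [IsAlgClosed F] [Algebra k F]
    [Ring H] [Algebra k H] [AddCommGroup E] [Module F E] [Module k E] [IsScalarTower k F E]
    [Module.Finite F E] (ρ : H →ₐ[k] Module.End F E), RNoeth H →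
    ∃ (n : ℕ) (f : Fin n → F) (h : Fin n → H),
      (∀ e : E, LFd k ρ e → ∑ i, f i • ρ (h i) e = e) ∧
      ∀ e : E, LFd k ρ (∑ i, f i • ρ (h i) e)

/-- **LFT** (150 lines). The locally finite part of `F ⊗_Z Q` is `F ⊗_Z O_l`.

PROOF. Let `φ_t` be a `Z`-basis of `F`; every `u ∈ F ⊗_Z Q` is `∑ φ_t ⊗ q_t`, a finite sum with unique `q_t`
(`Basis.baseChange` / `TensorProduct.equivFinsuppOfBasisLeft`), and
`(1 ⊗ adlQ h) u = ∑ φ_t ⊗ (h ▷ q_t)`. If `H u` is finite-dimensional so is `H ▷ q_t` (apply the `Z`-linear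
`t`-th coordinate `F ⊗_Z Q → Q`), so `q_t ∈ O_l` (EG.SpecOLF), `u ∈ F ⊗_Z O_l`. Conversely
`H (f ⊗ q) ⊆ f ⊗ (H ▷ q)` is finite-dimensional for `q ∈ O_l`, and `F ⊗ O_l` consists of finite sums of such
elements. -/
def SpecLFT : Prop :=
  ∀ (k : Type u) (H Z Q : Type v) [Field k] [Ring H] [HopfAlgebra k H] [Field Z] [Algebra k Z]
    [DivisionRing Q] [Algebra k Q] [Algebra Z Q] [IsScalarTower k Z Q] (ι : H →ₐ[k] Q),
    IsCQ k H Z Q ι →
    ∀ (F : Type v) [Field F] [Algebra Z F] [Algebra k F] [IsScalarTower k Z F] (u : F ⊗[Z] Q),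
      Module.Finite k (Submodule.span k
        (Set.range fun h : H => (adlQ k Z ι h).baseChange F u)) ↔
      u ∈ (Subalgebra.toSubmodule (Ol k Z ι)).baseChange F

/-- **IDE** (250 lines). A primitive idempotent of `F ⊗_Z K`, `K ⊆ Q` a division subring containing `Z`.

PROOF. Choose `t ∈ K` with `[Z(t) : Z]` maximal. (1) `C_K(t) = Z[t]`: if `u ∈ K` commutes with `t` then
`Z[t, u] ⊆ K` is a commutative domain of finite dimension over `Z`, a field, `= Z(t')` (primitive element,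
`char Z = 0`), so `[Z(t') : Z] ≤ [Z(t) : Z]` and `u ∈ Z(t') = Z(t) = Z[t]`. (2) The minimal polynomial `μ` of `t` over
`Z`, of degree `n`, is separable and has `n` different roots `r_1, .., r_n` in `F`. In `F ⊗_Z Q` put
`T = 1 ⊗ t`, `e := ∏_{j ≥ 2} (T - r_j) / (r_1 - r_j) = p₀(T)`. `(T - r_1) e` is a multiple of `μ(T) = 0`;
so `p(T) e = p(r_1) e` for `p ∈ F[X]`, `e² = p₀(r_1) e = e`. `e ≠ 0` since `1, T, .., T^(n-1)` are
`F`-independent (base change of a `Z`-independent family) and `deg p₀ = n - 1`. (3) If `x ∈ F ⊗_Z K` commutes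
with `T` then `x ∈ F[T]`: `x = ∑ φ_a ⊗ x_a`, `φ_a ∈ F` `Z`-independent, `x_a ∈ K`, so `x_a t = t x_a`, (1).
(4) `u ∈ F ⊗_Z K`: `e u e` commutes with `T` (`T e = r_1 e = e T`), so `e u e = p(T)`,
`e u e = (e u e) e = p(T) e = p(r_1) e`. -/
def SpecIDE : Prop :=
  ∀ (Z F Q : Type v) [Field Z] [CharZero Z] [Field F] [IsAlgClosed F] [Algebra Z F]
    [DivisionRing Q] [Algebra Z Q] (K : Subalgebra Z Q), Module.Finite Z Q → (∀ x ∈ K, x⁻¹ ∈ K) →
    ∃ e ∈ (Subalgebra.toSubmodule K).baseChange F, e ≠ 0 ∧ e * e = e ∧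
      ∀ u ∈ (Subalgebra.toSubmodule K).baseChange F, ∃ c : F, e * u * e = c • e

/-! ## Part 3: the character -/

/-- **CLO** (150 lines). Extension of a homomorphism `π : D → K` onto a field to the integral closure `W` of
`D` in an algebraically closed field `Ω ⊇ D`; the residue field is algebraically closed.

PROOF. `Ω = AlgebraicClosure (FractionRing D)`, `W = integralClosure D Ω`, `𝔐` a prime of `W` over
`ker π` (lying over: `Ideal.exists_ideal_over_prime_of_isIntegral`; `D → W` is injective). `F = W / 𝔐` is an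
integral domain, integral over `D / ker π ≅ K`, so a field. Algebraically closed: a monic polynomial over
`F` of positive degree lifts to a monic polynomial over `W`, which has a root in `Ω`, integral over `W`, so
over `D`, so in `W`. `K ≅ D / ker π → F` gives the algebra structure. -/
def SpecCLO : Prop :=
  ∀ (D K : Type v) [CommRing D] [IsDomain D] [Field K] (π : D →+* K), Function.Surjective π →
    ∃ (Ω F : Type v) (_ : Field Ω) (_ : Algebra D Ω) (_ : Field F) (_ : Algebra K F)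
      (κ : ↥(integralClosure D Ω) →+* F),
      IsAlgClosed Ω ∧ IsAlgClosed F ∧ Function.Injective (algebraMap D Ω) ∧ Function.Surjective κ ∧
      ∀ d : D, κ (algebraMap D ↥(integralClosure D Ω) d) = algebraMap K F (π d)

/-- **SEV** (350 lines). The simple eigenvalue trick (helper42).

PROOF. `W = integralClosure D Ω`. `𝒜_Ω = Ω ⊗_D 𝒜` has the `Ω`-basis `1 ⊗ u_i`; `b̃ := ∑ w_ν ⊗ m_ν`,
`T : 𝒜_Ω → 𝒜_Ω`, `a ↦ b̃ a b̃`. (1) The matrix `(c_ij)` of `T` has entries in `W`: if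
`m_ν u_j m_μ = ∑_i d^(νμ)_ij u_i`, `d ∈ D`, then `c_ij = ∑_{ν, μ} w_ν w_μ d^(νμ)_ij`. (2) In `End_F(V)` put
`b := ∑ κ(w_ν) τ(m_ν)`, `b(x) = β(x) v`. Then `∑_i κ(c_ij) τ(u_i) = b τ(u_j) b = β_j b` with
`β_j := β(τ(u_j) v)`, and `b = ∑ g_i τ(u_i)`, `g_i ∈ F` (coordinates of the `m_ν`). By independence
`κ(c_ij) = g_i β_j`, and `∑ g_i β_i = β(b v) = β(v) = 1`. So the matrix `κ(c)` has rank one and trace `1`:
its characteristic polynomial is `X^(N-1) (X - 1)` (`Matrix.charpoly_mul_comm'`), `N = |I| ≥ 1`.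
(3) The characteristic polynomial `p ∈ W[X]` of `(c_ij)` splits over `Ω`, its roots are integral over `D`, so
`p = ∏ (X - λ_i)` with `λ_i ∈ W`, and `∏ (X - κ(λ_i)) = X^(N-1) (X - 1)`: exactly one index has
`κ(λ_i) = 1`, so this `λ` is a simple root of `p` in `Ω`. (4) The eigenspace of `T` for `λ` is a line `Ω v₀`
(`LinearMap.finrank_maxGenEigenspace_eq`, or: `dim ker(T - λ) ≤` multiplicity). (5) `r` in the centralizer
of the `m_ν`: `1 ⊗ r` commutes with `b̃`, so `T((1 ⊗ r) v₀) = λ (1 ⊗ r) v₀` and `(1 ⊗ r) v₀ = χ(r) v₀`; `χ` is an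
algebra homomorphism over `D`. -/
def SpecSEV : Prop :=
  ∀ (D Ω F A V : Type v) [CommRing D] [IsDomain D] [Field Ω] [IsAlgClosed Ω] [Algebra D Ω] [Field F]
    (κ : ↥(integralClosure D Ω) →+* F) [Ring A] [Algebra D A] [AddCommGroup V] [Module F V]
    [Module.Finite F V] (I : Type) [Fintype I] (u : Module.Basis I D A) (τ : A →+* Module.End F V),
    Function.Injective (algebraMap D Ω) →
    (∀ (d : D) (a : A), τ (d • a) = κ (algebraMap D ↥(integralClosure D Ω) d) • τ a) →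
    LinearIndependent F (fun i => τ (u i)) →
    ∀ (n : ℕ) (m : Fin n → A) (w : Fin n → ↥(integralClosure D Ω)) (v : V) (β : V →ₗ[F] F),
      β v = 1 → (∀ x : V, ∑ ν, κ (w ν) • τ (m ν) x = β x • v) →
      Nonempty (↥(Subalgebra.centralizer D (Set.range m)) →ₐ[D] Ω)

/-- **TAU** (200 lines). The action of `Q ⊗_k Q` on `F ⊗_Z Q` by `(a ⊗ b) q = a q sQ(b)`.

PROOF. `a ⊗ b ↦ (q ↦ a q sQ(b))` is a ring homomorphism `Q ⊗_k Q → End_Z(Q)` (`sQ` is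
anti-multiplicative, `k`-linear); compose with `Module.End.baseChangeHom`.
`τ(zz(z ⊗ z')) = z sZ(z')`. Independence: (1) the maps `q ↦ s_i q sQ(s_j)` are `Z`-independent in
`End_Z(Q)`: if `∑ z_ij s_i q sQ(s_j) = 0` for all `q`, then `∑_i s_i q g_i = 0` with
`g_i = ∑_j z_ij sQ(s_j)`, so `g_i = 0` (SpecAWL with `X = Q`: by `IsCQ.cent` the centre of `Q` is `Z`; or the
same short argument), and `g_i = sQ(∑_j sZ⁻¹(z_ij) s_j)`, so `z_ij = 0`. (2) Base change to `F`: write the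
coefficients in a `Z`-basis `φ_t` of `F`; `∑_t φ_t ⊗ q_t = 0` in `F ⊗_Z Q` implies `q_t = 0`. -/
def SpecTAU : Prop :=
  ∀ (k : Type u) (H Z Q : Type v) [Field k] [Ring H] [HopfAlgebra k H] [Field Z] [Algebra k Z]
    [DivisionRing Q] [Algebra k Q] [Algebra Z Q] [IsScalarTower k Z Q] (ι : H →ₐ[k] Q)
    (sQ : Q →ₗ[k] Q) (sZ : Z ≃ₐ[k] Z), IsCQ k H Z Q ι → IsSQ k Z ι sQ sZ →
    ∀ (F : Type v) [Field F] [Algebra Z F], ∃ τ : Q ⊗[k] Q →+* Module.End F (F ⊗[Z] Q),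
      (∀ (a b q : Q) (f : F), τ (a ⊗ₜ[k] b) (f ⊗ₜ[Z] q) = f ⊗ₜ[Z] (a * q * sQ b)) ∧
      (∀ (z z' : Z) (y : Q ⊗[k] Q),
        τ (zz k Z Q (z ⊗ₜ[k] z') * y) = algebraMap Z F (z * sZ z') • τ y) ∧
      ∀ (N : ℕ) (s : Module.Basis (Fin N) Z Q),
        LinearIndependent F (fun p : Fin N × Fin N => τ (s p.1 ⊗ₜ[k] s p.2))

/-- **CHI** (350 lines). The commutant `R'` has a character with values in a field containing
`Z ⊗_k Z`.

PROOF. `D = Z ⊗_k Z` is a domain (`noZeroDivisors_tensor`, Gauss.lean, `k` algebraically closed),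
`π : D → Z`, `π(z ⊗ z') = z sZ(z')`, surjective. CLO: `Ω, F, κ`, `F` a `Z`-algebra (and a `k`-algebra) with
`κ(d) = algebraMap Z F (π d)`. TAU: `τ`. `E := F ⊗_Z Q`, `ρ(h) := (adlQ h).baseChange F`
(`Module.End.baseChangeHom`; multiplicative by ADA), `τ(dd h) = ρ(h)`. By NCG (RNO) and LFT there is
`h₀ = ∑ f_i h_i` with `h₀ u = u` for `u ∈ F ⊗ O_l` and `h₀ E ⊆ F ⊗ O_l`. IDE for `K = O_l` (OLF): `e`. For
`x ∈ E`: `b(x) := e (h₀ x) e = β(x) e` with `β : E → F` linear (`e ≠ 0`), `β(e) = 1` as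
`b(e) = e e e = e`. With `e = ∑_a φ_a ⊗ e_a`, `e_a ∈ O_l`: left multiplication by `e` is
`∑ φ_a τ(e_a ⊗ 1)`, right multiplication by `e` is `∑ φ_a τ(1 ⊗ sQ⁻¹(e_a))`, `sQ⁻¹(e_a) ∈ O_r` (ADS). So
`b = ∑_ν f'_ν τ(m_ν)` with `m_ν = (e_a ⊗ 1)(1 ⊗ sQ⁻¹(e_c)) dd(h_i)` (all triples), `f'_ν ∈ F`,
`f'_ν = κ(w_ν)`. `Q ⊗_k Q` is a `D`-algebra by `zz` with basis `s_p ⊗ s_q` (BAS). SEV gives
`χ₀ : centralizer(m_ν) → Ω`, and `R' = Rcom` is contained in the centralizer. `i := algebraMap D Ω`, `Ω` a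
`k`-algebra through `i`. -/
def SpecCHI : Prop :=
  ∀ (k : Type u) (H Z Q : Type v) [Field k] [IsAlgClosed k] [CharZero k] [Ring H]
    [IsNoetherianRing H] [HopfAlgebra k H] [Field Z] [Algebra k Z] [DivisionRing Q] [Algebra k Q]
    [Algebra Z Q] [IsScalarTower k Z Q] (ι : H →ₐ[k] Q) (sQ : Q →ₗ[k] Q) (sZ : Z ≃ₐ[k] Z),
    IsCQ k H Z Q ι → Function.Bijective (antipode k (A := H)) → IsSQ k Z ι sQ sZ →
    ∃ (Ω : Type v) (_ : Field Ω) (_ : Algebra k Ω) (i : Z ⊗[k] Z →ₐ[k] Ω)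
      (χ : ↥(Rcom k Z ι) →ₐ[k] Ω), Function.Injective i ∧
      ∀ (r : Z ⊗[k] Z) (hr : zz k Z Q r ∈ Rcom k Z ι), χ ⟨zz k Z Q r, hr⟩ = i r

/-- **ALP** (300 lines). From the character to an `H`-equivariant homomorphism.

PROOF. `r_i(c)` from DES, `y(z) := i(1 ⊗ sZ z)`, `i' := i ∘ (1 ⊗ sZ)` (injective), `al_sp := χ(r_s(o_p))`. All
elements of `Rcom` commute with `Δ(H)`, and `zz r ∈ Rcom`; UNI: coefficients of `o_s ⊗ 1` in a sum
`∑ r_s (o_s ⊗ 1)` with `r_s ∈ Rcom` are unique. (1) `c = ∑ c_t o_t`: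
`1 ⊗ sQ(c) = ∑_t (1 ⊗ sZ c_t)(1 ⊗ sQ(o_t))`, so `r_s(c) = ∑_t (1 ⊗ sZ c_t) r_s(o_t)` and
`χ(r_s(c)) = ∑_t i'(1 ⊗ c_t) al_st`. (2) `c = 1 = ∑ u_s o_s`: `1 ⊗ sQ(1) = ∑ (u_s ⊗ 1)(o_s ⊗ 1)`, so
`r_s(1) = u_s ⊗ 1`: field `one`. (3) `1 ⊗ sQ(c ◁ h) = ∑_t r_t(c)((o_t ◁ h) ⊗ 1)
= ∑_s ∑_t r_t(c)((o_t ◁ h)_s ⊗ 1)(o_s ⊗ 1)`, so `r_s(c ◁ h) = ∑_t r_t(c)((o_t ◁ h)_s ⊗ 1)`, with `c = o_p`:
field `act`. (4) `1 ⊗ sQ(c c') = (1 ⊗ sQ(c'))(1 ⊗ sQ(c)) = ∑_b r_b(c')(o_b ⊗ 1)(1 ⊗ sQ(c))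
= ∑_b r_b(c')(1 ⊗ sQ(c))(o_b ⊗ 1) = ∑_{a, b} r_b(c') r_a(c)(o_a o_b ⊗ 1)`, so
`r_s(c c') = ∑_{a, b} r_b(c') r_a(c)((o_a o_b)_s ⊗ 1)`: field `mul`. (5) `int`: by BAS `r ∈ Rcom` satisfies a
monic equation with coefficients in `zz(Z ⊗ Z)`; apply `χ`; `i' ` has the same range as `i`. -/
def SpecALP : Prop :=
  ∀ (k : Type u) (H Z Q : Type v) [Field k] [Ring H] [HopfAlgebra k H] [Field Z] [Algebra k Z]
    [DivisionRing Q] [Algebra k Q] [Algebra Z Q] [IsScalarTower k Z Q] (ι : H →ₐ[k] Q)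
    (sQ : Q →ₗ[k] Q) (sZ : Z ≃ₐ[k] Z) (R : H →ₗ[k] Module.End Z ↥(Opp k Z ι)),
    IsCQ k H Z Q ι → Function.Bijective (antipode k (A := H)) → IsSQ k Z ι sQ sZ → IsRO k Z ι R →
    ∀ (Ω : Type v) [Field Ω] [Algebra k Ω] (i : Z ⊗[k] Z →ₐ[k] Ω) (χ : ↥(Rcom k Z ι) →ₐ[k] Ω),
      Function.Injective i →
      (∀ (r : Z ⊗[k] Z) (hr : zz k Z Q r ∈ Rcom k Z ι), χ ⟨zz k Z Q r, hr⟩ = i r) →
      ∀ (m : ℕ) (o : Module.Basis (Fin m) Z ↥(Opp k Z ι)),
        ∃ (i' : Z ⊗[k] Z →ₐ[k] Ω) (al : Fin m → Fin m → Ω), Function.Injective i' ∧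
          AlMat k Z ι o R i' al

/-! ## Part 4: specialisation -/

/-- **SP1** (250 lines). Specialisation of a module algebra over `Z` at a place.

PROOF. `V = P.V ⊆ Z`, `Λ = {x ∈ 𝒪 : all coordinates in V}`, a `V`-subalgebra of `𝒪` with `V`-basis `o`,
stable under `R(h)`. `k` is a `V`-algebra by `P.α`; `AA := k ⊗_V Λ`, basis `a_s = 1 ⊗ o_s`, `ρ(h) := 1 ⊗ R(h)`.
All identities carry over (alternatively: structure constants). -/
def SpecSP1 : Prop :=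
  ∀ (k : Type u) (H Z O : Type v) [Field k] [Ring H] [HopfAlgebra k H] [Field Z] [Algebra k Z]
    [Ring O] [Algebra k O] [Algebra Z O] [IsScalarTower k Z O] (m : ℕ)
    (o : Module.Basis (Fin m) Z O) (R : H →ₗ[k] Module.End Z O) (P : Plc k Z),
    R 1 = 1 → (∀ g h : H, R (g * h) = R h * R g) →
    (∀ (h : H) (n : ℕ) (x y : Fin n → H), comul (R := k) h = ∑ i, x i ⊗ₜ[k] y i →
      ∀ a b : O, R h (a * b) = ∑ i, R (x i) a * R (y i) b) →
    (∀ p q s, o.repr (o p * o q) s ∈ P.V) → (∀ s, o.repr 1 s ∈ P.V) →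
    (∀ (h : H) (p s), o.repr (R h (o p)) s ∈ P.V) →
    ∃ (AA : Type (max u v)) (_ : Ring AA) (_ : Algebra k AA) (a : Module.Basis (Fin m) k AA)
      (ρ : H →ₗ[k] Module.End k AA),
      ρ 1 = 1 ∧ (∀ g h : H, ρ (g * h) = ρ h * ρ g) ∧
      (∀ (h : H) (n : ℕ) (x y : Fin n → H), comul (R := k) h = ∑ i, x i ⊗ₜ[k] y i →
        ∀ b c : AA, ρ h (b * c) = ∑ i, ρ (x i) b * ρ (y i) c) ∧
      (∀ (p q : Fin m) (c : Fin m → ↥P.V), (∀ s, (c s : Z) = o.repr (o p * o q) s) →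
        a p * a q = ∑ s, P.α (c s) • a s) ∧
      (∀ c : Fin m → ↥P.V, (∀ s, (c s : Z) = o.repr 1 s) → 1 = ∑ s, P.α (c s) • a s) ∧
      ∀ (h : H) (p : Fin m) (c : Fin m → ↥P.V), (∀ s, (c s : Z) = o.repr (R h (o p)) s) →
        ρ h (a p) = ∑ s, P.α (c s) • a s

/-- **SP2** (250 lines). Specialisation of the first variable at a place, for elements integral over
`Z ⊗ Z`.

PROOF. Let `C ⊆ Z` be the finite set of the first legs of the coefficients (written as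
`∑ z_j ⊗ z'_j`) of monic equations over `Z ⊗ Z` for the `t ∈ T`. `exists_plc_of` (Pts.lean; import
`Pool.Agent.Lib.MP_c37a72_al.Pts`): a place `P` with `S ∪ C ⊆ V = P.V`. `D_V` := image in `Ω` of
`V ⊗_k Z` (`V ⊗ Z → Z ⊗ Z → Ω` is injective), `ev : D_V → Z`, `v ⊗ z ↦ α(v) z`, surjective, and
`B := D_V[T] ⊆ Ω`, a finitely generated `D_V`-module (each `t` is integral over `D_V`). Let `𝔓` be a prime of
`B` over `ker ev` (lying over), `P0 := B / 𝔓`: an integral domain, finite over `D_V / ker ev ≅ Z`, so a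
field, finite over `Z`. `κ` is the projection. -/
def SpecSP2 : Prop :=
  ∀ (k : Type u) (Z Ω : Type v) [Field k] [IsAlgClosed k] [Field Z] [Algebra k Z] [Field Ω]
    [Algebra k Ω] (i : Z ⊗[k] Z →ₐ[k] Ω), Function.Injective i →
    ∀ (S : Finset Z) (T : Finset Ω), (∀ t ∈ T, (i : Z ⊗[k] Z →+* Ω).IsIntegralElem t) →
    ∃ (P : Plc k Z) (P0 : Type v) (_ : Field P0) (_ : Algebra k P0) (_ : Algebra Z P0)
      (_ : IsScalarTower k Z P0) (B : Subring Ω) (κ : ↥B →+* P0),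
      (∀ z ∈ S, z ∈ P.V) ∧ Module.Finite Z P0 ∧ (∀ t ∈ T, t ∈ B) ∧
      (∀ v : ↥P.V, ∃ hv : i ((v : Z) ⊗ₜ[k] 1) ∈ B, κ ⟨_, hv⟩ = algebraMap k P0 (P.α v)) ∧
      ∀ z : Z, ∃ hz : i (1 ⊗ₜ[k] z) ∈ B, κ ⟨_, hz⟩ = algebraMap Z P0 z

/-- **PSI** (300 lines). The specialised homomorphism `ψ`.

PROOF. `range R` is a finite-dimensional `k`-space: `h_1, .., h_e ∈ H` with `R(h) ∈ span_k R(h_a)`. `S` := all
coordinates of `o_p o_q`, `1`, `R(h_a)(o_p)` in the basis `o`; `T` := all `al s p`. SP2: `P, P0, B, κ`; all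
`o.repr (R h (o p)) s` are in `P.V` (a `k`-subspace). SP1 for `𝒪 = O''`: `AA, a, ρ`. `ψ` := the `Z`-linear map
(`AA ⊗_k P0` is a `Z`-module by the second factor) with `ψ(o_p) = ∑_s a_s ⊗ κ(al_sp)`. Multiplicative (on
basis elements): `ψ(o_p) ψ(o_q) = ∑_{a, b} a_a a_b ⊗ κ(al_ap al_bq)
= ∑_s a_s ⊗ κ(∑_{a, b} i((o_a o_b)_s ⊗ 1) al_ap al_bq) = ∑_s a_s ⊗ κ(∑_t i(1 ⊗ (o_p o_q)_t) al_st)
= ψ(o_p o_q)` by `AlMat.mul`. In the same way `one` gives `ψ(1) = 1` and `act` gives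
`ψ(o_p ◁ h) = (ρ(h) ⊗ 1) ψ(o_p)`. `psiZ` from `Z`-linearity; `ψ` is `k`-linear. `dim`: both are `m`. -/
def SpecPSI : Prop :=
  ∀ (k : Type u) (H Z Q : Type v) [Field k] [IsAlgClosed k] [Ring H] [HopfAlgebra k H] [Field Z]
    [Algebra k Z] [DivisionRing Q] [Algebra k Q] [Algebra Z Q] [IsScalarTower k Z Q]
    (ι : H →ₐ[k] Q) (R : H →ₗ[k] Module.End Z ↥(Opp k Z ι)), IsRO k Z ι R →
    Module.Finite k ↥(LinearMap.range R) →
    ∀ (Ω : Type v) [Field Ω] [Algebra k Ω] (i : Z ⊗[k] Z →ₐ[k] Ω) (m : ℕ)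
      (o : Module.Basis (Fin m) Z ↥(Opp k Z ι)) (al : Fin m → Fin m → Ω),
      Function.Injective i → AlMat k Z ι o R i al →
    ∃ (AA : Type (max u v)) (P : Type v) (_ : Ring AA) (_ : Algebra k AA) (_ : Field P)
      (_ : Algebra k P) (_ : Algebra Z P) (_ : IsScalarTower k Z P) (ρ : H →ₗ[k] Module.End k AA)
      (ψ : ↥(Opp k Z ι) →ₐ[k] AA ⊗[k] P), CPre k Z ι ρ ψ

/-- **GCL** (120 lines). Passage to a Galois extension.

PROOF. `P` := the normal closure of `P0 / Z` in an algebraic closure of `P0` (`normalClosure`, finite;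
separable as `char k = 0`); `ψ' := (id ⊗ (P0 → P)) ∘ ψ`. -/
def SpecGCL : Prop :=
  ∀ (k : Type u) (H Z Q : Type v) [Field k] [CharZero k] [Ring H] [HopfAlgebra k H] [Field Z]
    [Algebra k Z] [DivisionRing Q] [Algebra k Q] [Algebra Z Q] [IsScalarTower k Z Q]
    (ι : H →ₐ[k] Q) (AA : Type w) (P0 : Type v) [Ring AA] [Algebra k AA] [Field P0] [Algebra k P0]
    [Algebra Z P0] [IsScalarTower k Z P0] (ρ : H →ₗ[k] Module.End k AA)
    (ψ : ↥(Opp k Z ι) →ₐ[k] AA ⊗[k] P0), CPre k Z ι ρ ψ →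
    ∃ (P : Type v) (_ : Field P) (_ : Algebra k P) (_ : Algebra Z P) (_ : IsScalarTower k Z P)
      (ψ' : ↥(Opp k Z ι) →ₐ[k] AA ⊗[k] P), IsGalois Z P ∧ CPre k Z ι ρ ψ'

/-- **SPN** (150 lines). `ψ(O'')` spans `AA ⊗ P` over `P`.

PROOF. `m = [O'' : Z] = dim_k AA ≥ 1`, `x_l` a `Z`-basis of `O''`. It is enough that the `m` elements `ψ(x_l)` of
the `P`-space `AA ⊗ P` of dimension `m` are `P`-independent. Let `∑ ψ(x_l)(1 ⊗ p_l) = 0`. For every `h ∈ H`,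
`b ∈ O''`: apply `ρ(h) ⊗ 1` and multiply by `ψ(b)`: `∑ ψ((x_l ◁ h) b)(1 ⊗ p_l) = 0` (`1 ⊗ p` is central). By
EG.SpecDNS `∑ ψ(φ(x_l))(1 ⊗ p_l) = 0` for every `Z`-linear `φ : O'' → O''`; `φ(x_l) = 1`, `φ(x_j) = 0`
(`j ≠ l`): `1 ⊗ p_l = 0`, `p_l = 0` (`AA ≠ 0`). -/
def SpecSPN : Prop :=
  ∀ (k : Type u) (H Z Q : Type v) [Field k] [Ring H] [HopfAlgebra k H] [Field Z] [Algebra k Z]
    [DivisionRing Q] [Algebra k Q] [Algebra Z Q] [IsScalarTower k Z Q] (ι : H →ₐ[k] Q)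
    (AA : Type w) (P : Type v) [Ring AA] [Algebra k AA] [Field P] [Algebra k P] [Algebra Z P]
    [IsScalarTower k Z P] (ρ : H →ₗ[k] Module.End k AA) (ψ : ↥(Opp k Z ι) →ₐ[k] AA ⊗[k] P),
    IsCQ k H Z Q ι → CPre k Z ι ρ ψ →
    Submodule.span k {y : AA ⊗[k] P | ∃ x p, y = ψ x * (1 ⊗ₜ[k] p)} = ⊤

/-- **COP** (150 lines; EG.SpecCOO without `θ`). Every `k`-linear endomorphism of `AA` is
`a ↦ ∑ ρ(h_j)(a) b_j`.

PROOF. As EG.SpecCOO: `x_l` a `Z`-basis of `O''`, `ψ(x_l)` is a `P`-basis of `AA ⊗ P` (span and dimension).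
Every `P`-linear endomorphism of `AA ⊗ P` is a `P`-combination of those which extend `Z`-linear
endomorphisms of `O''`, by DNS and `psiH` these are `y ↦ ∑ (ρ(h_j) ⊗ 1)(y) ψ(b_j)`. So with
`E ⊆ End_k(AA)` the span of the maps `a ↦ ρ(h)(a) b`, the `P`-span of `{e ⊗ 1 : e ∈ E}` is
`End_P(AA ⊗ P)`; so `E = End_k(AA)` (take a linear functional on `End_k(AA)` which kills `E` and extend it
to `P`). -/
def SpecCOP : Prop :=
  ∀ (k : Type u) (H Z Q : Type v) [Field k] [Ring H] [HopfAlgebra k H] [Field Z] [Algebra k Z]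
    [DivisionRing Q] [Algebra k Q] [Algebra Z Q] [IsScalarTower k Z Q] (ι : H →ₐ[k] Q)
    (AA : Type w) (P : Type v) [Ring AA] [Algebra k AA] [Field P] [Algebra k P] [Algebra Z P]
    [IsScalarTower k Z P] (ρ : H →ₗ[k] Module.End k AA) (ψ : ↥(Opp k Z ι) →ₐ[k] AA ⊗[k] P),
    IsCQ k H Z Q ι → CPre k Z ι ρ ψ →
    Submodule.span k {y : AA ⊗[k] P | ∃ x p, y = ψ x * (1 ⊗ₜ[k] p)} = ⊤ → ∀ φ : AA →ₗ[k] AA,
    ∃ (n : ℕ) (h : Fin n → H) (b : Fin n → AA), ∀ a : AA, φ a = ∑ j, ρ (h j) a * b j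

/-- **THE** (350 lines). The automorphisms `θ_γ` are defined over `k`.

PROOF. Fix `γ`. `x_l` a `Z`-basis of `O''`; `ψ(x_l)` is a `P`-basis of `AA ⊗ P` (span and dimension, `psiZ`).
(1) Let `β` be the `P`-linear endomorphism of `AA ⊗ P` with `β(ψ(x_l)) = (id ⊗ γ) ψ(x_l)`. As `γ` fixes `Z`,
`β(ψ(x)) = (id ⊗ γ) ψ(x)` for `x ∈ O''`; so `β` is multiplicative, unital, commutes with `ρ(h) ⊗ 1` (`psiH`),
and injective (`id ⊗ γ` maps a `P`-basis to a `P`-basis).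
(2) `β(a ⊗ 1) = ∑_s e_s(a) ⊗ q_s` with `e_1, .., e_r ∈ End_k(AA)` `k`-independent, commuting with all `ρ(h)`,
and `q_s ∈ P` (first with `k`-independent elements of `P`, then choose a basis of the span of the
components). (3) INDEPENDENCE: if `c_s ∈ AA` and `∑ e_s(a) c_s = 0` for all `a ∈ AA`, then all `c_s = 0`. The
set `L` of these `(c_s)` is stable under right multiplication by `AA` and under `ρ(h)`:
`0 = ρ(h₂)(∑ e_s(ρ(S(h₁)) a) c_s) = ∑ e_s(ρ(h₂) ρ(S(h₁)) a) ρ(h₃) c_s = ∑ e_s(a) ρ(h) c_s`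
(`ρ(h₂) ρ(S(h₁)) = ρ(S(h₁) h₂) = ε`). By COP it is stable under every `φ ∈ End_k(AA)` applied to all
components. If `c_t ≠ 0` take `φ(c) = f(c) 1`, `f ∈ AA*`, `f(c_t) = 1`: `∑ f(c_s) e_s(a) = 0` for all `a`, so
`∑ f(c_s) e_s = 0`, `f(c_t) = 0`, a contradiction. Hence the bilinear maps
`(a, b) ↦ e_s(a) e_t(b)` are `k`-independent. (4) `β` multiplicative:
`∑_s e_s(a b) ⊗ q_s = ∑_{s, t} e_s(a) e_t(b) ⊗ q_s q_t`; apply linear functionals on the space of bilinear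
maps `AA × AA → AA`, dual to the family in (3): `q_s q_t ∈ T := span_k(q_1, .., q_r)`. So `T ⊆ P` is a
finite-dimensional `k`-space closed under products, `T ≠ 0`: it contains `1` (`p T = T` for `0 ≠ p ∈ T`), it is
a finite-dimensional domain over the algebraically closed `k`: `T = k`. So `q_s ∈ k` and
`β(a ⊗ 1) = θ_γ(a) ⊗ 1`. (5) `θ_γ : AA → AA` is linear, multiplicative, unital, injective, so an
automorphism; `thH` and `thP` from (1): `β` is `P`-linear. -/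
def SpecTHE : Prop :=
  ∀ (k : Type u) (H Z Q : Type v) [Field k] [IsAlgClosed k] [Ring H] [HopfAlgebra k H] [Field Z]
    [Algebra k Z] [DivisionRing Q] [Algebra k Q] [Algebra Z Q] [IsScalarTower k Z Q]
    (ι : H →ₐ[k] Q)
    (AA : Type w) (P : Type v) [Ring AA] [Algebra k AA] [Field P] [Algebra k P] [Algebra Z P]
    [IsScalarTower k Z P] (ρ : H →ₗ[k] Module.End k AA) (ψ : ↥(Opp k Z ι) →ₐ[k] AA ⊗[k] P),
    IsCQ k H Z Q ι → CPre k Z ι ρ ψ →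
    Submodule.span k {y : AA ⊗[k] P | ∃ x p, y = ψ x * (1 ⊗ₜ[k] p)} = ⊤ →
    ∃ θ : (P ≃ₐ[Z] P) → (AA ≃ₐ[k] AA),
      (∀ (γ : P ≃ₐ[Z] P) (h : H) (a : AA), θ γ (ρ h a) = ρ h (θ γ a)) ∧
      ∀ (γ : P ≃ₐ[Z] P) (x : ↥(Opp k Z ι)),
        Algebra.TensorProduct.map (AlgHom.id k AA) (γ.toAlgHom.restrictScalars k) (ψ x) =
          Algebra.TensorProduct.map ((θ γ).toAlgHom) (AlgHom.id k P) (ψ x)

/-- **CPK** (100 lines; helper42). Assembly: the constancy package. -/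
def SpecCPK : Prop :=
  ∀ (k : Type u) (H Z Q : Type v) [Field k] [IsAlgClosed k] [CharZero k] [Ring H]
    [IsNoetherianRing H] [HopfAlgebra k H] [Field Z] [Algebra k Z] [DivisionRing Q] [Algebra k Q]
    [Algebra Z Q] [IsScalarTower k Z Q] (ι : H →ₐ[k] Q),
    IsCQ k H Z Q ι → Function.Bijective (antipode k (A := H)) →
    ∃ (AA : Type (max u v)) (P : Type v) (_ : Ring AA) (_ : Algebra k AA) (_ : Field P)
      (_ : Algebra k P) (_ : Algebra Z P) (_ : IsScalarTower k Z P) (ρ : H →ₗ[k] Module.End k AA)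
      (ψ : ↥(Opp k Z ι) →ₐ[k] AA ⊗[k] P) (θ : (P ≃ₐ[Z] P) → (AA ≃ₐ[k] AA)), CPkg k Z ι ρ ψ θ

end Pool.Agent.Lib.MP_c37a72_al.CO
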