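import Pool.Agent.Lib.MP_c37a72_al.EG.COO
import Pool.Agent.Lib.MP_c37a72_al.EG.NUA
import Pool.Agent.Lib.MP_c37a72_al.EG.ADA
import Pool.Agent.Lib.MP_c37a72_al.EG.ADB
import Pool.Agent.Lib.MP_c37a72_al.EG.BID
import Pool.Agent.Lib.MP_c37a72_al.EG.DNS
import Pool.Agent.Lib.MP_c37a72_al.EG.KFD
import Pool.Agent.Lib.MP_c37a72_al.KTK
import Pool.Agent.Lib.MP_c37a72_al.EG.OPP
import Pool.Agent.Lib.MP_c37a72_al.EG.RET
import Pool.Agent.Lib.MP_c37a72_al.PUR
import Pool.Agent.Lib.MP_c37a72_al.INT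
import Pool.Agent.Lib.MP_c37a72_al.KC.KDT
import Pool.Agent.Lib.MP_c37a72_al.CO.SQX
import Pool.Agent.Lib.MP_c37a72_al.CO.DIM
import Pool.Agent.Lib.MP_c37a72_al.CO.RES
import Pool.Agent.Lib.MP_c37a72_al.CO.CHI
import Pool.Agent.Lib.MP_c37a72_al.CO.PSI
import Pool.Agent.Lib.MP_c37a72_al.CO.GCL
import Pool.Agent.Lib.MP_c37a72_al.CO.SPN
import Pool.Agent.Lib.MP_c37a72_al.NR.IDA
import Pool.Agent.Lib.MP_c37a72_al.CO.UNI
import Pool.Agent.Lib.MP_c37a72_al.CO.DES
import Pool.Agent.Lib.MP_c37a72_al.CO.SP1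
import Pool.Agent.Lib.MP_c37a72_al.CO.SP2
import Pool.Agent.Lib.MP_c37a72_al.CO.LCO
import Pool.Agent.Lib.MP_c37a72_al.CO.NCG
import Pool.Agent.Lib.MP_c37a72_al.CO.NCX
import Pool.Agent.Lib.MP_c37a72_al.CO.CEX
import Pool.Agent.Lib.MP_c37a72_al.CO.IDE
import Pool.Agent.Lib.MP_c37a72_al.CO.SEV
import Pool.Agent.Lib.MP_c37a72_al.CO.RNO
import Pool.Agent.Lib.MP_c37a72_al.CO.LFT

section
/-!
# MP_c37a72_al, block EG: module ICA
-/
set_option autoImplicit false
set_option linter.all false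

open scoped TensorProduct
open Coalgebra HopfAlgebra

namespace Pool.Agent.Lib.MP_c37a72_al.EG

universe u v w

namespace ICAM

open COOM

section

variable {k : Type u} {Z : Type v} {H Q : Type v} [Field k] [Ring H] [HopfAlgebra k H]
  [Field Z] [Algebra k Z] [DivisionRing Q] [Algebra k Q] [Algebra Z Q] [IsScalarTower k Z Q]
  (ι : H →ₐ[k] Q) {AA : Type w} {P : Type v} [Ring AA] [Algebra k AA] [Field P] [Algebra k P]

/-- The `k`-span of all `ψ(ι n)(b ⊗ 1)`. -/
def YY (ψ : ↥(Opp k Z ι) →ₐ[k] AA ⊗[k] P) (tt : Submodule k H) : Submodule k (AA ⊗[k] P) :=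
  Submodule.span k {y | ∃ (x : ↥(Opp k Z ι)) (n : H) (b : AA), n ∈ tt ∧ (x : Q) = ι n ∧
    y = ψ x * (b ⊗ₜ[k] 1)}

end

/-- `1 ⊗ (φ ⊗ 1) y` from a formula `φ(a) 1 = ∑ ρ(h_j)(a) b_j` -/
theorem one_tmul_cf {k : Type u} {AA : Type w} {P : Type v} [Field k] [Ring AA] [Algebra k AA]
    [Field P] [Algebra k P] {n : ℕ} (φ : AA →ₗ[k] k) (g : Fin n → (AA →ₗ[k] AA)) (b : Fin n → AA)
    (h : ∀ a, algebraMap k AA (φ a) = ∑ j, g j a * b j) (y : AA ⊗[k] P) :
    (1 : AA) ⊗ₜ[k] cf φ y =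
      ∑ j, TensorProduct.map (g j) (LinearMap.id : P →ₗ[k] P) y * (b j ⊗ₜ[k] 1) := by
  induction y using TensorProduct.induction_on with
  | zero => simp
  | tmul a p =>
    rw [cf_tmul]
    simp only [TensorProduct.map_tmul, LinearMap.id_coe, id_eq, Algebra.TensorProduct.tmul_mul_tmul,
      mul_one]
    rw [← TensorProduct.sum_tmul, ← h a, Algebra.algebraMap_eq_smul_one, TensorProduct.smul_tmul]
  | add x y hx hy =>
    rw [map_add, TensorProduct.tmul_add, hx, hy, ← Finset.sum_add_distrib]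
    refine Finset.sum_congr rfl fun j _ => ?_
    rw [map_add, add_mul]

end ICAM

open COOM ICAM in
/-- **ICA** -/
theorem specICA (hOPP : SpecOPP.{u, v}) (hNFA : SpecNFA.{u, v}) (hCOO : SpecCOO.{u, v, w})
    (hAGK : SpecAGK.{u, v, w}) : SpecICA.{u, v, w} := by
  intro k H Z Q _ _ _ _ _ _ _ _ _ _ _ ι hQ AA P _ _ _ _ _ _ ρ ψ θ hc tt ht z hz
  obtain ⟨m, hm, ⟨B⟩, ⟨X⟩⟩ := exists_bases hQ hc
  have hinj := psi_inj hc B X
  obtain ⟨hstab, -, -⟩ := hOPP k H Z Q ι hQ
  obtain ⟨nfa1, -, -, -, -, nfa6, -, -⟩ := hNFA k H Z Q ι hQ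
  obtain ⟨hth, hsum⟩ := hAGK k H Z Q ι hQ AA P ρ ψ θ hc
  have hmemOpp : ∀ n ∈ tt, ι n ∈ Opp k Z ι := fun n hn => nfa1 n (ht.le n hn)
  -- (1)
  have hS : ∀ s ∈ SS k Z ι ψ tt, ∃ (n : ℕ) (x : Fin n → ↥(Opp k Z ι)) (u : Fin n → H)
      (b : Fin n → AA), (∀ j, u j ∈ tt) ∧ (∀ j, (x j : Q) = ι (u j)) ∧
      (1 : AA) ⊗ₜ[k] s = ∑ j, ψ (x j) * (b j ⊗ₜ[k] 1) := by
    rintro s ⟨x, n, φ, hn, hx, rfl⟩
    obtain ⟨N, h, b, hb⟩ := hCOO k H Z Q ι hQ AA P ρ ψ θ hc
      ((Algebra.linearMap k AA) ∘ₗ φ)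
    have h1 := one_tmul_cf (P := P) φ (fun j => ρ (h j)) b (fun a => hb a) (ψ x)
    refine ⟨N, fun j => ⟨adrQ k Z ι (h j) x, hstab (h j) x x.2⟩, fun j => adRH k H (h j) n, b,
      fun j => ht.ad (h j) n hn, fun j => ?_, ?_⟩
    · show adrQ k Z ι (h j) (x : Q) = _
      rw [hx, nfa6]
    · rw [← cf_eq, h1]
      refine Finset.sum_congr rfl fun j _ => ?_
      rw [hc.psiH (h j) x ⟨adrQ k Z ι (h j) x, hstab (h j) x x.2⟩ rfl]
  have hSY : ∀ s ∈ SS k Z ι ψ tt, (1 : AA) ⊗ₜ[k] s ∈ YY ι ψ tt := by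
    intro s hs
    obtain ⟨n, x, u, b, hu, hx, e⟩ := hS s hs
    rw [e]
    exact Submodule.sum_mem _ fun j _ => Submodule.subset_span ⟨x j, u j, b j, hu j, hx j, rfl⟩
  -- (2)
  have hYS : ∀ y ∈ YY ι ψ tt, ∀ s ∈ SS k Z ι ψ tt, y * ((1 : AA) ⊗ₜ[k] s) ∈ YY ι ψ tt := by
    intro y hy s hs
    unfold YY at hy
    induction hy using Submodule.span_induction with
    | mem y h =>
      obtain ⟨x', n', b', hn', hx', rfl⟩ := h
      obtain ⟨n, x, u, b, hu, hx, e⟩ := hS s hs
      rw [mul_assoc, tmul_one_comm, e, Finset.sum_mul, Finset.mul_sum]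
      refine Submodule.sum_mem _ fun j _ => ?_
      refine Submodule.subset_span ⟨x' * x j, n' * u j, b j * b',
        (ht.mul n' (ht.le n' hn') (u j) (hu j)).1, ?_, ?_⟩
      · rw [map_mul, ← hx', ← hx j]; rfl
      · rw [map_mul, mul_assoc, mul_assoc, Algebra.TensorProduct.tmul_mul_tmul, one_mul]
    | zero => simp
    | add x y _ _ hx hy => rw [add_mul]; exact Submodule.add_mem _ hx hy
    | smul c x _ hx => rw [smul_mul_assoc]; exact Submodule.smul_mem _ c hx
  have hTP : ∀ t ∈ TP k Z ι ψ tt, (1 : AA) ⊗ₜ[k] t ∈ YY ι ψ tt := by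
    have hl : ∀ l : List P, l ≠ [] → (∀ s ∈ l, s ∈ SS k Z ι ψ tt) →
        (1 : AA) ⊗ₜ[k] l.prod ∈ YY ι ψ tt := by
      intro l
      induction l with
      | nil => intro h; exact absurd rfl h
      | cons s l ih =>
        intro _ hs
        by_cases hl : l = []
        · subst hl
          simpa using hSY s (hs s (by simp))
        · have h1 := ih hl (fun t ht' => hs t (List.mem_cons_of_mem _ ht'))
          have h2 := hYS _ h1 s (hs s (by simp))
          rw [Algebra.TensorProduct.tmul_mul_tmul, one_mul, mul_comm] at h2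
          rw [List.prod_cons]
          exact h2
    intro t ht'
    unfold TP at ht'
    induction ht' using Submodule.span_induction with
    | mem t h => obtain ⟨l, h0, h1, rfl⟩ := h; exact hl l h0 h1
    | zero => simp
    | add x y _ _ hx hy => rw [TensorProduct.tmul_add]; exact Submodule.add_mem _ hx hy
    | smul c x _ hx => rw [TensorProduct.tmul_smul]; exact Submodule.smul_mem _ c hx
  -- (3)
  have hfinP := hc.finP
  letI : Fintype (P ≃ₐ[Z] P) := Fintype.ofFinite _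
  have hY := hTP _ hz
  -- the averaging operator
  have hth1 : ∀ a, θ 1 a = a := by
    intro a
    have := hth 1 1 a
    rw [mul_one] at this
    exact ((θ 1).injective this).symm
  have hthi : ∀ γ a, θ γ (θ γ⁻¹ a) = a := by
    intro γ a
    have := hth γ⁻¹ γ a
    rw [inv_mul_cancel, hth1] at this
    exact this.symm
  have hthi' : ∀ γ a, θ γ⁻¹ (θ γ a) = a := by
    intro γ a
    have := hthi γ⁻¹ a
    rwa [inv_inv] at this
  let Φ : (P ≃ₐ[Z] P) → (AA ⊗[k] P →ₐ[k] AA ⊗[k] P) := fun γ =>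
    (Algebra.TensorProduct.map ((θ γ⁻¹).toAlgHom) (AlgHom.id k P)).comp
      (Algebra.TensorProduct.map (AlgHom.id k AA) (γ.toAlgHom.restrictScalars k))
  have hΦψ : ∀ γ x, Φ γ (ψ x) = ψ x := by
    intro γ x
    show Algebra.TensorProduct.map ((θ γ⁻¹).toAlgHom) (AlgHom.id k P)
      (Algebra.TensorProduct.map (AlgHom.id k AA) (γ.toAlgHom.restrictScalars k) (ψ x)) = ψ x
    rw [hc.thP]
    generalize ψ x = y
    induction y using TensorProduct.induction_on with
    | zero => simp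
    | tmul a p => simp [hthi']
    | add x y hx hy => rw [map_add, map_add, hx, hy]
  have hΦb : ∀ γ b, Φ γ (b ⊗ₜ[k] 1) = θ γ⁻¹ b ⊗ₜ[k] 1 := by
    intro γ b
    simp [Φ]
  have hΦz : ∀ γ, Φ γ (1 ⊗ₜ[k] algebraMap Z P z) = 1 ⊗ₜ[k] algebraMap Z P z := by
    intro γ
    simp [Φ]
  -- the averages of the elements of `YY`
  have hav : ∀ y ∈ YY ι ψ tt, ∃ (x : ↥(Opp k Z ι)) (n : H), n ∈ tt ∧ (x : Q) = ι n ∧
      ∑ γ, Φ γ y = ψ x := by
    intro y hy
    unfold YY at hy
    induction hy using Submodule.span_induction with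
    | mem y h =>
      obtain ⟨x, n, b, hn, hx, rfl⟩ := h
      obtain ⟨c, hcb⟩ := hsum b
      refine ⟨c • x, c • n, Submodule.smul_mem _ c hn, ?_, ?_⟩
      · rw [map_smul, ← hx]; rfl
      · have e1 : ∀ γ, Φ γ (ψ x * (b ⊗ₜ[k] 1)) = ψ x * (θ γ⁻¹ b ⊗ₜ[k] 1) := by
          intro γ
          rw [map_mul, hΦψ, hΦb]
        simp only [e1]
        rw [← Finset.mul_sum, ← TensorProduct.sum_tmul]
        have e2 : ∑ γ, θ γ⁻¹ b = algebraMap k AA c := by
          rw [← hcb]
          exact Fintype.sum_equiv (Equiv.inv _) _ _ (fun γ => rfl)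
        rw [e2, Algebra.algebraMap_eq_smul_one, ← TensorProduct.smul_tmul',
          ← Algebra.TensorProduct.one_def, mul_smul_comm, mul_one, map_smul]
    | zero => exact ⟨0, 0, Submodule.zero_mem _, by simp, by simp⟩
    | add x y _ _ hx hy =>
      obtain ⟨x1, n1, h1, h2, h3⟩ := hx
      obtain ⟨x2, n2, g1, g2, g3⟩ := hy
      refine ⟨x1 + x2, n1 + n2, Submodule.add_mem _ h1 g1, ?_, ?_⟩
      · rw [map_add, ← h2, ← g2]; rfl
      · rw [map_add, ← h3, ← g3, ← Finset.sum_add_distrib]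
        exact Finset.sum_congr rfl fun γ _ => map_add _ _ _
    | smul c x _ hx =>
      obtain ⟨x1, n1, h1, h2, h3⟩ := hx
      refine ⟨c • x1, c • n1, Submodule.smul_mem _ c h1, ?_, ?_⟩
      · rw [map_smul, ← h2]; rfl
      · rw [map_smul, ← h3, Finset.smul_sum]
        exact Finset.sum_congr rfl fun γ _ => map_smul _ _ _
  obtain ⟨x, n, hn, hx, e⟩ := hav _ hY
  simp only [hΦz, Finset.sum_const, Finset.card_univ] at e
  rw [← hc.psiZ, ← map_nsmul] at e
  have e' := hinj e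
  set g := Fintype.card (P ≃ₐ[Z] P) with hg
  have hg0 : (g : k) ≠ 0 := by
    rw [Nat.cast_ne_zero, hg]
    exact Fintype.card_ne_zero
  refine ⟨(g : k)⁻¹ • n, Submodule.smul_mem _ _ hn, ?_⟩
  rw [map_smul, ← hx, ← e']
  have e2 : ((g • (algebraMap Z ↥(Opp k Z ι) z) : ↥(Opp k Z ι)) : Q) = (g : k) • algebraMap Z Q z := by
    rw [Nat.cast_smul_eq_nsmul]; rfl
  rw [e2, smul_smul, inv_mul_cancel₀ hg0, one_smul]

end Pool.Agent.Lib.MP_c37a72_al.EG
end

section
/-!
# MP_c37a72_al, block EG: module ICB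
-/
set_option autoImplicit false
set_option linter.all false

open scoped TensorProduct
open Coalgebra HopfAlgebra

namespace Pool.Agent.Lib.MP_c37a72_al.EG

universe u v w

namespace ICBM

open COOM

/-- The `k`-span of the products of at least one element of `S`. -/
def LP (k : Type u) {P : Type v} [Field k] [Field P] [Algebra k P] (S : Set P) : Submodule k P :=
  Submodule.span k {p | ∃ l : List P, l ≠ [] ∧ (∀ s ∈ l, s ∈ S) ∧ p = l.prod}

section LP

variable {k : Type u} {P : Type v} [Field k] [Field P] [Algebra k P] {S : Set P}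

theorem LP_of (s : P) (hs : s ∈ S) : s ∈ LP k S :=
  Submodule.subset_span ⟨[s], by simp, by simpa using hs, by simp⟩

theorem LP_mul_of (s : P) (hs : s ∈ S) (t : P) (ht : t ∈ LP k S) : s * t ∈ LP k S := by
  unfold LP at ht
  induction ht using Submodule.span_induction with
  | mem t h =>
    obtain ⟨l, h0, h1, rfl⟩ := h
    refine Submodule.subset_span ⟨s :: l, by simp, ?_, by simp⟩
    intro x hx
    rcases List.mem_cons.1 hx with rfl | hx
    · exact hs
    · exact h1 x hx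
  | zero => simp
  | add x y _ _ hx hy => rw [mul_add]; exact Submodule.add_mem _ hx hy
  | smul c x _ hx => rw [mul_smul_comm]; exact Submodule.smul_mem _ c hx

theorem LP_mul (r : P) (hr : r ∈ Algebra.adjoin k S) (t : P) (ht : t ∈ LP k S) :
    r * t ∈ LP k S := by
  induction hr using Algebra.adjoin_induction generalizing t with
  | mem s hs => exact LP_mul_of s hs t ht
  | algebraMap c => rw [← Algebra.smul_def]; exact Submodule.smul_mem _ c ht
  | add x y _ _ hx hy => rw [add_mul]; exact Submodule.add_mem _ (hx t ht) (hy t ht)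
  | mul x y _ _ hx hy => rw [mul_assoc]; exact hx _ (hy t ht)

theorem charpoly_mem {n : Type} [Fintype n] [DecidableEq n] (M : Matrix n n P)
    (hM : ∀ i j, M i j ∈ S) (s : ℕ) (hs : s < Fintype.card n) : M.charpoly.coeff s ∈ LP k S := by
  let R := Algebra.adjoin k S
  let M0 : Matrix n n R := Matrix.of fun i j => ⟨M i j, Algebra.subset_adjoin (hM i j)⟩
  have e : M = M0.map (algebraMap R P) := by
    ext i j
    rfl
  let I : Ideal R := Ideal.span {x : R | (x : P) ∈ S}
  have h0 : ∀ i j, M0 i j ∈ I := fun i j => Ideal.subset_span (hM i j)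
  have h1 : M0.charpoly.coeff s ∈ I ^ (Fintype.card n - s) :=
    Matrix.coeff_charpoly_mem_ideal_pow h0 s
  have h2 : M0.charpoly.coeff s ∈ I := Ideal.pow_le_self (by omega) h1
  have h3 : ∀ x ∈ I, (x : P) ∈ LP k S := by
    intro x hx
    induction hx using Submodule.span_induction with
    | mem x h => exact LP_of _ h
    | zero => exact Submodule.zero_mem _
    | add x y _ _ hx hy => exact Submodule.add_mem _ hx hy
    | smul r x _ hx => exact LP_mul _ r.2 _ hx
  have h4 := h3 _ h2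
  rw [e, Matrix.charpoly_map, Polynomial.coeff_map]
  exact h4

end LP

section basis

variable {k : Type u} {Z : Type v} {H Q : Type v} [Field k] [Ring H] [HopfAlgebra k H]
  [Field Z] [Algebra k Z] [DivisionRing Q] [Algebra k Q] [Algebra Z Q] [IsScalarTower k Z Q]
  {ι : H →ₐ[k] Q} {AA : Type w} {P : Type v} [Ring AA] [Algebra k AA] [Field P] [Algebra k P]
  [Algebra Z P] [IsScalarTower k Z P] {ρ : H →ₗ[k] Module.End k AA}
  {ψ : ↥(Opp k Z ι) →ₐ[k] AA ⊗[k] P} {θ : (P ≃ₐ[Z] P) → (AA ≃ₐ[k] AA)}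

/-- the matrix of the left multiplication by `y` -/
noncomputable def LM {m : ℕ} (B : Module.Basis (Fin m) k AA) (y : AA ⊗[k] P) :
    Matrix (Fin m) (Fin m) P :=
  Matrix.of fun l' l => cf (B.coord l' ∘ₗ LinearMap.mulRight k (B l)) y

theorem CM_mul (hc : CPkg k Z ι ρ ψ θ) {m : ℕ} (B : Module.Basis (Fin m) k AA)
    (X : Module.Basis (Fin m) Z ↥(Opp k Z ι)) (x : ↥(Opp k Z ι)) :
    CM ψ B X * (Algebra.leftMulMatrix X x).map (algebraMap Z P) = LM B (ψ x) * CM ψ B X := by
  ext l' i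
  rw [Matrix.mul_apply, Matrix.mul_apply]
  have h1 := cf_endo B (LinearMap.mulLeft k (ψ x)) (fun y p => by simp [mul_assoc])
    (B.coord l') (ψ (X i))
  rw [LinearMap.mulLeft_apply, ← map_mul, cf_psi_sum B X hc] at h1
  simp only [Matrix.map_apply, Algebra.leftMulMatrix_eq_repr_mul]
  rw [h1]
  refine Finset.sum_congr rfl fun l _ => ?_
  rw [LinearMap.mulLeft_apply, cf_mul_left, CM_apply]
  rfl

theorem charpoly_eq (hc : CPkg k Z ι ρ ψ θ) {m r : ℕ} (B : Module.Basis (Fin m) k AA)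
    (X : Module.Basis (Fin m) Z ↥(Opp k Z ι)) (t : Matrix (Fin r) (Fin r) ↥(Opp k Z ι)) :
    (Matrix.compRingEquiv (Fin r) (Fin m) Z (t.map (Algebra.leftMulMatrix X))).charpoly.map
      (algebraMap Z P) =
    (Matrix.compRingEquiv (Fin r) (Fin m) P (t.map fun x => LM B (ψ x))).charpoly := by
  obtain ⟨D, hCD, hDC⟩ := exists_inv hc B X
  rw [← Matrix.charpoly_map]
  set Ξ := Matrix.compRingEquiv (Fin r) (Fin m) P with hΞ
  let N1 : Matrix (Fin r) (Fin r) (Matrix (Fin m) (Fin m) P) :=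
    t.map fun x => (Algebra.leftMulMatrix X x).map (algebraMap Z P)
  let N2 : Matrix (Fin r) (Fin r) (Matrix (Fin m) (Fin m) P) := t.map fun x => LM B (ψ x)
  have e0 : (Matrix.compRingEquiv (Fin r) (Fin m) Z (t.map (Algebra.leftMulMatrix X))).map
      (algebraMap Z P) = Ξ N1 := by
    ext ⟨i, a⟩ ⟨j, b⟩
    rfl
  rw [e0]
  let sc : Matrix (Fin m) (Fin m) P → Matrix (Fin r) (Fin r) (Matrix (Fin m) (Fin m) P) :=
    fun C => Matrix.diagonal fun _ => C
  have e1 : sc (CM ψ B X) * N1 = N2 * sc (CM ψ B X) := by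
    ext1 i j
    rw [Matrix.diagonal_mul, Matrix.mul_diagonal]
    exact CM_mul hc B X (t i j)
  have e2 : sc D * sc (CM ψ B X) = 1 := by
    show Matrix.diagonal _ * Matrix.diagonal _ = _
    rw [Matrix.diagonal_mul_diagonal, hDC]
    exact Matrix.diagonal_one
  have e3 : sc (CM ψ B X) * sc D = 1 := by
    show Matrix.diagonal _ * Matrix.diagonal _ = _
    rw [Matrix.diagonal_mul_diagonal, hCD]
    exact Matrix.diagonal_one
  have e4 : N1 = sc D * (N2 * sc (CM ψ B X)) := by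
    rw [← e1, ← mul_assoc, e2, one_mul]
  rw [e4, map_mul, Matrix.charpoly_mul_comm, ← map_mul, mul_assoc, e3, mul_one]

end basis

end ICBM

open COOM ICBM in
/-- **ICB** -/
theorem specICB (hNFA : SpecNFA.{u, v}) (hICA : SpecICA.{u, v, w}) : SpecICB.{u, v, w} := by
  intro k H Z Q _ _ _ _ _ _ _ _ _ _ _ ι hQ AA P _ _ _ _ _ _ ρ ψ θ hc tt ht r T hT
  obtain ⟨m, hm, ⟨B⟩, ⟨X⟩⟩ := exists_bases hQ hc
  obtain ⟨nfa1, -⟩ := hNFA k H Z Q ι hQ
  rw [hm]
  have hmemOpp : ∀ n ∈ tt, ι n ∈ Opp k Z ι := fun n hn => nfa1 n (ht.le n hn)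
  let t : Matrix (Fin r) (Fin r) ↥(Opp k Z ι) :=
    Matrix.of fun i j => ⟨ι (T i j), hmemOpp _ (hT i j)⟩
  let Θ : Matrix (Fin r) (Fin r) ↥(Opp k Z ι) →ₐ[Z] Matrix (Fin r × Fin m) (Fin r × Fin m) Z :=
    (Matrix.compAlgEquiv (Fin r) (Fin m) Z Z).toAlgHom.comp
      (Algebra.leftMulMatrix X).mapMatrix
  have hΘ : Function.Injective Θ := by
    intro a b h
    have h' : (Algebra.leftMulMatrix X).mapMatrix a = (Algebra.leftMulMatrix X).mapMatrix b := by
      apply (Matrix.compAlgEquiv (Fin r) (Fin m) Z Z).injective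
      exact h
    ext i j
    have := congrFun (congrFun h' i) j
    exact congrArg Subtype.val (Algebra.leftMulMatrix_injective X this)
  set χ := (Θ t).charpoly with hχ
  have hdeg : χ.natDegree = r * m := by
    rw [hχ, Matrix.charpoly_natDegree_eq_dim]
    simp
  have hmon : χ.coeff (r * m) = 1 := by
    rw [← hdeg]
    exact Matrix.charpoly_monic _
  have hCH : Polynomial.aeval t χ = 0 := by
    apply hΘ
    rw [map_zero, ← Polynomial.aeval_algHom_apply]
    exact Matrix.aeval_self_charpoly _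
  have hchar : χ.map (algebraMap Z P) =
      (Matrix.compRingEquiv (Fin r) (Fin m) P (t.map fun x => LM B (ψ x))).charpoly :=
    charpoly_eq hc B X t
  have hcoef : ∀ s < r * m, ∃ x ∈ tt, ι x = algebraMap Z Q (χ.coeff s) := by
    intro s hs
    refine hICA k H Z Q ι hQ AA P ρ ψ θ hc tt ht _ ?_
    have h1 : algebraMap Z P (χ.coeff s) = (Matrix.compRingEquiv (Fin r) (Fin m) P
        (t.map fun x => LM B (ψ x))).charpoly.coeff s := by
      rw [← hchar, Polynomial.coeff_map]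
    rw [h1]
    refine charpoly_mem (k := k) (S := SS k Z ι ψ tt) _ ?_ s (by simpa using hs)
    rintro ⟨i, a⟩ ⟨j, b⟩
    exact ⟨t i j, T i j, _, hT i j, rfl, rfl⟩
  choose! c hc1 hc2 using hcoef
  refine ⟨fun s => c s, fun s => ⟨hc1 s s.2, ?_⟩, ?_⟩
  · intro x
    apply hQ.inj
    rw [map_mul, map_mul, hc2 s s.2]
    exact (Algebra.commutes _ _).symm
  · -- the equation
    have e1 : ∑ s ∈ Finset.range (r * m), χ.coeff s • t ^ s + t ^ (r * m) = 0 := by
      rw [← hCH, Polynomial.aeval_eq_sum_range, hdeg, Finset.sum_range_succ, hmon, one_smul]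
    have hval : ∀ (s : ℕ) (i j : Fin r), (((t ^ s) i j : ↥(Opp k Z ι)) : Q) = ι ((T ^ s) i j) := by
      intro s i j
      have h1 : (Opp k Z ι).val.mapMatrix t = (ι : H →+* Q).mapMatrix T := by
        ext i j
        rfl
      have h2 : (Opp k Z ι).val.mapMatrix (t ^ s) = (ι : H →+* Q).mapMatrix (T ^ s) := by
        rw [map_pow, map_pow, h1]
      exact congrFun (congrFun h2 i) j
    ext i j
    apply hQ.inj
    rw [Matrix.zero_apply, map_zero, Matrix.add_apply, Matrix.sum_apply, map_add, map_sum]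
    have e2 := congrArg Subtype.val (congrFun (congrFun e1 i) j)
    rw [Matrix.add_apply, Matrix.sum_apply] at e2
    have e3 : (((∑ s ∈ Finset.range (r * m), (χ.coeff s • t ^ s) i j) + (t ^ (r * m)) i j :
        ↥(Opp k Z ι)) : Q) = (∑ s ∈ Finset.range (r * m), (((χ.coeff s • t ^ s) i j :
        ↥(Opp k Z ι)) : Q)) + (((t ^ (r * m)) i j : ↥(Opp k Z ι)) : Q) := by
      rw [Subalgebra.coe_add, AddSubmonoidClass.coe_finsetSum]
    rw [e3, hval] at e2
    rw [add_comm, ← Fin.sum_univ_eq_sum_range (fun s => (((χ.coeff s • t ^ s) i j :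
      ↥(Opp k Z ι)) : Q)) (r * m)] at e2
    refine Eq.trans ?_ e2
    congr 1
    refine Finset.sum_congr rfl fun s _ => ?_
    rw [Matrix.smul_apply, smul_eq_mul, map_mul, hc2 s s.2, ← hval, Matrix.smul_apply,
      Algebra.smul_def (χ.coeff s)]
    rfl

end Pool.Agent.Lib.MP_c37a72_al.EG
end

section
/-!
# MP_c37a72_al, block EG: assembly of all the modules
-/
set_option autoImplicit false

namespace Pool.Agent.Lib.MP_c37a72_al.EG

universe u v w

theorem allADA : SpecADA.{u, v} := specADA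
theorem allADB : SpecADB.{u, v} := specADB specHAN
theorem allOLF : SpecOLF.{u, v} := specOLF allADA allADB
theorem allOPP : SpecOPP.{u, v} := specOPP allOLF
theorem allNFA : SpecNFA.{u, v} := specNFA allADB allOPP
theorem allDNS : SpecDNS.{u, v} := specDNS allADA allOLF allOPP
theorem allWEX : SpecWEX.{u, v} := specWEX allADA allOLF
theorem allTQ : SpecTQ.{u, v} := specTQ allADB
theorem allKFD : SpecKFD.{u, v} := specKFD allWEX allTQ allNFA allADA
theorem allCOO : SpecCOO.{u, v, w} := specCOO allOPP allDNS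
theorem allICA : SpecICA.{u, v, w} := specICA allOPP allNFA allCOO specAGK
theorem allICB : SpecICB.{u, v, w} := specICB allNFA allICA
theorem allNHN (hKTK : SpecKTK.{u, v}) : SpecNHN.{u, v} := specNHN allADB hKTK
theorem allRET (hKTK : SpecKTK.{u, v}) : SpecRET.{u, v} :=
  specRET (specINT specHAN) (allNHN hKTK) allNFA specCST allADA
theorem allREY : SpecREY.{u, v, w} := specREY allADA allOPP allNFA allCOO specAGK
theorem allFIN : SpecFIN.{u, v} := specFIN allNFA specNUA

/-- The endgame. -/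
theorem allEND (hKTK : SpecKTK.{u, v}) : SpecEND.{u, v, w} :=
  specEND allKFD specBID (allNHN hKTK) allICB (allRET hKTK) allREY allFIN

end Pool.Agent.Lib.MP_c37a72_al.EG
end

section
/-!
# MP_c37a72_al, block CO: assembly of all the modules (the constancy package)
-/
set_option autoImplicit false

namespace Pool.Agent.Lib.MP_c37a72_al.CO

universe u v w

theorem allADS : SpecADS.{u, v} := specADS specHAN EG.allOLF
theorem allLCO : SpecLCO.{u, v} := specLCO EG.allOLF
theorem allDIM : SpecDIM.{u, v} :=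
  specDIM allLCO specDCT specHAN EG.allADA EG.allOPP EG.allOLF
theorem allRES : SpecRES.{u, v} := specRES EG.allADA EG.allOPP
theorem allXIK : SpecXIK.{u, v} := specXIK allDIM allRES EG.allDNS
theorem allDES : SpecDES.{u, v} :=
  specDES allXIK EG.allDNS EG.allADA EG.allADB allADS EG.allOPP specHAN
theorem allUNI : SpecUNI.{u, v} := specUNI specHAN EG.allDNS
theorem allALP : SpecALP.{u, v} := specALP allDES allUNI specBAS
theorem allNCX : SpecNCX.{u, v} := specNCX specCEX
theorem allNCA : SpecNCA.{u, v} := specNCA allNCX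
theorem allNCG : SpecNCG.{u, v} := specNCG allNCA
theorem allCHI : SpecCHI.{u, v} :=
  specCHI specCLO specTAU allNCG specRNO (specLFT EG.allOLF) specIDE specBAS specSEV allADS
    EG.allADA EG.allOLF
theorem allPSI : SpecPSI.{u, v} := specPSI specSP1 specSP2
theorem allCOP : SpecCOP.{u, v, w} := specCOP EG.allOPP EG.allDNS

/-- The constancy package. -/
theorem allCPK : SpecCPK.{u, v} :=
  specCPK specSQX allDIM allRES allCHI allALP allPSI specGCL (specSPN EG.allDNS EG.allOPP)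
    (specTHE EG.allOPP allCOP)

end Pool.Agent.Lib.MP_c37a72_al.CO
end
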