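import Pool.Agent.Lib.MP_c37a72_al.EG.Spec
import Pool.Agent.Lib.MP_c37a72_al.Pts

/-!
# MP_c37a72_al, block CO (constancy): definitions

`O'' = Opp = C_Q(O_l)` with the right adjoint action `x ◁ h = adrQ h x = S(h₁) x h₂`. The block produces
the constancy package `CPkg` of `EG/Base.lean`.
-/

set_option autoImplicit false

open scoped TensorProduct
open Coalgebra HopfAlgebra
open Pool.Agent.Lib.MP_c37a72_al.EG

namespace Pool.Agent.Lib.MP_c37a72_al.CO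

universe u v w

section Defs

variable (k : Type u) (Z : Type v) {H Q : Type v} [Field k] [Ring H] [HopfAlgebra k H]
  [Field Z] [Algebra k Z] [DivisionRing Q] [Algebra k Q] [Algebra Z Q] [IsScalarTower k Z Q]
  (ι : H →ₐ[k] Q)

/-- `sQ : Q → Q` is the anti-automorphism which extends the antipode, `sZ` its restriction to `Z`. -/
structure IsSQ (sQ : Q →ₗ[k] Q) (sZ : Z ≃ₐ[k] Z) : Prop where
  mul : ∀ a b : Q, sQ (a * b) = sQ b * sQ a
  ext : ∀ h : H, sQ (ι h) = ι (antipode k h)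
  bij : Function.Bijective sQ
  zz : ∀ z : Z, sQ (algebraMap Z Q z) = algebraMap Z Q (sZ z)

/-- `R h : O'' → O''` is the operator `x ↦ x ◁ h`; the fields say that `O''` is a right `H`-module
algebra. -/
structure IsRO (R : H →ₗ[k] Module.End Z ↥(Opp k Z ι)) : Prop where
  coe : ∀ (h : H) (x : ↥(Opp k Z ι)), ((R h x : ↥(Opp k Z ι)) : Q) = adrQ k Z ι h x
  one : R 1 = 1
  mul : ∀ g h : H, R (g * h) = R h * R g
  alg : ∀ (h : H) (n : ℕ) (x y : Fin n → H), comul (R := k) h = ∑ i, x i ⊗ₜ[k] y i →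
    ∀ a b : ↥(Opp k Z ι), R h (a * b) = ∑ i, R (x i) a * R (y i) b
  unit : ∀ h : H, R h 1 = counit (R := k) h • (1 : ↥(Opp k Z ι))

/-- The ring `R'` of all elements of `Q ⊗_k Q` which commute with `O_l ⊗ 1`, `1 ⊗ O_r` and `Δ(H)`. -/
noncomputable def Rcom : Subalgebra k (Q ⊗[k] Q) :=
  Subalgebra.centralizer k ({w : Q ⊗[k] Q | ∃ x ∈ Ol k Z ι, w = x ⊗ₜ[k] 1} ∪
    {w : Q ⊗[k] Q | ∃ y ∈ Or k Z ι, w = 1 ⊗ₜ[k] y} ∪ Set.range (dd k ι))

/-- The matrix `al` (entries in `Ω`) of an `H`-equivariant homomorphism of algebras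
`α : O'' → Ω ⊗_Z O''`, `α(o_p) = ∑_s al_sp ⊗ o_s`, where `Ω` is a `Z`-algebra by `z ↦ i(z ⊗ 1)` and
`α(z) = i(1 ⊗ z)` for `z ∈ Z`; the entries are integral over `i(Z ⊗ Z)`. -/
structure AlMat {m : ℕ} (o : Module.Basis (Fin m) Z ↥(Opp k Z ι))
    (R : H →ₗ[k] Module.End Z ↥(Opp k Z ι)) {Ω : Type v} [Field Ω] [Algebra k Ω]
    (i : Z ⊗[k] Z →ₐ[k] Ω) (al : Fin m → Fin m → Ω) : Prop where
  int : ∀ p q, (i : Z ⊗[k] Z →+* Ω).IsIntegralElem (al p q)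
  mul : ∀ p q s, ∑ t, i (1 ⊗ₜ[k] o.repr (o p * o q) t) * al s t =
    ∑ a, ∑ b, i (o.repr (o a * o b) s ⊗ₜ[k] 1) * (al a p * al b q)
  one : ∀ s, ∑ t, i (1 ⊗ₜ[k] o.repr 1 t) * al s t = i (o.repr 1 s ⊗ₜ[k] 1)
  act : ∀ (h : H) (p s), ∑ t, i (1 ⊗ₜ[k] o.repr (R h (o p)) t) * al s t =
    ∑ t, i (o.repr (R h (o t)) s ⊗ₜ[k] 1) * al t p

/-- The fields of `CPkg` which do not involve `θ`, without `gal` and `span`. -/
structure CPre {AA : Type w} {P : Type v} [Ring AA] [Algebra k AA] [Field P] [Algebra k P]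
    [Algebra Z P] [IsScalarTower k Z P] (ρ : H →ₗ[k] Module.End k AA)
    (ψ : ↥(Opp k Z ι) →ₐ[k] AA ⊗[k] P) : Prop where
  finA : Module.Finite k AA
  finP : Module.Finite Z P
  rone : ρ 1 = 1
  rmul : ∀ g h : H, ρ (g * h) = ρ h * ρ g
  ralg : ∀ (h : H) (n : ℕ) (x y : Fin n → H), comul (R := k) h = ∑ i, x i ⊗ₜ[k] y i →
    ∀ a b : AA, ρ h (a * b) = ∑ i, ρ (x i) a * ρ (y i) b
  psiZ : ∀ z : Z, ψ (algebraMap Z ↥(Opp k Z ι) z) = 1 ⊗ₜ[k] algebraMap Z P z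
  psiH : ∀ (h : H) (x y : ↥(Opp k Z ι)), (y : Q) = adrQ k Z ι h x →
    ψ y = TensorProduct.map (ρ h) (LinearMap.id : P →ₗ[k] P) (ψ x)
  dim : Module.finrank k AA = Module.finrank Z ↥(Opp k Z ι)

end Defs

section ZZ

variable (k : Type u) (Z Q : Type v) [Field k] [Field Z] [Algebra k Z] [DivisionRing Q]
  [Algebra k Q] [Algebra Z Q] [IsScalarTower k Z Q]

/-- `Z ⊗ Z → Q ⊗ Q`. -/
noncomputable def zz : Z ⊗[k] Z →ₐ[k] Q ⊗[k] Q :=
  Algebra.TensorProduct.map (IsScalarTower.toAlgHom k Z Q) (IsScalarTower.toAlgHom k Z Q)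

@[simp] theorem zz_tmul (a b : Z) :
    zz k Z Q (a ⊗ₜ[k] b) = algebraMap Z Q a ⊗ₜ[k] algebraMap Z Q b := by
  simp [zz]

end ZZ

/-- Two-sided ideals are finitely generated as right ideals. -/
def RNoeth (H : Type v) [Ring H] : Prop :=
  ∀ J : Ideal H, J.IsTwoSided → ∃ (n : ℕ) (g : Fin n → H), (∀ i, g i ∈ J) ∧
    ∀ x ∈ J, ∃ c : Fin n → H, x = ∑ i, g i * c i

section LF

variable (k : Type u) {H F E : Type v} [Field k] [Field F] [Algebra k F] [Ring H] [Algebra k H]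
  [AddCommGroup E] [Module F E] [Module k E] [IsScalarTower k F E]

/-- `e` is locally finite over `k`: `dim_k ρ(H) e < ∞`. -/
def LFd (ρ : H →ₐ[k] Module.End F E) (e : E) : Prop :=
  Module.Finite k (Submodule.span k (Set.range fun h : H => ρ h e))

end LF

end Pool.Agent.Lib.MP_c37a72_al.CO
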