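import Pool.Agent.Lib.MP_c37a72_al.CO.Spec

/-!
# MP_c37a72_al, block CO: module SP1

`Λ = {x ∈ 𝒪 : all coordinates in V}`, `I = {x ∈ Λ : all coordinates in ker α}`, `AA = Λ / I`.
-/

set_option autoImplicit false

open scoped TensorProduct
open Coalgebra HopfAlgebra
open Pool.Agent.Lib.MP_c37a72_al.EG

namespace Pool.Agent.Lib.MP_c37a72_al.CO

universe u v w

namespace SP1M

section L

variable {k : Type u} {Z O : Type v} [Field k] [Field Z] [Algebra k Z]
    [Ring O] [Algebra k O] [Algebra Z O] [IsScalarTower k Z O] {m : ℕ}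
    (o : Module.Basis (Fin m) Z O) (P : Plc k Z)

theorem repr_mul (x y : O) (s : Fin m) :
    o.repr (x * y) s = ∑ p, ∑ q, o.repr x p * (o.repr y q * o.repr (o p * o q) s) := by
  conv_lhs => rw [← o.sum_repr x, ← o.sum_repr y]
  rw [Finset.sum_mul, map_sum, Finsupp.coe_finsetSum, Finset.sum_apply]
  refine Finset.sum_congr rfl fun p _ => ?_
  rw [Finset.mul_sum, map_sum, Finsupp.coe_finsetSum, Finset.sum_apply]
  refine Finset.sum_congr rfl fun q _ => ?_
  rw [smul_mul_assoc, mul_smul_comm, map_smul, map_smul, Finsupp.smul_apply, Finsupp.smul_apply,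
    smul_eq_mul, smul_eq_mul]

theorem repr_app (T : Module.End Z O) (x : O) (s : Fin m) :
    o.repr (T x) s = ∑ p, o.repr x p * o.repr (T (o p)) s := by
  conv_lhs => rw [← o.sum_repr x]
  rw [map_sum, map_sum, Finsupp.coe_finsetSum, Finset.sum_apply]
  refine Finset.sum_congr rfl fun p _ => ?_
  rw [map_smul, map_smul, Finsupp.smul_apply, smul_eq_mul]

theorem repr_smulk (r : k) (x : O) (s : Fin m) : o.repr (r • x) s = r • o.repr x s := by
  rw [← algebraMap_smul Z r x, map_smul, Finsupp.smul_apply, algebraMap_smul]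

/-- `Λ` -/
def Lam (hm : ∀ p q s, o.repr (o p * o q) s ∈ P.V) (h1 : ∀ s, o.repr 1 s ∈ P.V) :
    Subalgebra k O where
  carrier := {x | ∀ s, o.repr x s ∈ P.V}
  mul_mem' := by
    intro x y hx hy s
    rw [repr_mul]
    exact sum_mem fun p _ => sum_mem fun q _ => mul_mem (hx p) (mul_mem (hy q) (hm p q s))
  one_mem' := h1
  add_mem' := by
    intro x y hx hy s
    rw [map_add, Finsupp.add_apply]
    exact add_mem (hx s) (hy s)
  zero_mem' := by
    intro s
    rw [map_zero]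
    exact zero_mem _
  algebraMap_mem' := by
    intro r s
    rw [Algebra.algebraMap_eq_smul_one, repr_smulk]
    exact P.V.smul_mem (h1 s) r

variable (hm : ∀ p q s, o.repr (o p * o q) s ∈ P.V) (h1 : ∀ s, o.repr 1 s ∈ P.V)

theorem mem_Lam {x : O} : x ∈ Lam o P hm h1 ↔ ∀ s, o.repr x s ∈ P.V := Iff.rfl

/-- the reduction map -/
noncomputable def pr : ↥(Lam o P hm h1) →ₗ[k] (Fin m → k) where
  toFun x s := P.α ⟨o.repr (x : O) s, x.2 s⟩
  map_add' := by
    intro x y
    funext s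
    rw [Pi.add_apply, ← map_add]
    congr 1
    apply Subtype.ext
    simp
  map_smul' := by
    intro r x
    funext s
    rw [Pi.smul_apply, RingHom.id_apply, ← map_smul]
    congr 1
    apply Subtype.ext
    show o.repr (r • (x : O)) s = r • o.repr (x : O) s
    exact repr_smulk o r _ s

theorem pr_apply (x : ↥(Lam o P hm h1)) (s : Fin m) {z : Z} (hz : z ∈ P.V)
    (e : o.repr (x : O) s = z) : pr o P hm h1 x s = P.α ⟨z, hz⟩ := by
  subst e; rfl

theorem pr_mul (x y : ↥(Lam o P hm h1)) (s : Fin m) :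
    pr o P hm h1 (x * y) s =
      ∑ p, ∑ q, pr o P hm h1 x p * (pr o P hm h1 y q * P.α ⟨_, hm p q s⟩) := by
  show P.α _ = ∑ p, ∑ q, P.α _ * (P.α _ * P.α _)
  simp only [← map_mul, ← map_sum]
  congr 1
  apply Subtype.ext
  rw [AddSubmonoidClass.coe_finsetSum]
  simp only [AddSubmonoidClass.coe_finsetSum]
  exact repr_mul o _ _ s

theorem o_mem (p : Fin m) : o p ∈ Lam o P hm h1 := by
  intro s
  rw [o.repr_self, Finsupp.single_apply]
  split_ifs
  · exact one_mem _
  · exact zero_mem _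

theorem pr_o (p s : Fin m) : pr o P hm h1 ⟨o p, o_mem o P hm h1 p⟩ s = if p = s then 1 else 0 := by
  have e : o.repr (o p) s = if p = s then (1 : Z) else 0 := by
    rw [o.repr_self, Finsupp.single_apply]
  split_ifs with h
  · rw [if_pos h] at e
    rw [pr_apply o P hm h1 _ s (one_mem _) e]
    exact map_one P.α
  · rw [if_neg h] at e
    rw [pr_apply o P hm h1 _ s (zero_mem _) e]
    exact map_zero P.α

/-- the ideal of `Λ` -/
def II : Ideal ↥(Lam o P hm h1) where
  carrier := {x | pr o P hm h1 x = 0}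
  add_mem' := by
    intro x y hx hy
    simp only [Set.mem_ofPred_eq] at *
    rw [map_add, hx, hy, add_zero]
  zero_mem' := map_zero _
  smul_mem' := by
    intro c x hx
    simp only [Set.mem_ofPred_eq] at *
    funext s
    rw [smul_eq_mul, pr_mul, hx]
    simp

theorem mem_II {x : ↥(Lam o P hm h1)} : x ∈ II o P hm h1 ↔ pr o P hm h1 x = 0 := Iff.rfl

instance II_two : (II o P hm h1).IsTwoSided := by
  refine ⟨fun {x} y hx => ?_⟩
  rw [mem_II] at *
  funext s
  rw [pr_mul, hx]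
  simp

/-- the quotient map -/
noncomputable def mk (x : ↥(Lam o P hm h1)) : ↥(Lam o P hm h1) ⧸ II o P hm h1 := Ideal.Quotient.mk _ x

theorem mk_eq {x y : ↥(Lam o P hm h1)} : mk o P hm h1 x = mk o P hm h1 y ↔
    pr o P hm h1 x = pr o P hm h1 y := by
  unfold mk
  rw [Ideal.Quotient.eq, mem_II, map_sub, sub_eq_zero]

theorem mk_surj (y : ↥(Lam o P hm h1) ⧸ II o P hm h1) : ∃ x, mk o P hm h1 x = y :=
  Ideal.Quotient.mk_surjective y

theorem mk_mul (x y : ↥(Lam o P hm h1)) :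
    mk o P hm h1 (x * y) = mk o P hm h1 x * mk o P hm h1 y := map_mul _ _ _

theorem mk_one : mk o P hm h1 1 = 1 := map_one _

theorem mk_smul (r : k) (x : ↥(Lam o P hm h1)) : mk o P hm h1 (r • x) = r • mk o P hm h1 x := rfl

theorem mk_sum {ι' : Type*} (S : Finset ι') (f : ι' → ↥(Lam o P hm h1)) :
    mk o P hm h1 (∑ i ∈ S, f i) = ∑ i ∈ S, mk o P hm h1 (f i) :=
  map_sum (Ideal.Quotient.mk (II o P hm h1)) f S

/-- the basis vectors -/
noncomputable def ab (p : Fin m) : ↥(Lam o P hm h1) ⧸ II o P hm h1 := mk o P hm h1 ⟨o p, o_mem o P hm h1 p⟩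

theorem pr_comb (c : Fin m → k) :
    pr o P hm h1 (∑ p, c p • (⟨o p, o_mem o P hm h1 p⟩ : ↥(Lam o P hm h1))) = c := by
  funext s
  rw [map_sum, Finset.sum_apply]
  simp only [map_smul, Pi.smul_apply, pr_o, smul_eq_mul, mul_ite, mul_one, mul_zero]
  simp

theorem comb (c : Fin m → k) : ∑ p, c p • ab o P hm h1 p =
    mk o P hm h1 (∑ p, c p • (⟨o p, o_mem o P hm h1 p⟩ : ↥(Lam o P hm h1))) := by
  rw [mk_sum]
  rfl

theorem mk_expand (x : ↥(Lam o P hm h1)) :
    mk o P hm h1 x = ∑ p, pr o P hm h1 x p • ab o P hm h1 p := by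
  rw [comb, mk_eq, pr_comb]

/-- the basis -/
noncomputable def bb : Module.Basis (Fin m) k (↥(Lam o P hm h1) ⧸ II o P hm h1) :=
  Module.Basis.mk (v := ab o P hm h1)
    (by
      rw [Fintype.linearIndependent_iff]
      intro c hc
      rw [comb] at hc
      have h2 : mk o P hm h1 (∑ p, c p • (⟨o p, o_mem o P hm h1 p⟩ : ↥(Lam o P hm h1))) =
          mk o P hm h1 0 := by
        rw [hc]; exact (map_zero (Ideal.Quotient.mk (II o P hm h1))).symm
      rw [mk_eq, pr_comb, map_zero] at h2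
      intro i
      rw [h2]; rfl)
    (by
      intro y _
      obtain ⟨x, rfl⟩ := mk_surj o P hm h1 y
      rw [mk_expand]
      exact Submodule.sum_mem _ fun p _ => Submodule.smul_mem _ _
        (Submodule.subset_span ⟨p, rfl⟩))

theorem bb_apply (p : Fin m) : bb o P hm h1 p = ab o P hm h1 p := by
  unfold bb
  rw [Module.Basis.mk_apply]

/-- coordinates by lifting -/
theorem mk_of_coord (x : ↥(Lam o P hm h1)) (c : Fin m → ↥P.V)
    (hc : ∀ s, (c s : Z) = o.repr (x : O) s) :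
    mk o P hm h1 x = ∑ s, P.α (c s) • bb o P hm h1 s := by
  rw [mk_expand]
  refine Finset.sum_congr rfl fun s _ => ?_
  rw [bb_apply, pr_apply o P hm h1 x s (c s).2 (hc s).symm]

section act

variable {H : Type v} [Ring H] [HopfAlgebra k H] (R : H →ₗ[k] Module.End Z O)
  (hR : ∀ (h : H) (p s), o.repr (R h (o p)) s ∈ P.V)

theorem R_mem (h : H) (x : ↥(Lam o P hm h1)) (hR : ∀ (h : H) (p s), o.repr (R h (o p)) s ∈ P.V) :
    R h (x : O) ∈ Lam o P hm h1 := by
  intro s
  rw [repr_app]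
  exact sum_mem fun p _ => mul_mem (x.2 p) (hR h p s)

/-- `R` on `Λ` -/
def RL (h : H) (x : ↥(Lam o P hm h1)) : ↥(Lam o P hm h1) := ⟨R h x, R_mem o P hm h1 R h x hR⟩

theorem pr_RL (h : H) (x : ↥(Lam o P hm h1)) (s : Fin m) :
    pr o P hm h1 (RL o P hm h1 R hR h x) s =
      ∑ p, pr o P hm h1 x p * P.α ⟨_, hR h p s⟩ := by
  show P.α _ = ∑ p, P.α _ * P.α _
  simp only [← map_mul, ← map_sum]
  congr 1
  apply Subtype.ext
  rw [AddSubmonoidClass.coe_finsetSum]
  exact repr_app o _ _ s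

/-- the action on the quotient -/
noncomputable def rh : H →ₗ[k] Module.End k (↥(Lam o P hm h1) ⧸ II o P hm h1) where
  toFun h := (bb o P hm h1).constr k
    (fun p => mk o P hm h1 (RL o P hm h1 R hR h ⟨o p, o_mem o P hm h1 p⟩))
  map_add' := by
    intro g h
    refine (bb o P hm h1).ext fun p => ?_
    rw [LinearMap.add_apply, (bb o P hm h1).constr_basis k, (bb o P hm h1).constr_basis k,
      (bb o P hm h1).constr_basis k]
    unfold mk
    rw [← map_add]
    congr 1
    apply Subtype.ext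
    show R (g + h) (o p) = R g (o p) + R h (o p)
    rw [map_add]; rfl
  map_smul' := by
    intro r h
    refine (bb o P hm h1).ext fun p => ?_
    rw [RingHom.id_apply, LinearMap.smul_apply, (bb o P hm h1).constr_basis k,
      (bb o P hm h1).constr_basis k, ← mk_smul]
    congr 1
    apply Subtype.ext
    show R (r • h) (o p) = r • R h (o p)
    rw [map_smul]; rfl

theorem rh_mk (h : H) (x : ↥(Lam o P hm h1)) :
    rh o P hm h1 R hR h (mk o P hm h1 x) = mk o P hm h1 (RL o P hm h1 R hR h x) := by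
  have e : ∀ p, rh o P hm h1 R hR h (ab o P hm h1 p) =
      mk o P hm h1 (RL o P hm h1 R hR h ⟨o p, o_mem o P hm h1 p⟩) := by
    intro p
    rw [← bb_apply]
    exact (bb o P hm h1).constr_basis k _ p
  rw [mk_expand, map_sum]
  simp only [map_smul, e, ← mk_smul]
  rw [← mk_sum, mk_eq]
  funext s
  rw [map_sum, Finset.sum_apply, pr_RL]
  refine Finset.sum_congr rfl fun p _ => ?_
  rw [map_smul, Pi.smul_apply, smul_eq_mul]
  rfl

end act

end L

/-- the version in `Type v` -/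
theorem core (k : Type u) (H Z O : Type v) [Field k] [Ring H] [HopfAlgebra k H] [Field Z]
    [Algebra k Z] [Ring O] [Algebra k O] [Algebra Z O] [IsScalarTower k Z O] (m : ℕ)
    (o : Module.Basis (Fin m) Z O) (R : H →ₗ[k] Module.End Z O) (P : Plc k Z)
    (R1 : R 1 = 1) (Rm : ∀ g h : H, R (g * h) = R h * R g)
    (Ra : ∀ (h : H) (n : ℕ) (x y : Fin n → H), comul (R := k) h = ∑ i, x i ⊗ₜ[k] y i →
      ∀ a b : O, R h (a * b) = ∑ i, R (x i) a * R (y i) b)
    (hm : ∀ p q s, o.repr (o p * o q) s ∈ P.V) (h1 : ∀ s, o.repr 1 s ∈ P.V)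
    (hR : ∀ (h : H) (p s), o.repr (R h (o p)) s ∈ P.V) :
    ∃ (AA : Type v) (_ : Ring AA) (_ : Algebra k AA) (a : Module.Basis (Fin m) k AA)
      (ρ : H →ₗ[k] Module.End k AA),
      ρ 1 = 1 ∧ (∀ g h : H, ρ (g * h) = ρ h * ρ g) ∧
      (∀ (h : H) (n : ℕ) (x y : Fin n → H), comul (R := k) h = ∑ i, x i ⊗ₜ[k] y i →
        ∀ b c : AA, ρ h (b * c) = ∑ i, ρ (x i) b * ρ (y i) c) ∧
      (∀ (p q : Fin m) (c : Fin m → ↥P.V), (∀ s, (c s : Z) = o.repr (o p * o q) s) →
        a p * a q = ∑ s, P.α (c s) • a s) ∧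
      (∀ c : Fin m → ↥P.V, (∀ s, (c s : Z) = o.repr 1 s) → 1 = ∑ s, P.α (c s) • a s) ∧
      ∀ (h : H) (p : Fin m) (c : Fin m → ↥P.V), (∀ s, (c s : Z) = o.repr (R h (o p)) s) →
        ρ h (a p) = ∑ s, P.α (c s) • a s := by
  refine ⟨↥(Lam o P hm h1) ⧸ II o P hm h1, inferInstance, inferInstance, bb o P hm h1,
    rh o P hm h1 R hR, ?_, ?_, ?_, ?_, ?_, ?_⟩
  · refine LinearMap.ext fun y => ?_
    obtain ⟨x, rfl⟩ := mk_surj o P hm h1 y
    rw [rh_mk, Module.End.one_apply]
    congr 1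
    apply Subtype.ext
    show R 1 (x : O) = x
    rw [R1]; rfl
  · intro g h
    refine LinearMap.ext fun y => ?_
    obtain ⟨x, rfl⟩ := mk_surj o P hm h1 y
    rw [Module.End.mul_apply, rh_mk, rh_mk, rh_mk]
    congr 1
    apply Subtype.ext
    show R (g * h) (x : O) = R h (R g x)
    rw [Rm]; rfl
  · intro h n x y e b c
    obtain ⟨b, rfl⟩ := mk_surj o P hm h1 b
    obtain ⟨c, rfl⟩ := mk_surj o P hm h1 c
    rw [← mk_mul, rh_mk]
    simp only [rh_mk, ← mk_mul]
    rw [← mk_sum]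
    congr 1
    apply Subtype.ext
    rw [AddSubmonoidClass.coe_finsetSum]
    exact Ra h n x y e b c
  · intro p q c hc
    rw [bb_apply, bb_apply]
    unfold ab
    rw [← mk_mul]
    exact mk_of_coord o P hm h1 _ c hc
  · intro c hc
    rw [← mk_one]
    exact mk_of_coord o P hm h1 _ c hc
  · intro h p c hc
    rw [bb_apply]
    unfold ab
    rw [rh_mk]
    exact mk_of_coord o P hm h1 _ c hc

end SP1M

theorem specSP1 : SpecSP1.{u, v} := by
  intro k H Z O _ _ _ _ _ _ _ _ _ m o R P R1 Rm Ra hm h1 hR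
  obtain ⟨AA, _, _, a, ρ, p1, p2, p3, p4, p5, p6⟩ :=
    SP1M.core k H Z O m o R P R1 Rm Ra hm h1 hR
  let e : AA ≃ₐ[k] ULift.{u} AA := ULift.algEquiv.symm
  refine ⟨ULift.{u} AA, inferInstance, inferInstance, a.map e.toLinearEquiv,
    (e.toLinearEquiv.conj : Module.End k AA ≃ₗ[k] Module.End k (ULift.{u} AA)).toLinearMap ∘ₗ ρ,
    ?_, ?_, ?_, ?_, ?_, ?_⟩
  · ext y
    simp [p1]
  · intro g h
    ext y
    simp [p2, LinearEquiv.conj_apply]
  · intro h n x y ec b c
    show e (ρ h (e.symm (b * c))) = ∑ i, e (ρ (x i) (e.symm b)) * e (ρ (y i) (e.symm c))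
    rw [map_mul, p3 h n x y ec, map_sum]
    simp only [map_mul]
  · intro p q c hc
    show e (a p) * e (a q) = ∑ s, P.α (c s) • e (a s)
    rw [← map_mul, p4 p q c hc, map_sum]
    simp only [map_smul]
  · intro c hc
    show (1 : ULift.{u} AA) = ∑ s, P.α (c s) • e (a s)
    rw [← map_one e, p5 c hc, map_sum]
    simp only [map_smul]
  · intro h p c hc
    show e (ρ h (e.symm (e (a p)))) = ∑ s, P.α (c s) • e (a s)
    rw [AlgEquiv.symm_apply_apply, p6 h p c hc, map_sum]
    simp only [map_smul]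

end Pool.Agent.Lib.MP_c37a72_al.CO
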